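import Pool.Agent.Lib.MP_b12932_pr.Centroid

/-!
# Anticoncentration of the centroid branch statistic of a random labelled tree
-/

set_option autoImplicit false

open Finset

namespace Pool.Agent.MP_b12932_pr

open SimpleGraph Classical

/-! ### elementary sums -/

lemma r32_anti {a b : ℕ} (hb : 1 ≤ b) (hab : b ≤ a) : r32 a ≤ r32 b := by
  unfold r32
  have hb0 : (0 : ℝ) < b := by exact_mod_cast hb
  have hab' : (b : ℝ) ≤ a := by exact_mod_cast hab
  apply one_div_le_one_div_of_le
  · positivity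
  · exact mul_le_mul hab' (Real.sqrt_le_sqrt hab') (Real.sqrt_nonneg _) (by linarith)

lemma r32_le_of (c x k : ℕ) (hk : 1 ≤ k) (h : k ≤ c * x) :
    r32 x ≤ (c * Real.sqrt c) / (k * Real.sqrt k) := by
  have hk0 : (0 : ℝ) < k := by exact_mod_cast hk
  have h' : (k : ℝ) ≤ c * x := by exact_mod_cast h
  have hc : (0 : ℝ) < c := by
    rcases Nat.eq_zero_or_pos c with h0 | h0
    · subst h0; simp at h; omega
    · exact_mod_cast h0
  have hx : (0 : ℝ) < x := by
    by_contra hx
    have : (x : ℝ) = 0 := le_antisymm (not_lt.mp hx) (Nat.cast_nonneg _)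
    rw [this] at h'; linarith
  unfold r32
  rw [div_le_div_iff₀ (by positivity) (by positivity), one_mul]
  have h1 : Real.sqrt k ≤ Real.sqrt c * Real.sqrt x := by
    rw [← Real.sqrt_mul hc.le]; exact Real.sqrt_le_sqrt h'
  calc (k : ℝ) * Real.sqrt k ≤ (c * x) * (Real.sqrt c * Real.sqrt x) :=
        mul_le_mul h' h1 (Real.sqrt_nonneg _) (by positivity)
    _ = _ := by ring

lemma r32_telescope (g : ℕ) (hg : 1 ≤ g) :
    r32 g ≤ 4 * (1 / Real.sqrt g - 1 / Real.sqrt (g + 1 : ℕ)) := by
  have hg0 : (1 : ℝ) ≤ g := by exact_mod_cast hg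
  unfold r32
  set x := Real.sqrt g with hx
  set y := Real.sqrt ((g + 1 : ℕ) : ℝ) with hy
  have hx2 : x ^ 2 = g := Real.sq_sqrt (by linarith)
  have hy2 : y ^ 2 = g + 1 := by
    rw [hy, Real.sq_sqrt (by positivity)]; push_cast; ring
  have hxpos : 0 < x := Real.sqrt_pos.mpr (by linarith)
  have hypos : 0 < y := Real.sqrt_pos.mpr (by positivity)
  have e : 4 * (1 / x - 1 / y) = 4 * (y - x) / (x * y) := by field_simp
  rw [e, div_le_div_iff₀ (by positivity) (by positivity), one_mul, ← hx2]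
  have hyx : (y - x) * (y + x) = 1 := by ring_nf; rw [hx2, hy2]; ring
  have h1 : y * (y + x) ≤ 4 * x ^ 2 := by nlinarith [sq_nonneg (x - y)]
  have h2 : 0 ≤ y - x := by
    by_contra hc
    have : (y - x) * (y + x) ≤ 0 := mul_nonpos_of_nonpos_of_nonneg (by linarith) (by linarith)
    linarith
  have h3 : y ≤ 4 * x ^ 2 * (y - x) := by
    calc y = y * ((y - x) * (y + x)) := by rw [hyx, mul_one]
      _ = (y * (y + x)) * (y - x) := by ring
      _ ≤ (4 * x ^ 2) * (y - x) := mul_le_mul_of_nonneg_right h1 h2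
  calc x * y ≤ x * (4 * x ^ 2 * (y - x)) := mul_le_mul_of_nonneg_left h3 hxpos.le
    _ = 4 * (y - x) * (x ^ 2 * x) := by ring

lemma sum_r32_le (s n : ℕ) (hs : 1 ≤ s) : ∑ g ∈ Icc s n, r32 g ≤ 4 / Real.sqrt s := by
  have key : ∀ n, s ≤ n → ∑ g ∈ Ico s n, r32 g ≤ 4 / Real.sqrt s - 4 / Real.sqrt n := by
    intro n hn
    induction n, hn using Nat.le_induction with
    | base => simp
    | succ n hn ih =>
      rw [sum_Ico_succ_top hn]
      have := r32_telescope n (hs.trans hn)
      have e : 4 * (1 / Real.sqrt n - 1 / Real.sqrt ((n + 1 : ℕ) : ℝ))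
          = 4 / Real.sqrt n - 4 / Real.sqrt ((n + 1 : ℕ) : ℝ) := by ring
      linarith
  have hpos : 0 ≤ 4 / Real.sqrt ((n + 1 : ℕ) : ℝ) := by positivity
  by_cases hn : s ≤ n
  · have h1 := key (n + 1) (by omega)
    have e : Ico s (n + 1) = Icc s n := by ext x; simp only [mem_Ico, mem_Icc]; omega
    rw [e] at h1
    linarith
  · rw [Icc_eq_empty (by omega)]
    rw [sum_empty]
    positivity

lemma sum_inv_sqrt_Icc (w : ℕ) : ∑ s ∈ Icc 1 w, 1 / Real.sqrt s ≤ 2 * Real.sqrt w := by
  induction w with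
  | zero => simp
  | succ w ih =>
    rw [← insert_Icc_right_eq_Icc_add_one (by omega : 1 ≤ w + 1), sum_insert (by simp)]
    set x := Real.sqrt w with hx
    set y := Real.sqrt ((w + 1 : ℕ) : ℝ) with hy
    have hx2 : x ^ 2 = w := Real.sq_sqrt (by positivity)
    have hy2 : y ^ 2 = w + 1 := by
      rw [hy, Real.sq_sqrt (by positivity)]; push_cast; ring
    have hxpos : 0 ≤ x := Real.sqrt_nonneg _
    have hypos : 0 < y := Real.sqrt_pos.mpr (by positivity)
    have hyx : x ≤ y := Real.sqrt_le_sqrt (by push_cast; linarith)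
    have h1 : 1 / y ≤ 2 * (y - x) := by
      rw [div_le_iff₀ hypos]
      nlinarith
    linarith

lemma sum_inv_sqrt_le (S : Finset ℕ) (hS : ∀ s ∈ S, 1 ≤ s) :
    ∑ s ∈ S, 1 / Real.sqrt s ≤ 3 * Real.sqrt S.card := by
  set w := S.card with hw
  rw [← sum_filter_add_sum_filter_not S (fun s => s ≤ w)]
  have h1 : ∑ s ∈ S.filter (fun s => s ≤ w), 1 / Real.sqrt s ≤ 2 * Real.sqrt w := by
    refine le_trans (sum_le_sum_of_subset_of_nonneg ?_ ?_) (sum_inv_sqrt_Icc w)
    · intro s hs
      rw [mem_filter] at hs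
      rw [mem_Icc]
      exact ⟨hS s hs.1, hs.2⟩
    · intro i _ _; positivity
  have h2 : ∑ s ∈ S.filter (fun s => ¬ s ≤ w), 1 / Real.sqrt s ≤ Real.sqrt w := by
    rcases Nat.eq_zero_or_pos w with h0 | h0
    · have : S = ∅ := card_eq_zero.mp (hw ▸ h0)
      rw [this]; simp
    · have hw0 : (0 : ℝ) < w := by exact_mod_cast h0
      calc ∑ s ∈ S.filter (fun s => ¬ s ≤ w), 1 / Real.sqrt s
          ≤ ∑ s ∈ S.filter (fun s => ¬ s ≤ w), 1 / Real.sqrt w := by
            refine sum_le_sum fun s hs => ?_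
            rw [mem_filter] at hs
            apply one_div_le_one_div_of_le (Real.sqrt_pos.mpr hw0)
            apply Real.sqrt_le_sqrt
            have : w ≤ s := by omega
            exact_mod_cast this
        _ = (S.filter (fun s => ¬ s ≤ w)).card * (1 / Real.sqrt w) := by
            rw [sum_const, nsmul_eq_mul]
        _ ≤ w * (1 / Real.sqrt w) := by
            apply mul_le_mul_of_nonneg_right _ (by positivity)
            exact_mod_cast card_filter_le _ _
        _ = Real.sqrt w := by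
            rw [mul_one_div, Real.div_sqrt]
  linarith

/-! ### monotonicity and union bound for `treeProb` -/

lemma treeProb_nonneg (k : ℕ) (Q : SimpleGraph (Fin k) → Prop) : 0 ≤ treeProb k Q := by
  unfold treeProb; positivity

lemma treeProb_mono {k : ℕ} {Q Q' : SimpleGraph (Fin k) → Prop}
    (h : ∀ T, T.IsTree → Q T → Q' T) : treeProb k Q ≤ treeProb k Q' := by
  unfold treeProb
  apply div_le_div_of_nonneg_right _ (by positivity)
  have : Nat.card {T : SimpleGraph (Fin k) // T.IsTree ∧ Q T}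
      ≤ Nat.card {T : SimpleGraph (Fin k) // T.IsTree ∧ Q' T} := by
    apply Nat.card_le_card_of_injective (fun T => ⟨T.1, T.2.1, h T.1 T.2.1 T.2.2⟩)
    intro T T' hTT
    apply Subtype.ext
    simpa using hTT
  exact_mod_cast this

lemma treeProb_union {ι : Type} (k : ℕ) (s : Finset ι) (Q : ι → SimpleGraph (Fin k) → Prop) :
    treeProb k (fun T => ∃ i ∈ s, Q i T) ≤ ∑ i ∈ s, treeProb k (Q i) := by
  rw [treeProb_eq]
  have h1 : ∀ i, treeProb k (Q i) =
      ((univ.filter (fun T : SimpleGraph (Fin k) => T.IsTree ∧ Q i T)).card : ℝ) / (k : ℝ) ^ (k - 2) :=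
    fun i => treeProb_eq k (Q i)
  rw [sum_congr rfl (fun i _ => h1 i), ← sum_div]
  apply div_le_div_of_nonneg_right _ (by positivity)
  have : (univ.filter (fun T : SimpleGraph (Fin k) => T.IsTree ∧ ∃ i ∈ s, Q i T)).card
      ≤ ∑ i ∈ s, (univ.filter (fun T : SimpleGraph (Fin k) => T.IsTree ∧ Q i T)).card := by
    refine (card_le_card ?_).trans card_biUnion_le
    intro T hT
    rw [mem_filter] at hT
    obtain ⟨_, hT, i, hi, hQ⟩ := hT
    rw [mem_biUnion]
    exact ⟨i, hi, mem_filter.mpr ⟨mem_univ _, hT, hQ⟩⟩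
  exact_mod_cast this

lemma treeProb_or (k : ℕ) (Q Q' : SimpleGraph (Fin k) → Prop) :
    treeProb k (fun T => Q T ∨ Q' T) ≤ treeProb k Q + treeProb k Q' := by
  have h := treeProb_union k (univ : Finset Bool) (fun b T => if b then Q T else Q' T)
  simp only [Fintype.sum_bool, if_true] at h
  refine (treeProb_mono ?_).trans (h.trans (le_of_eq ?_))
  · intro T _ hT
    rcases hT with hT | hT
    · exact ⟨true, mem_univ _, by simpa using hT⟩
    · exact ⟨false, mem_univ _, by simpa using hT⟩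
  · simp

lemma sum_sizes {V J : Type} [Fintype V] [Fintype J] (x : V) (P : V → J) :
    ∑ j, sizes x P j = Fintype.card V - 1 := by
  have h1 : (univ.erase x).card = ∑ j, ((univ.erase x).filter (fun v => P v = j)).card :=
    card_eq_sum_card_fiberwise (fun v _ => mem_univ (P v))
  rw [card_erase_of_mem (mem_univ x), card_univ] at h1
  rw [h1]
  refine sum_congr rfl fun j _ => ?_
  unfold sizes
  congr 1
  ext v
  simp

/-! ### probability bounds -/

lemma k_pow (k : ℕ) (hk : 1 ≤ k) :
    ((k : ℝ) ^ 2 * Real.sqrt k) / (k * Real.sqrt k * (k * Real.sqrt k)) = 1 / Real.sqrt k := by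
  have hk0 : (0 : ℝ) < k := by exact_mod_cast hk
  have : Real.sqrt k ≠ 0 := (Real.sqrt_pos.mpr hk0).ne'
  have : (k : ℝ) ≠ 0 := hk0.ne'
  field_simp

lemma eight_sqrt : ((8 : ℕ) * Real.sqrt (8 : ℕ)) * ((8 : ℕ) * Real.sqrt (8 : ℕ)) = (512 : ℝ) := by
  have : Real.sqrt (8 : ℕ) * Real.sqrt (8 : ℕ) = (8 : ℝ) := by
    rw [Real.mul_self_sqrt (by positivity)]; norm_num
  push_cast at this ⊢
  nlinarith

/-- the centroid statistic is exactly `m`, two-class bound -/
lemma prob_two (k m : ℕ) (hk : 4 ≤ k) (hm : k ≤ 8 * m) (hm2 : 2 * m ≤ k) :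
    treeProb k (fun T => cen T = m) ≤ 2048 / Real.sqrt k := by
  have hk0 : (0 : ℝ) < k := by exact_mod_cast (by omega : 0 < k)
  have hne : Nonempty (Fin k) := ⟨⟨0, by omega⟩⟩
  set Γ : Finset (Fin 2 → ℕ) := {![m, k - 1 - m]} with hΓ
  have h1 : treeProb k (fun T => cen T = m) ≤
      treeProb k (fun T => ∃ x, ∃ P : Fin k → Fin 2, Separated T x P ∧ sizes x P ∈ Γ) := by
    apply treeProb_mono
    intro T hT hcen
    obtain ⟨x, P, hP, h0, h1⟩ := twoSplit_of_cen hT (by rw [Fintype.card_fin]; omega)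
    refine ⟨x, P, hP, ?_⟩
    rw [hΓ, mem_singleton]
    funext j
    rw [Fintype.card_fin] at h1
    fin_cases j
    · exact h0.trans hcen
    · exact h1.trans (by rw [hcen]; rfl)
  refine h1.trans ((treeProb_split_le k (by omega) Γ ?_).trans ?_)
  · intro g hg
    rw [hΓ, mem_singleton] at hg
    subst hg
    refine ⟨?_, ?_⟩
    · intro j; fin_cases j
      · simp; omega
      · simp; omega
    · rw [Fin.sum_univ_two]; simp; omega
  · rw [hΓ, sum_singleton, Fin.prod_univ_two]
    simp only [Matrix.cons_val_zero, Matrix.cons_val_one]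
    have a1 := r32_le_of 8 m k (by omega) hm
    have a2 := r32_le_of 8 (k - 1 - m) k (by omega) (by omega)
    have a3 : r32 m * r32 (k - 1 - m) ≤
        ((8 : ℕ) * Real.sqrt (8 : ℕ)) / (k * Real.sqrt k) * (((8 : ℕ) * Real.sqrt (8 : ℕ)) / (k * Real.sqrt k)) :=
      mul_le_mul a1 a2 (r32_nonneg _) (by positivity)
    rw [div_mul_div_comm, eight_sqrt] at a3
    calc (2 : ℝ) ^ Fintype.card (Fin 2) * ((k : ℝ) ^ 2 * Real.sqrt k) * (r32 m * r32 (k - 1 - m))
        ≤ 4 * ((k : ℝ) ^ 2 * Real.sqrt k) * (512 / (k * Real.sqrt k * (k * Real.sqrt k))) := by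
          rw [Fintype.card_fin]
          norm_num only
          apply mul_le_mul_of_nonneg_left a3 (by positivity)
      _ = 2048 * (((k : ℝ) ^ 2 * Real.sqrt k) / (k * Real.sqrt k * (k * Real.sqrt k))) := by ring
      _ = 2048 / Real.sqrt k := by rw [k_pow k (by omega)]; ring

/-- the centroid statistic is exactly `m`, three-class bound -/
lemma prob_three (k m : ℕ) (hk : 4 ≤ k) (hm : k ≤ 8 * m) (hm2 : m < (k - 1) / 2) :
    treeProb k (fun T => cen T = m) ≤
      32768 / Real.sqrt k * (1 / Real.sqrt ((k - 1) / 2 - m : ℕ)) := by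
  have hk0 : (0 : ℝ) < k := by exact_mod_cast (by omega : 0 < k)
  have hne : Nonempty (Fin k) := ⟨⟨0, by omega⟩⟩
  set s := (k - 1) / 2 - m with hs
  have hs1 : 1 ≤ s := by omega
  set R := k - 1 - m with hR
  set Γ : Finset (Fin 3 → ℕ) := (Icc s (R - s)).image (fun g => ![m, g, R - g]) with hΓ
  have h1 : treeProb k (fun T => cen T = m) ≤
      treeProb k (fun T => ∃ x, ∃ P : Fin k → Fin 3, Separated T x P ∧ sizes x P ∈ Γ) := by
    apply treeProb_mono
    intro T hT hcen
    obtain ⟨x, P, hP, h0, h1, h2, h3⟩ := threeSplit_of_cen hT s hs1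
      (by rw [Fintype.card_fin, hcen]; omega)
    refine ⟨x, P, hP, ?_⟩
    rw [Fintype.card_fin, Fin.sum_univ_three, h0, hcen] at h3
    rw [hΓ, mem_image]
    refine ⟨sizes x P 1, ?_, ?_⟩
    · rw [mem_Icc]; omega
    · funext j
      fin_cases j
      · exact (h0.trans hcen).symm
      · rfl
      · change R - sizes x P 1 = sizes x P 2
        omega
  refine h1.trans ((treeProb_split_le k (by omega) Γ ?_).trans ?_)
  · intro g hg
    rw [hΓ, mem_image] at hg
    obtain ⟨a, ha, rfl⟩ := hg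
    rw [mem_Icc] at ha
    refine ⟨?_, ?_⟩
    · intro j; fin_cases j
      · change 1 ≤ m; omega
      · change 1 ≤ a; omega
      · change 1 ≤ R - a; omega
    · rw [Fin.sum_univ_three]
      change m + a + (R - a) = k - 1
      omega
  · have hsum : ∑ g ∈ Γ, ∏ j, r32 (g j) = ∑ a ∈ Icc s (R - s), r32 m * (r32 a * r32 (R - a)) := by
      rw [hΓ, sum_image]
      · refine sum_congr rfl fun a _ => ?_
        rw [Fin.prod_univ_three]
        change r32 m * r32 a * r32 (R - a) = _
        ring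
      · intro a _ b _ hab
        exact congrFun hab 1
    have hprod : ∀ a ∈ Icc s (R - s), r32 a * r32 (R - a) ≤ r32 (R / 2) * (r32 a + r32 (R - a)) := by
      intro a ha
      rw [mem_Icc] at ha
      have p1 := r32_nonneg a
      have p2 := r32_nonneg (R - a)
      have p3 := r32_nonneg (R / 2)
      by_cases h : R / 2 ≤ a
      · have := r32_anti (a := a) (b := R / 2) (by omega) h
        nlinarith
      · have := r32_anti (a := R - a) (b := R / 2) (by omega) (by omega)
        nlinarith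
    have hflip : ∑ a ∈ Icc s (R - s), r32 (R - a) = ∑ a ∈ Icc s (R - s), r32 a := by
      apply sum_nbij' (fun a => R - a) (fun a => R - a)
      · intro a ha; simp only [mem_Icc] at ha ⊢; omega
      · intro a ha; simp only [mem_Icc] at ha ⊢; omega
      · intro a ha; simp only [mem_Icc] at ha; omega
      · intro a ha; simp only [mem_Icc] at ha; omega
      · intro a _; rfl
    have hS := sum_r32_le s (R - s) hs1
    have hm0 := r32_nonneg m
    have hR0 := r32_nonneg (R / 2)
    have a1 := r32_le_of 8 m k (by omega) hm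
    have a2 := r32_le_of 8 (R / 2) k (by omega) (by omega)
    have a3 : r32 m * r32 (R / 2) ≤
        ((8 : ℕ) * Real.sqrt (8 : ℕ)) / (k * Real.sqrt k) * (((8 : ℕ) * Real.sqrt (8 : ℕ)) / (k * Real.sqrt k)) :=
      mul_le_mul a1 a2 hR0 (by positivity)
    rw [div_mul_div_comm, eight_sqrt] at a3
    have hbound : ∑ g ∈ Γ, ∏ j, r32 (g j) ≤
        512 / (k * Real.sqrt k * (k * Real.sqrt k)) * (8 / Real.sqrt s) := by
      rw [hsum, ← mul_sum]
      calc r32 m * ∑ a ∈ Icc s (R - s), r32 a * r32 (R - a)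
          ≤ r32 m * ∑ a ∈ Icc s (R - s), r32 (R / 2) * (r32 a + r32 (R - a)) :=
            mul_le_mul_of_nonneg_left (sum_le_sum hprod) hm0
        _ = (r32 m * r32 (R / 2)) * (2 * ∑ a ∈ Icc s (R - s), r32 a) := by
            rw [← mul_sum, sum_add_distrib, hflip]; ring
        _ ≤ (r32 m * r32 (R / 2)) * (2 * (4 / Real.sqrt s)) :=
            mul_le_mul_of_nonneg_left (by linarith) (by positivity)
        _ = (r32 m * r32 (R / 2)) * (8 / Real.sqrt s) := by ring
        _ ≤ _ := mul_le_mul_of_nonneg_right a3 (by positivity)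
    calc (2 : ℝ) ^ Fintype.card (Fin 3) * ((k : ℝ) ^ 2 * Real.sqrt k) * ∑ g ∈ Γ, ∏ j, r32 (g j)
        ≤ 8 * ((k : ℝ) ^ 2 * Real.sqrt k) *
          (512 / (k * Real.sqrt k * (k * Real.sqrt k)) * (8 / Real.sqrt s)) := by
          rw [Fintype.card_fin]
          norm_num only
          apply mul_le_mul_of_nonneg_left hbound (by positivity)
      _ = 32768 * (((k : ℝ) ^ 2 * Real.sqrt k) / (k * Real.sqrt k * (k * Real.sqrt k))) * (1 / Real.sqrt s) := by
          ring
      _ = _ := by rw [k_pow k (by omega)]; ring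

/-- a four-splitting is unlikely -/
lemma prob_four (k : ℕ) (hk : 40 ≤ k) :
    treeProb k (fun T => FourSplit T (k / 20)) ≤ (16 * 40 ^ 6 : ℝ) / Real.sqrt k := by
  have hk0 : (0 : ℝ) < k := by exact_mod_cast (by omega : 0 < k)
  set d := k / 20 with hd
  set Γ : Finset (Fin 4 → ℕ) := ((range k ×ˢ (range k ×ˢ range k)).image
    (fun t => ![t.1, t.2.1, t.2.2, k - 1 - t.1 - t.2.1 - t.2.2])).filter
      (fun g => (∀ j, d ≤ g j) ∧ ∑ j, g j = k - 1) with hΓ
  have hcard : Γ.card ≤ k * (k * k) := by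
    refine (card_filter_le _ _).trans (card_image_le.trans ?_)
    rw [card_product, card_product, card_range]
  have h1 : treeProb k (fun T => FourSplit T d) ≤
      treeProb k (fun T => ∃ x, ∃ P : Fin k → Fin 4, Separated T x P ∧ sizes x P ∈ Γ) := by
    apply treeProb_mono
    rintro T hT ⟨x, P, hP, hsz⟩
    refine ⟨x, P, hP, ?_⟩
    have h3 := sum_sizes x P
    rw [Fintype.card_fin] at h3
    rw [hΓ, mem_filter]
    refine ⟨?_, hsz, h3⟩
    rw [Fin.sum_univ_four] at h3
    rw [mem_image]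
    refine ⟨(sizes x P 0, sizes x P 1, sizes x P 2), ?_, ?_⟩
    · simp only [mem_product, mem_range]
      refine ⟨?_, ?_, ?_⟩ <;> omega
    · funext j
      fin_cases j
      · rfl
      · rfl
      · rfl
      · change k - 1 - sizes x P 0 - sizes x P 1 - sizes x P 2 = sizes x P 3
        omega
  refine h1.trans ((treeProb_split_le k (by omega) Γ ?_).trans ?_)
  · intro g hg
    rw [hΓ, mem_filter] at hg
    exact ⟨fun j => le_trans (by omega) (hg.2.1 j), hg.2.2⟩
  · set B : ℝ := ((40 : ℕ) * Real.sqrt (40 : ℕ)) / (k * Real.sqrt k) with hB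
    have hB0 : 0 ≤ B := by positivity
    have hterm : ∀ g ∈ Γ, ∏ j, r32 (g j) ≤ B ^ 4 := by
      intro g hg
      rw [hΓ, mem_filter] at hg
      calc ∏ j, r32 (g j) ≤ ∏ _j : Fin 4, B := by
            apply prod_le_prod (fun j _ => r32_nonneg _)
            intro j _
            apply r32_le_of 40 (g j) k (by omega)
            have := hg.2.1 j
            omega
        _ = B ^ 4 := by simp
    have hB4 : B ^ 4 = 40 ^ 6 / (k : ℝ) ^ 6 := by
      rw [hB, div_pow, mul_pow, mul_pow]
      have e1 : Real.sqrt ((40 : ℕ) : ℝ) ^ 4 = 40 ^ 2 := by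
        have : Real.sqrt ((40 : ℕ) : ℝ) ^ 2 = 40 := by
          rw [Real.sq_sqrt (by positivity)]; norm_num
        calc Real.sqrt ((40 : ℕ) : ℝ) ^ 4 = (Real.sqrt ((40 : ℕ) : ℝ) ^ 2) ^ 2 := by ring
          _ = 40 ^ 2 := by rw [this]
      have e2 : Real.sqrt (k : ℝ) ^ 4 = (k : ℝ) ^ 2 := by
        calc Real.sqrt (k : ℝ) ^ 4 = (Real.sqrt (k : ℝ) ^ 2) ^ 2 := by ring
          _ = (k : ℝ) ^ 2 := by rw [Real.sq_sqrt hk0.le]
      rw [e1, e2]
      push_cast
      ring
    have hsum : ∑ g ∈ Γ, ∏ j, r32 (g j) ≤ (k : ℝ) ^ 3 * (40 ^ 6 / (k : ℝ) ^ 6) := by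
      calc ∑ g ∈ Γ, ∏ j, r32 (g j) ≤ ∑ _g ∈ Γ, B ^ 4 := sum_le_sum hterm
        _ = Γ.card * B ^ 4 := by rw [sum_const, nsmul_eq_mul]
        _ ≤ ((k * (k * k) : ℕ) : ℝ) * B ^ 4 := by
            apply mul_le_mul_of_nonneg_right _ (by positivity)
            exact_mod_cast hcard
        _ = _ := by rw [hB4]; push_cast; ring
    have hsq : Real.sqrt (k : ℝ) * Real.sqrt k = k := Real.mul_self_sqrt hk0.le
    have hsq0 : 0 < Real.sqrt (k : ℝ) := Real.sqrt_pos.mpr hk0
    calc (2 : ℝ) ^ Fintype.card (Fin 4) * ((k : ℝ) ^ 2 * Real.sqrt k) * ∑ g ∈ Γ, ∏ j, r32 (g j)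
        ≤ 16 * ((k : ℝ) ^ 2 * Real.sqrt k) * ((k : ℝ) ^ 3 * (40 ^ 6 / (k : ℝ) ^ 6)) := by
          rw [Fintype.card_fin]
          norm_num only
          apply mul_le_mul_of_nonneg_left _ (by positivity)
          norm_num only at hsum
          exact hsum
      _ = 16 * 40 ^ 6 * (Real.sqrt k / k) := by field_simp
      _ = 16 * 40 ^ 6 * (1 / Real.sqrt k) := by
          congr 1
          rw [div_eq_div_iff hk0.ne' hsq0.ne', one_mul, hsq]
      _ = _ := by ring

/-- The anticoncentration estimate. -/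
theorem prob_window (k L w : ℕ) (hk : 100 ≤ k) :
    treeProb k (fun T => ¬ FourSplit T (k / 20) ∧ L ≤ cen T ∧ cen T ≤ L + w) ≤
      200000 * Real.sqrt (w + 1 : ℕ) / Real.sqrt k := by
  have hk0 : (0 : ℝ) < k := by exact_mod_cast (by omega : 0 < k)
  have hne : Nonempty (Fin k) := ⟨⟨0, by omega⟩⟩
  set h := (k - 1) / 2 with hh
  -- the possible values below `h`
  set I := (Icc L (L + w)).filter (fun m => k ≤ 8 * m ∧ m < h) with hI
  have hmono : treeProb k (fun T => ¬ FourSplit T (k / 20) ∧ L ≤ cen T ∧ cen T ≤ L + w)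
      ≤ treeProb k (fun T => (∃ m ∈ I, cen T = m) ∨ (∃ m ∈ Icc h (k / 2), cen T = m)) := by
    apply treeProb_mono
    rintro T hT ⟨hns, h1, h2⟩
    have h3 := two_mul_cen_le hT
    rw [Fintype.card_fin] at h3
    have h4 : k ≤ 8 * cen T := by
      by_contra hc
      apply hns
      obtain ⟨c, hc'⟩ := exists_cen T
      apply fourSplit_of_br hT c
      rw [Fintype.card_fin, hc']
      omega
    by_cases h5 : cen T < h
    · left
      refine ⟨cen T, ?_, rfl⟩
      rw [hI, mem_filter, mem_Icc]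
      exact ⟨⟨h1, h2⟩, h4, h5⟩
    · right
      refine ⟨cen T, ?_, rfl⟩
      rw [mem_Icc]
      omega
  refine hmono.trans ((treeProb_or k _ _).trans ?_)
  have hA : treeProb k (fun T => ∃ m ∈ I, cen T = m) ≤
      32768 / Real.sqrt k * (3 * Real.sqrt (w + 1 : ℕ)) := by
    refine (treeProb_union k I (fun m T => cen T = m)).trans ?_
    calc ∑ m ∈ I, treeProb k (fun T => cen T = m)
        ≤ ∑ m ∈ I, 32768 / Real.sqrt k * (1 / Real.sqrt ((h - m : ℕ) : ℝ)) := by
          refine sum_le_sum fun m hm => ?_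
          rw [hI, mem_filter] at hm
          exact prob_three k m (by omega) hm.2.1 hm.2.2
      _ = 32768 / Real.sqrt k * ∑ s ∈ I.image (fun m => h - m), 1 / Real.sqrt (s : ℝ) := by
          rw [← mul_sum, sum_image]
          intro a ha b hb hab
          rw [mem_coe, hI, mem_filter] at ha hb
          simp only at hab
          omega
      _ ≤ 32768 / Real.sqrt k * (3 * Real.sqrt (I.image (fun m => h - m)).card) := by
          apply mul_le_mul_of_nonneg_left _ (by positivity)
          apply sum_inv_sqrt_le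
          intro s hs
          rw [mem_image] at hs
          obtain ⟨m, hm, rfl⟩ := hs
          rw [hI, mem_filter] at hm
          omega
      _ ≤ 32768 / Real.sqrt k * (3 * Real.sqrt (w + 1 : ℕ)) := by
          apply mul_le_mul_of_nonneg_left _ (by positivity)
          apply mul_le_mul_of_nonneg_left _ (by norm_num)
          apply Real.sqrt_le_sqrt
          have : (I.image (fun m => h - m)).card ≤ w + 1 := by
            refine card_image_le.trans ((card_filter_le _ _).trans ?_)
            rw [Nat.card_Icc]; omega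
          exact_mod_cast this
  have hB : treeProb k (fun T => ∃ m ∈ Icc h (k / 2), cen T = m) ≤ 2 * (2048 / Real.sqrt k) := by
    refine (treeProb_union k (Icc h (k / 2)) (fun m T => cen T = m)).trans ?_
    calc ∑ m ∈ Icc h (k / 2), treeProb k (fun T => cen T = m)
        ≤ ∑ m ∈ Icc h (k / 2), 2048 / Real.sqrt k := by
          refine sum_le_sum fun m hm => ?_
          rw [mem_Icc] at hm
          exact prob_two k m (by omega) (by omega) (by omega)
      _ = (Icc h (k / 2)).card * (2048 / Real.sqrt k) := by rw [sum_const, nsmul_eq_mul]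
      _ ≤ 2 * (2048 / Real.sqrt k) := by
          apply mul_le_mul_of_nonneg_right _ (by positivity)
          have : (Icc h (k / 2)).card ≤ 2 := by rw [Nat.card_Icc]; omega
          exact_mod_cast this
  have hw1 : (1 : ℝ) ≤ Real.sqrt (w + 1 : ℕ) := by
    rw [show (1 : ℝ) = Real.sqrt 1 by simp]
    apply Real.sqrt_le_sqrt
    push_cast; linarith [Nat.cast_nonneg (α := ℝ) w]
  have hsk : 0 < Real.sqrt (k : ℝ) := Real.sqrt_pos.mpr hk0
  calc _ ≤ 32768 / Real.sqrt k * (3 * Real.sqrt (w + 1 : ℕ)) + 2 * (2048 / Real.sqrt k) := add_le_add hA hB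
    _ = (98304 * Real.sqrt (w + 1 : ℕ) + 4096) / Real.sqrt k := by ring
    _ ≤ _ := by
        apply div_le_div_of_nonneg_right _ hsk.le
        linarith

end Pool.Agent.MP_b12932_pr
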