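import Mathlib

/-!
# Preferential attachment from a seed tree and the seed distance: definitions
-/

set_option autoImplicit false

open Finset Filter Topology

namespace Pool.Agent.MP_b12932_pr

open SimpleGraph Classical

/-- Attach a new vertex (the last one) to the vertex `v` of `G`. -/
def attach {n : ℕ} (G : SimpleGraph (Fin n)) (v : Fin n) : SimpleGraph (Fin (n + 1)) :=
  G.map Fin.castSuccEmb ⊔ SimpleGraph.edge v.castSucc (Fin.last n)

/-- The law of the preferential attachment tree `PA(k+j, T)` on labelled graphs (the vertices of the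
seed are `0, …, k-1`, the later vertices are numbered by order of arrival): `paLaw T j G` is the
probability that `PA(k+j, T) = G`.  In the step from `n = k+j` to `n+1` vertices the new vertex is
attached to `v` with probability `deg v / (2(n-1))`. -/
noncomputable def paLaw {k : ℕ} (T : SimpleGraph (Fin k)) :
    (j : ℕ) → SimpleGraph (Fin (k + j)) → ℝ
  | 0, G => if G = T then 1 else 0
  | j + 1, G' => ∑ G : SimpleGraph (Fin (k + j)), ∑ v : Fin (k + j),
      if attach G v = G' then paLaw T j G * ((G.degree v : ℝ) / (2 * (((k + j : ℕ) : ℝ) - 1))) else 0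

/-- isomorphism of graphs on `Fin n` -/
def isoSetoid (n : ℕ) : Setoid (SimpleGraph (Fin n)) where
  r G H := Nonempty (G ≃g H)
  iseqv := ⟨fun _ => ⟨Iso.refl⟩, fun ⟨e⟩ => ⟨e.symm⟩, fun ⟨e⟩ ⟨f⟩ => ⟨e.trans f⟩⟩

/-- unlabelled graphs on `n` vertices: isomorphism classes of graphs on `Fin n` -/
abbrev Unlabelled (n : ℕ) : Type := Quotient (isoSetoid n)

noncomputable instance (n : ℕ) : Fintype (Unlabelled n) := Fintype.ofFinite _

/-- The law of `PA(k+j, T)` regarded as an unlabelled tree: the probability of the isomorphism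
class `q`. -/
noncomputable def paIso {k : ℕ} (T : SimpleGraph (Fin k)) (j : ℕ) (q : Unlabelled (k + j)) : ℝ :=
  ∑ G : SimpleGraph (Fin (k + j)), if Quotient.mk (isoSetoid (k + j)) G = q then paLaw T j G else 0

/-- The total variation distance between the laws of the unlabelled trees `PA(k+j, S)` and
`PA(k+j, T)`. -/
noncomputable def paTV {k : ℕ} (S T : SimpleGraph (Fin k)) (j : ℕ) : ℝ :=
  (1 / 2) * ∑ q : Unlabelled (k + j), |paIso S j q - paIso T j q|

/-- The seed distance `δ(S,T) = lim_n TV(PA(n,S), PA(n,T))`. -/
noncomputable def seedDist {k : ℕ} (S T : SimpleGraph (Fin k)) : ℝ := limUnder atTop (paTV S T)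

/-- The labelled trees on the `k` vertices `0, …, k-1`. -/
noncomputable def trees (k : ℕ) : Finset (SimpleGraph (Fin k)) :=
  univ.filter (fun G : SimpleGraph (Fin k) => G.IsTree)

/-- `E δ(T_k, R_k)` for two independent uniformly random labelled trees on `k` vertices. -/
noncomputable def expSeedDist (k : ℕ) : ℝ :=
  (∑ S ∈ trees k, ∑ T ∈ trees k, seedDist S T) / ((trees k).card : ℝ) ^ 2

end Pool.Agent.MP_b12932_pr
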