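import Pool.Agent.Lib.MP_b12932_pr.AntiConc
import Pool.Agent.Lib.MP_b12932_pr.Defs

/-!
# Attaching a leaf to a tree, and the graphs obtained by repeated attachment
-/

set_option autoImplicit false

open Finset

namespace Pool.Agent.MP_b12932_pr

open SimpleGraph Classical

variable {n : ℕ} {G : SimpleGraph (Fin n)} {v : Fin n}

@[simp] lemma attach_adj_castSucc {a b : Fin n} :
    (attach G v).Adj a.castSucc b.castSucc ↔ G.Adj a b := by
  unfold attach
  rw [sup_adj, edge_adj]
  constructor
  · rintro (h | h)
    · rw [map_adj] at h
      obtain ⟨x, y, hxy, hx, hy⟩ := h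
      have e1 : x = a := Fin.castSucc_injective n hx
      have e2 : y = b := Fin.castSucc_injective n hy
      rwa [← e1, ← e2]
    · exfalso
      rcases h.1 with ⟨_, h⟩ | ⟨h, _⟩
      · exact (Fin.castSucc_lt_last b).ne h
      · exact (Fin.castSucc_lt_last a).ne h
  · intro h
    left
    rw [map_adj]
    exact ⟨a, b, h, rfl, rfl⟩

@[simp] lemma attach_adj_last {a : Fin n} : (attach G v).Adj a.castSucc (Fin.last n) ↔ a = v := by
  unfold attach
  rw [sup_adj, edge_adj]
  constructor
  · rintro (h | h)
    · rw [map_adj] at h
      obtain ⟨x, y, hxy, hx, hy⟩ := h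
      exact absurd hy (Fin.castSucc_lt_last y).ne
    · rcases h.1 with ⟨h, _⟩ | ⟨h, _⟩
      · exact Fin.castSucc_injective n h
      · exact absurd h (Fin.castSucc_lt_last a).ne
  · rintro rfl
    right
    exact ⟨Or.inl ⟨rfl, rfl⟩, (Fin.castSucc_lt_last a).ne⟩

@[simp] lemma attach_adj_last' {a : Fin n} : (attach G v).Adj (Fin.last n) a.castSucc ↔ a = v := by
  rw [adj_comm, attach_adj_last]

/-- inclusion of the old graph in the new one -/
def attachHom (G : SimpleGraph (Fin n)) (v : Fin n) : G →g attach G v where
  toFun := Fin.castSucc
  map_rel' h := attach_adj_castSucc.mpr h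

lemma attach_connected (hG : G.Connected) : (attach G v).Connected := by
  have hr : ∀ x, (attach G v).Reachable x v.castSucc := by
    intro x
    induction x using Fin.lastCases with
    | last => exact (attach_adj_last'.mpr rfl : (attach G v).Adj _ _).reachable
    | cast a => exact (hG a v).map (attachHom G v)
  have : Nonempty (Fin (n + 1)) := ⟨Fin.last n⟩
  exact ⟨fun x y => (hr x).trans (hr y).symm⟩

lemma dist_attach_le {a b : Fin n} (hG : G.Connected) :
    (attach G v).dist a.castSucc b.castSucc ≤ G.dist a b := by
  obtain ⟨p, hp⟩ := hG.exists_walk_length_eq_dist a b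
  rw [← hp]
  have := dist_le (p.map (attachHom G v))
  rw [Walk.length_map] at this
  exact this

/-- distances in the new graph -/
lemma dist_attach_aux (hG : G.Connected) (a : Fin n) (x : Fin (n + 1)) :
    (Fin.lastCases (G.dist a v + 1) (fun b => G.dist a b) x : ℕ) ≤
      (attach G v).dist a.castSucc x := by
  set φ : Fin (n + 1) → ℕ := fun x => Fin.lastCases (G.dist a v + 1) (fun b => G.dist a b) x with hφ
  have h1 : ∀ b : Fin n, φ b.castSucc = G.dist a b := fun b => by simp [hφ]
  have h2 : φ (Fin.last n) = G.dist a v + 1 := by simp [hφ]
  have hstep : ∀ x y, (attach G v).Adj x y → φ y ≤ φ x + 1 := by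
    intro x y hxy
    induction x using Fin.lastCases with
    | last =>
      induction y using Fin.lastCases with
      | last => exact absurd hxy ((attach G v).loopless.irrefl _)
      | cast b =>
        rw [attach_adj_last'] at hxy
        subst hxy
        rw [h1, h2]; omega
    | cast c =>
      induction y using Fin.lastCases with
      | last =>
        rw [attach_adj_last] at hxy
        subst hxy
        rw [h1, h2]
      | cast b =>
        rw [attach_adj_castSucc] at hxy
        rw [h1, h1]
        have : G.dist a b ≤ G.dist a c + G.dist c b := hG.dist_triangle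
        rw [dist_eq_one_iff_adj.mpr hxy] at this
        exact this
  have key : ∀ (x y : Fin (n + 1)) (p : (attach G v).Walk x y), φ y ≤ φ x + p.length := by
    intro x y p
    induction p with
    | nil => simp
    | cons h p ih =>
      rw [Walk.length_cons]
      have := hstep _ _ h
      omega
  obtain ⟨p, hp⟩ := (attach_connected (v := v) hG).exists_walk_length_eq_dist a.castSucc x
  have := key _ _ p
  rw [h1, SimpleGraph.dist_self, hp, zero_add] at this
  exact this

lemma dist_attach (hG : G.Connected) (a b : Fin n) :
    (attach G v).dist a.castSucc b.castSucc = G.dist a b := by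
  apply le_antisymm (dist_attach_le hG)
  have := dist_attach_aux (v := v) hG a b.castSucc
  simpa using this

lemma dist_attach_last (hG : G.Connected) (a : Fin n) :
    (attach G v).dist a.castSucc (Fin.last n) = G.dist a v + 1 := by
  apply le_antisymm
  · have h1 : (attach G v).dist a.castSucc (Fin.last n) ≤
        (attach G v).dist a.castSucc v.castSucc + (attach G v).dist v.castSucc (Fin.last n) :=
      (attach_connected (v := v) hG).dist_triangle
    rw [dist_attach hG, dist_eq_one_iff_adj.mpr (attach_adj_last.mpr rfl)] at h1
    exact h1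
  · have := dist_attach_aux (v := v) hG a (Fin.last n)
    simpa using this

lemma onSide_attach (hG : G.Connected) {a b w : Fin n} :
    OnSide (attach G v) a.castSucc b.castSucc w.castSucc ↔ OnSide G a b w := by
  unfold OnSide
  rw [dist_attach hG, dist_attach hG]

lemma onSide_attach_last (hG : G.Connected) {a b : Fin n} :
    OnSide (attach G v) a.castSucc b.castSucc (Fin.last n) ↔ OnSide G a b v := by
  unfold OnSide
  rw [SimpleGraph.dist_comm (u := Fin.last n) (v := a.castSucc),
    SimpleGraph.dist_comm (u := Fin.last n) (v := b.castSucc),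
    dist_attach_last hG, dist_attach_last hG, SimpleGraph.dist_comm (u := a),
    SimpleGraph.dist_comm (u := b)]
  omega

lemma degree_eq_sum {V : Type} [Fintype V] (G : SimpleGraph V) (w : V) :
    G.degree w = ∑ x, if G.Adj w x then 1 else 0 := by
  rw [← card_neighborFinset_eq_degree, card_eq_sum_ones, neighborFinset_eq_filter, sum_filter]

lemma degree_attach (w : Fin n) :
    (attach G v).degree w.castSucc = G.degree w + if w = v then 1 else 0 := by
  rw [degree_eq_sum, degree_eq_sum, Fin.sum_univ_castSucc]
  simp only [attach_adj_castSucc, attach_adj_last]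

lemma degree_attach_last : (attach G v).degree (Fin.last n) = 1 := by
  rw [degree_eq_sum, Fin.sum_univ_castSucc]
  simp only [attach_adj_last', SimpleGraph.irrefl, if_false, add_zero]
  simp

/-- the sum of the degrees over the vertices with a given property -/
lemma degSum_attach {J : Type} (f : Fin n → J) (f' : Fin (n + 1) → J) (hf : ∀ w, f' w.castSucc = f w)
    (hl : f' (Fin.last n) = f v) (a : J) :
    degSum (attach G v) (univ.filter (fun w => f' w = a)) =
      degSum G (univ.filter (fun w => f w = a)) + if f v = a then 2 else 0 := by
  unfold degSum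
  rw [sum_filter, sum_filter, Fin.sum_univ_castSucc, hl, degree_attach_last]
  have : ∀ w, (if f' (Fin.castSucc w) = a then (attach G v).degree w.castSucc else 0) =
      (if f w = a then G.degree w else 0) + (if w = v then (if f v = a then 1 else 0) else 0) := by
    intro w
    rw [hf, degree_attach]
    by_cases h : w = v
    · subst h; split_ifs <;> simp
    · simp [h]
  rw [sum_congr rfl (fun w _ => this w), sum_add_distrib, add_assoc]
  congr 1
  rw [sum_ite_eq' univ v]
  simp only [mem_univ, if_true]
  split_ifs <;> rfl

lemma degSum_attach_univ : degSum (attach G v) univ = degSum G univ + 2 := by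
  unfold degSum
  rw [Fin.sum_univ_castSucc, degree_attach_last]
  simp only [degree_attach, sum_add_distrib]
  rw [sum_ite_eq' univ v]
  simp

lemma attach_isTree (hG : G.IsTree) : (attach G v).IsTree := by
  rw [isTree_iff_connected_and_card]
  refine ⟨attach_connected hG.connected, ?_⟩
  have h1 := (isTree_iff_connected_and_card.mp hG).2
  have h2 := degSum_attach_univ (G := G) (v := v)
  unfold degSum at h2
  rw [sum_degrees_eq_twice_card_edges, sum_degrees_eq_twice_card_edges] at h2
  rw [Nat.card_eq_fintype_card, ← edgeFinset_card, Nat.card_eq_fintype_card, Fintype.card_fin] at *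
  omega

/-- `Grown T j G` says that `G` arises from `T` by attaching `j` leaves successively. -/
inductive Grown {k : ℕ} (T : SimpleGraph (Fin k)) : (j : ℕ) → SimpleGraph (Fin (k + j)) → Prop
  | zero : Grown T 0 T
  | succ (j : ℕ) (G : SimpleGraph (Fin (k + j))) (v : Fin (k + j)) :
      Grown T j G → Grown T (j + 1) (attach G v)

variable {k : ℕ} {T : SimpleGraph (Fin k)}

lemma Grown.isTree (hT : T.IsTree) {j : ℕ} {G : SimpleGraph (Fin (k + j))} (h : Grown T j G) :
    G.IsTree := by
  induction h with
  | zero => exact hT
  | succ j G v _ ih => exact attach_isTree ih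

lemma Grown.adj {j : ℕ} {G : SimpleGraph (Fin (k + j))} (h : Grown T j G) (a b : Fin k) :
    G.Adj (Fin.castAdd j a) (Fin.castAdd j b) ↔ T.Adj a b := by
  induction h with
  | zero => exact Iff.rfl
  | succ j G v _ ih =>
    rw [← ih]
    exact attach_adj_castSucc (a := Fin.castAdd j a) (b := Fin.castAdd j b)

end Pool.Agent.MP_b12932_pr
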