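import Pool.Agent.Lib.MP_b12932_pr.TreeBasic

/-!
# Trees and parent maps; Cayley's formula; trees with a prescribed separation
-/

set_option autoImplicit false

open Finset

namespace Pool.Agent.MP_b12932_pr

open SimpleGraph Classical

variable {V : Type}

/-- parent map of a graph with respect to the root `r`. -/
noncomputable def par (G : SimpleGraph V) (r v : V) : V :=
  if h : ∃ y, G.Adj v y ∧ G.dist r y + 1 = G.dist r v then h.choose else v

/-- graph of a map -/
def fgraph (f : V → V) : SimpleGraph V where
  Adj a b := a ≠ b ∧ (f a = b ∨ f b = a)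
  symm := ⟨fun _ _ h => ⟨h.1.symm, h.2.symm⟩⟩
  loopless := ⟨fun _ h => h.1 rfl⟩

lemma par_root (G : SimpleGraph V) (r : V) : par G r r = r := by
  unfold par
  rw [dif_neg]
  rintro ⟨y, _, h⟩
  rw [SimpleGraph.dist_self] at h
  omega

lemma par_spec {G : SimpleGraph V} (hG : G.Connected) {r v : V} (hv : r ≠ v) :
    G.Adj v (par G r v) ∧ G.dist r (par G r v) + 1 = G.dist r v := by
  have h := exists_closer hG (x := v) (w := r) hv
  unfold par
  rw [dif_pos h]
  exact h.choose_spec

lemma par_isForest {G : SimpleGraph V} (hG : G.Connected) (r : V) :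
    IsForest {r} (par G r) := by
  refine ⟨?_, ?_⟩
  · intro s hs
    rw [mem_singleton] at hs
    rw [hs]; exact par_root G r
  · have key : ∀ n : ℕ, ∀ v, G.dist r v = n → (par G r)^[n] v ∈ ({r} : Finset V) := by
      intro n
      induction n with
      | zero =>
        intro v hv
        rcases dist_eq_zero_iff_eq_or_not_reachable.mp hv with h | h
        · simp [h]
        · exact absurd (hG r v) h
      | succ n ih =>
        intro v hv
        have hne : r ≠ v := by
          intro e
          rw [e, SimpleGraph.dist_self] at hv
          omega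
        rw [Function.iterate_succ_apply]
        apply ih
        have := (par_spec hG hne).2
        omega
    exact fun v => ⟨_, key _ v rfl⟩

lemma fgraph_par {G : SimpleGraph V} (hG : G.IsTree) (r : V) : fgraph (par G r) = G := by
  ext a b
  constructor
  · rintro ⟨hne, h | h⟩
    · have hra : r ≠ a := by
        rintro rfl
        rw [par_root] at h
        exact hne h
      have := (par_spec hG.connected hra).1
      rwa [h] at this
    · have hrb : r ≠ b := by
        rintro rfl
        rw [par_root] at h
        exact hne h.symm
      have := (par_spec hG.connected hrb).1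
      rw [h] at this
      exact this.symm
  · intro hadj
    refine ⟨hadj.ne, ?_⟩
    rcases hG.dist_eq_dist_add_one_of_adj r hadj with h | h
    · left
      have hra : r ≠ a := by
        rintro rfl
        rw [SimpleGraph.dist_self] at h
        omega
      obtain ⟨h1, h2⟩ := par_spec hG.connected hra
      exact closer_unique hG h1 hadj h2 h.symm
    · right
      have hrb : r ≠ b := by
        rintro rfl
        rw [SimpleGraph.dist_self] at h
        omega
      obtain ⟨h1, h2⟩ := par_spec hG.connected hrb
      exact closer_unique hG h1 hadj.symm h2 h.symm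

section forest

variable {R : Finset V} {f : V → V}

lemma IsForest.no_two_cycle (hf : IsForest R f) {a : V} (ha : a ∉ R) (hb : f a ∉ R) :
    f (f a) ≠ a := by
  intro h
  have key : ∀ n : ℕ, f^[n] a ∉ R ∧ f^[n] (f a) ∉ R := by
    intro n
    induction n with
    | zero => exact ⟨ha, hb⟩
    | succ n ih =>
      rw [Function.iterate_succ_apply, Function.iterate_succ_apply, h]
      exact ⟨ih.2, ih.1⟩
  obtain ⟨n, hn⟩ := hf.2 a
  exact (key n).1 hn

lemma IsForest.ne_self (hf : IsForest R f) {a : V} (ha : a ∉ R) : f a ≠ a := by
  intro h
  exact hf.no_two_cycle ha (by rwa [h]) (by rw [h, h])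

end forest

lemma fgraph_connected {f : V → V} {r : V} (hf : IsForest {r} f) : (fgraph f).Connected := by
  have key : ∀ v, ∀ n : ℕ, (fgraph f).Reachable v (f^[n] v) := by
    intro v n
    induction n with
    | zero => exact Reachable.refl _
    | succ n ih =>
      refine ih.trans ?_
      rw [Function.iterate_succ_apply']
      by_cases h : f^[n] v = f (f^[n] v)
      · rw [← h]
      · exact Adj.reachable ⟨h, Or.inl rfl⟩
  have key2 : ∀ v, (fgraph f).Reachable v r := by
    intro v
    obtain ⟨n, hn⟩ := hf.2 v
    rw [mem_singleton] at hn
    have := key v n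
    rwa [hn] at this
  have : Nonempty V := ⟨r⟩
  exact ⟨fun a b => (key2 a).trans (key2 b).symm⟩

lemma fgraph_isTree [Fintype V] {f : V → V} {r : V} (hf : IsForest {r} f) :
    (fgraph f).IsTree := by
  rw [isTree_iff_connected_and_card]
  have hc := fgraph_connected hf
  refine ⟨hc, le_antisymm ?_ hc.card_vert_le_card_edgeSet_add_one⟩
  have hsub : (fgraph f).edgeFinset ⊆ (univ.erase r).image (fun v => s(v, f v)) := by
    intro e he
    induction e using Sym2.ind with
    | _ a b =>
      rw [mem_edgeFinset, mem_edgeSet] at he
      obtain ⟨hne, h | h⟩ := he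
      · rw [mem_image]
        refine ⟨a, ?_, by rw [h]⟩
        rw [mem_erase]
        refine ⟨?_, mem_univ _⟩
        rintro rfl
        exact hne ((hf.1 a (by simp)).symm.trans h)
      · rw [mem_image]
        refine ⟨b, ?_, by rw [h, Sym2.eq_swap]⟩
        rw [mem_erase]
        refine ⟨?_, mem_univ _⟩
        rintro rfl
        exact hne (h.symm.trans (hf.1 b (by simp)))
  have h1 : (fgraph f).edgeFinset.card ≤ Fintype.card V - 1 := by
    calc (fgraph f).edgeFinset.card ≤ ((univ.erase r).image (fun v => s(v, f v))).card := card_le_card hsub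
      _ ≤ (univ.erase r).card := card_image_le
      _ = Fintype.card V - 1 := by rw [card_erase_of_mem (mem_univ _), card_univ]
  have hpos : 0 < Fintype.card V := Fintype.card_pos_iff.mpr ⟨r⟩
  rw [Nat.card_eq_fintype_card, Nat.card_eq_fintype_card, ← edgeFinset_card]
  omega

lemma fgraph_injective {f g : V → V} {r : V} (hf : IsForest {r} f) (hg : IsForest {r} g)
    (h : fgraph f = fgraph g) : f = g := by
  funext v
  by_cases hv : v = r
  · subst hv
    rw [hf.1 v (by simp), hg.1 v (by simp)]
  · by_contra hne
    have hadj : ∀ a, a ≠ r → g a = f a ∨ g (f a) = a := by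
      intro a ha
      have : (fgraph f).Adj a (f a) := ⟨(hf.ne_self (by simpa using ha)).symm, Or.inl rfl⟩
      rw [h] at this
      exact this.2
    have key : ∀ i : ℕ, f^[i] v ≠ r ∧ g (f^[i+1] v) = f^[i] v := by
      intro i
      induction i with
      | zero =>
        refine ⟨hv, ?_⟩
        rcases hadj v hv with h1 | h1
        · exact absurd h1.symm hne
        · exact h1
      | succ i ih =>
        obtain ⟨h1, h2⟩ := ih
        have hb : f^[i+1] v ≠ r := by
          intro e
          rw [e, hg.1 r (by simp)] at h2
          exact h1 h2.symm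
        refine ⟨hb, ?_⟩
        rw [Function.iterate_succ_apply']
        rcases hadj _ hb with h3 | h3
        · exfalso
          have e : f (f^[i] v) = f^[i+1] v := (Function.iterate_succ_apply' f i v).symm
          apply hf.no_two_cycle (a := f^[i] v) (by simpa using h1) (by rw [e]; simpa using hb)
          rw [e, ← h3, h2]
        · exact h3
    obtain ⟨n, hn⟩ := hf.2 v
    exact (key n).1 (by simpa using hn)

/-- **Cayley's formula** -/
theorem card_trees [Fintype V] [Nonempty V] :
    Nat.card {G : SimpleGraph V // G.IsTree} = Fintype.card V ^ (Fintype.card V - 2) := by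
  obtain ⟨r⟩ := ‹Nonempty V›
  rw [← forestCount_singleton r]
  unfold forestCount
  apply Nat.card_congr
  refine Equiv.ofBijective (fun G => ⟨par G.1 r, par_isForest G.2.connected r⟩) ⟨?_, ?_⟩
  · intro G G' h
    have h' : par G.1 r = par G'.1 r := congrArg Subtype.val h
    apply Subtype.ext
    rw [← fgraph_par G.2 r, ← fgraph_par G'.2 r, h']
  · intro f
    refine ⟨⟨fgraph f.1, fgraph_isTree f.2⟩, ?_⟩
    apply Subtype.ext
    apply fgraph_injective (par_isForest (fgraph_isTree f.2).connected r) f.2
    exact fgraph_par (fgraph_isTree f.2) r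

/-- `P` is a colouring of the vertices such that no edge avoiding `x` joins different colours. -/
def Separated {J : Type} (G : SimpleGraph V) (x : V) (P : V → J) : Prop :=
  ∀ a b, G.Adj a b → a ≠ x → b ≠ x → P a = P b

/-- The number of trees separated at `x` by a given colouring. -/
theorem card_separated_le [Fintype V] {J : Type} [Fintype J] (x : V) (P : V → J) :
    Nat.card {G : SimpleGraph V // G.IsTree ∧ Separated G x P} ≤
      ∏ j : J, ((univ.filter (fun v => v ≠ x ∧ P v = j)).card + 1) ^
        ((univ.filter (fun v => v ≠ x ∧ P v = j)).card - 1) := by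
  -- the pieces
  let W : J → Type := fun j => {v : V // v = x ∨ P v = j}
  have hW : ∀ j, Fintype.card (W j) = (univ.filter (fun v => v ≠ x ∧ P v = j)).card + 1 := by
    intro j
    rw [Fintype.card_subtype]
    have : univ.filter (fun v => v = x ∨ P v = j)
        = insert x (univ.filter (fun v => v ≠ x ∧ P v = j)) := by
      ext v
      by_cases hv : v = x <;> simp [hv]
    rw [this, card_insert_of_notMem (by simp)]
  let root : ∀ j, W j := fun j => ⟨x, Or.inl rfl⟩
  have hmaps : ∀ G : SimpleGraph V, G.IsTree → Separated G x P → ∀ v, v ≠ x →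
      par G x v = x ∨ P (par G x v) = P v := by
    intro G hG hs v hv
    by_cases h : par G x v = x
    · exact Or.inl h
    · exact Or.inr (hs v (par G x v) (par_spec hG.connected (Ne.symm hv)).1 hv h).symm
  have hclosed : ∀ G : SimpleGraph V, G.IsTree → Separated G x P → ∀ (j : J) (v : V),
      (v = x ∨ P v = j) → (par G x v = x ∨ P (par G x v) = j) := by
    intro G hG hs j v hv
    by_cases hvx : v = x
    · left; rw [hvx]; exact par_root _ _
    · rcases hv with hv | hv
      · exact absurd hv hvx
      · rcases hmaps G hG hs v hvx with h | h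
        · exact Or.inl h
        · exact Or.inr (h.trans hv)
  let F0 : ∀ (G : {G : SimpleGraph V // G.IsTree ∧ Separated G x P}) (j : J), W j → W j :=
    fun G j w => ⟨par G.1 x w.1, hclosed G.1 G.2.1 G.2.2 j w.1 w.2⟩
  have hF0 : ∀ (G : {G : SimpleGraph V // G.IsTree ∧ Separated G x P}) (j : J) (m : ℕ) (w : W j),
      ((F0 G j)^[m] w).1 = (par G.1 x)^[m] w.1 := by
    intro G j m
    induction m with
    | zero => intro w; rfl
    | succ m ih => intro w; rw [Function.iterate_succ_apply, Function.iterate_succ_apply, ih]
  let F : {G : SimpleGraph V // G.IsTree ∧ Separated G x P} →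
      ∀ j : J, {f : W j → W j // IsForest {root j} f} := fun G j =>
    ⟨F0 G j, by
      refine ⟨?_, ?_⟩
      · intro s hs
        rw [mem_singleton] at hs
        rw [hs]
        exact Subtype.ext (par_root _ _)
      · intro w
        obtain ⟨n, hn⟩ := (par_isForest G.2.1.connected x).2 w.1
        refine ⟨n, ?_⟩
        rw [mem_singleton] at hn ⊢
        apply Subtype.ext
        rw [hF0 G j n w, hn]⟩
  have hF : Function.Injective F := by
    intro G G' h
    apply Subtype.ext
    have hpar : par G.1 x = par G'.1 x := by
      funext v
      by_cases hv : v = x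
      · rw [hv, par_root, par_root]
      · have h1 := congrFun h (P v)
        have h2 := congrArg Subtype.val h1
        have h3 := congrFun h2 ⟨v, Or.inr rfl⟩
        exact congrArg Subtype.val h3
    rw [← fgraph_par G.2.1 x, ← fgraph_par G'.2.1 x, hpar]
  calc Nat.card {G : SimpleGraph V // G.IsTree ∧ Separated G x P}
      ≤ Nat.card (∀ j : J, {f : W j → W j // IsForest {root j} f}) :=
        Nat.card_le_card_of_injective F hF
    _ = ∏ j : J, Nat.card {f : W j → W j // IsForest {root j} f} := Nat.card_pi
    _ = _ := by
        refine prod_congr rfl fun j _ => ?_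
        have := forestCount_singleton (root j)
        unfold forestCount at this
        rw [this, hW j]
        congr 1

end Pool.Agent.MP_b12932_pr
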