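import Pool.Agent.Lib.MP_b12932_pr.Split

/-!
# The centroid branch statistic of a tree
-/

set_option autoImplicit false

open Finset

namespace Pool.Agent.MP_b12932_pr

open SimpleGraph Classical

variable {V : Type} [Fintype V]

/-- neighbours of `x` -/
noncomputable def nb (G : SimpleGraph V) (x : V) : Finset V := univ.filter (fun y => G.Adj x y)

@[simp] lemma mem_nb {G : SimpleGraph V} {x y : V} : y ∈ nb G x ↔ G.Adj x y := by simp [nb]

/-- size of the largest branch of the graph at the vertex `x` -/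
noncomputable def br (G : SimpleGraph V) (x : V) : ℕ := (nb G x).sup (fun y => (side G y x).card)

/-- the size of the largest branch at a centroid, i.e. the minimum over all vertices `x`
of the size of the largest branch at `x`. -/
noncomputable def cen (G : SimpleGraph V) : ℕ := sInf (Set.range (br G))

lemma exists_cen [Nonempty V] (G : SimpleGraph V) : ∃ c, br G c = cen G :=
  Nat.sInf_mem (Set.range_nonempty (br G))

lemma cen_le (G : SimpleGraph V) (x : V) : cen G ≤ br G x := Nat.sInf_le ⟨x, rfl⟩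

lemma le_br {G : SimpleGraph V} {x y : V} (h : G.Adj x y) : (side G y x).card ≤ br G x :=
  le_sup (f := fun y => (side G y x).card) (mem_nb.mpr h)

lemma br_le {G : SimpleGraph V} {x : V} {m : ℕ} (h : ∀ y, G.Adj x y → (side G y x).card ≤ m) :
    br G x ≤ m := Finset.sup_le fun y hy => h y (mem_nb.mp hy)

lemma exists_br {G : SimpleGraph V} {x : V} (h : ∃ y, G.Adj x y) :
    ∃ y, G.Adj x y ∧ (side G y x).card = br G x := by
  have hne : (nb G x).Nonempty := ⟨h.choose, mem_nb.mpr h.choose_spec⟩
  obtain ⟨y, hy, hye⟩ := exists_mem_eq_sup _ hne (fun y => (side G y x).card)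
  exact ⟨y, mem_nb.mp hy, hye.symm⟩

lemma min_side_le_cen [Nonempty V] {G : SimpleGraph V} (hG : G.IsTree) {u v : V} (h : G.Adj u v) :
    min (side G u v).card (side G v u).card ≤ cen G := by
  obtain ⟨x, hx⟩ := exists_cen G
  rw [← hx]
  by_cases hs : OnSide G u v x
  · have hs' : ¬ OnSide G v u x := by
      rw [not_onSide_iff hG h.symm]; exact hs
    obtain ⟨y, hy, hsub⟩ := side_subset_branch hG h.symm hs'
    refine (min_le_right _ _).trans (le_trans (card_le_card ?_) (le_br hy))
    intro w hw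
    rw [mem_side] at hw ⊢
    exact hsub w hw
  · obtain ⟨y, hy, hsub⟩ := side_subset_branch hG h hs
    refine (min_le_left _ _).trans (le_trans (card_le_card ?_) (le_br hy))
    intro w hw
    rw [mem_side] at hw ⊢
    exact hsub w hw

lemma two_mul_cen_le [Nonempty V] {G : SimpleGraph V} (hG : G.IsTree) :
    2 * cen G ≤ Fintype.card V := by
  obtain ⟨x, hx⟩ := exists_cen G
  by_cases hn : ∃ y, G.Adj x y
  · obtain ⟨y, hy, hye⟩ := exists_br hn
    by_contra hcon
    have h1 : (side G y x).card + (side G x y).card = Fintype.card V := side_card_add hG hy.symm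
    have h2 : br G y < cen G := by
      have h3 : br G y ≤ max (side G x y).card ((side G y x).card - 1) := by
        apply br_le
        intro z hz
        by_cases hzx : z = x
        · subst hzx; exact le_max_left _ _
        · apply le_max_of_le_right
          have hsub : side G z y ⊆ (side G y x).erase y := by
            intro w hw
            rw [mem_side] at hw
            rw [mem_erase, mem_side]
            refine ⟨?_, ?_⟩
            · rintro rfl; exact not_onSide_other hw
            · by_contra hcon2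
              rw [not_onSide_iff hG hy.symm] at hcon2
              exact hzx (branch_unique hG hz hy.symm hw hcon2)
          refine (card_le_card hsub).trans ?_
          rw [card_erase_of_mem]
          rw [mem_side]
          exact onSide_self hG.connected hy.symm.ne
      refine lt_of_le_of_lt h3 ?_
      rw [max_lt_iff]
      constructor <;> omega
    exact absurd (cen_le G y) (by omega)
  · have : br G x = 0 := by
      unfold br
      rw [show nb G x = ∅ from ?_]
      · simp
      · rw [eq_empty_iff_forall_notMem]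
        intro y hy
        exact hn ⟨y, mem_nb.mp hy⟩
    omega

/-- every vertex other than `c` lies in exactly one branch at `c` -/
lemma sum_branches {G : SimpleGraph V} (hG : G.IsTree) (c : V) :
    ∑ y ∈ nb G c, (side G y c).card = Fintype.card V - 1 := by
  have : (univ.erase c : Finset V) = (nb G c).biUnion (fun y => side G y c) := by
    ext w
    rw [mem_erase, mem_biUnion]
    constructor
    · rintro ⟨hw, _⟩
      obtain ⟨y, hy, hs⟩ := exists_branch hG.connected (x := c) (w := w) hw
      exact ⟨y, mem_nb.mpr hy, mem_side.mpr hs⟩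
    · rintro ⟨y, hy, hs⟩
      refine ⟨?_, mem_univ _⟩
      rintro rfl
      exact not_onSide_other (mem_side.mp hs)
  rw [← card_univ, ← card_erase_of_mem (mem_univ c), this, card_biUnion]
  intro y hy y' hy' hne
  rw [Function.onFun, Finset.disjoint_left]
  intro w hw hw'
  exact hne (branch_unique hG (mem_nb.mp hy) (mem_nb.mp hy') (mem_side.mp hw) (mem_side.mp hw'))

/-- colouring the branches at `c` gives a separated colouring. -/
lemma exists_separated {J : Type} {G : SimpleGraph V} (hG : G.IsTree) (c : V) (q : V → J) :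
    ∃ P : V → J, Separated G c P ∧
      ∀ j, sizes c P j = ∑ y ∈ (nb G c).filter (fun y => q y = j), (side G y c).card := by
  let P : V → J := fun v => if h : ∃ y, G.Adj c y ∧ OnSide G y c v then q h.choose else q c
  have hP : ∀ v y, G.Adj c y → OnSide G y c v → P v = q y := by
    intro v y hy hs
    have h : ∃ y, G.Adj c y ∧ OnSide G y c v := ⟨y, hy, hs⟩
    simp only [P]
    rw [dif_pos h]
    congr 1
    exact branch_unique hG h.choose_spec.1 hy h.choose_spec.2 hs
  refine ⟨P, ?_, ?_⟩
  · intro a b hab ha hb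
    obtain ⟨y, hy, hs⟩ := exists_branch hG.connected (x := c) (w := a) ha
    obtain ⟨y', hy', hs'⟩ := exists_branch hG.connected (x := c) (w := b) hb
    have := branch_sep hG hy hy' hs hs' hab
    subst this
    rw [hP a y hy hs, hP b y hy hs']
  · intro j
    unfold sizes
    rw [← card_biUnion]
    · congr 1
      ext v
      simp only [mem_filter, mem_univ, true_and, mem_biUnion, mem_nb, mem_side]
      constructor
      · rintro ⟨hv, hPv⟩
        obtain ⟨y, hy, hs⟩ := exists_branch hG.connected (x := c) (w := v) hv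
        refine ⟨y, ⟨hy, ?_⟩, hs⟩
        rw [← hP v y hy hs, hPv]
      · rintro ⟨y, ⟨hy, hq⟩, hs⟩
        refine ⟨?_, ?_⟩
        · rintro rfl; exact not_onSide_other hs
        · rw [hP v y hy hs, hq]
    · intro y hy y' hy' hne
      rw [Function.onFun, Finset.disjoint_left]
      intro w hw hw'
      rw [mem_coe, mem_filter] at hy hy'
      exact hne (branch_unique hG (mem_nb.mp hy.1) (mem_nb.mp hy'.1) (mem_side.mp hw) (mem_side.mp hw'))

/-- greedy choice of a subset with prescribed approximate weight -/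
lemma greedy {ι : Type} (s : Finset ι) (a : ι → ℕ) (m t : ℕ) (ha : ∀ i ∈ s, a i ≤ m)
    (ht : t ≤ ∑ i ∈ s, a i) : ∃ q ⊆ s, t ≤ ∑ i ∈ q, a i ∧ ∑ i ∈ q, a i ≤ t + m := by
  induction s using Finset.induction_on with
  | empty =>
    rw [sum_empty] at ht
    exact ⟨∅, Subset.refl _, by rw [sum_empty]; omega, by rw [sum_empty]; omega⟩
  | insert i s hi ih =>
    by_cases h : t ≤ ∑ i ∈ s, a i
    · obtain ⟨q, hq, h1, h2⟩ := ih (fun j hj => ha j (mem_insert_of_mem hj)) h
      exact ⟨q, hq.trans (subset_insert _ _), h1, h2⟩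
    · refine ⟨insert i s, Subset.refl _, ht, ?_⟩
      rw [sum_insert hi]
      have := ha i (mem_insert_self _ _)
      omega

/-- version of `exists_separated` with explicit classes -/
lemma exists_separated' {J : Type} {G : SimpleGraph V} (hG : G.IsTree) (c : V) (q : V → J)
    (Q : J → Finset V) (hQ : ∀ j y, y ∈ Q j ↔ G.Adj c y ∧ q y = j) :
    ∃ P : V → J, Separated G c P ∧ ∀ j, sizes c P j = ∑ y ∈ Q j, (side G y c).card := by
  obtain ⟨P, hP, hsz⟩ := exists_separated hG c q
  refine ⟨P, hP, fun j => ?_⟩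
  rw [hsz j]
  congr 1
  ext y
  rw [mem_filter, hQ, mem_nb]

/-- splitting into four classes of large weight -/
lemma greedy_four {ι : Type} (s : Finset ι) (a : ι → ℕ) (m t : ℕ) (ha : ∀ i ∈ s, a i ≤ m)
    (ht : 4 * t + 3 * m ≤ ∑ i ∈ s, a i) :
    ∃ q : ι → Fin 4, ∃ Q : Fin 4 → Finset ι, (∀ j i, i ∈ Q j ↔ i ∈ s ∧ q i = j) ∧
      ∀ j, t ≤ ∑ i ∈ Q j, a i := by
  obtain ⟨q1, hq1, h11, h12⟩ := greedy s a m t ha (by omega)
  have e1 : ∑ i ∈ s \ q1, a i + ∑ i ∈ q1, a i = ∑ i ∈ s, a i := sum_sdiff hq1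
  obtain ⟨q2, hq2, h21, h22⟩ := greedy (s \ q1) a m t (fun i hi => ha i (mem_sdiff.mp hi).1) (by omega)
  have e2 : ∑ i ∈ (s \ q1) \ q2, a i + ∑ i ∈ q2, a i = ∑ i ∈ s \ q1, a i := sum_sdiff hq2
  obtain ⟨q3, hq3, h31, h32⟩ := greedy ((s \ q1) \ q2) a m t
    (fun i hi => ha i (mem_sdiff.mp (mem_sdiff.mp hi).1).1) (by omega)
  have e3 : ∑ i ∈ ((s \ q1) \ q2) \ q3, a i + ∑ i ∈ q3, a i = ∑ i ∈ (s \ q1) \ q2, a i := sum_sdiff hq3
  refine ⟨fun i => if i ∈ q1 then 0 else if i ∈ q2 then 1 else if i ∈ q3 then 2 else 3,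
    fun j => s.filter (fun i => (if i ∈ q1 then (0 : Fin 4) else if i ∈ q2 then 1 else
      if i ∈ q3 then 2 else 3) = j), fun j i => mem_filter, ?_⟩
  have d2 : ∀ i ∈ q2, i ∉ q1 := fun i hi => (mem_sdiff.mp (hq2 hi)).2
  have d3 : ∀ i ∈ q3, i ∉ q1 ∧ i ∉ q2 := fun i hi =>
    ⟨(mem_sdiff.mp (mem_sdiff.mp (hq3 hi)).1).2, (mem_sdiff.mp (hq3 hi)).2⟩
  intro j
  fin_cases j
  · refine h11.trans (sum_le_sum_of_subset ?_)
    intro i hi
    rw [mem_filter]
    exact ⟨hq1 hi, by simp [hi]⟩
  · refine h21.trans (sum_le_sum_of_subset ?_)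
    intro i hi
    rw [mem_filter]
    exact ⟨(mem_sdiff.mp (hq2 hi)).1, by simp [hi, d2 i hi]⟩
  · refine h31.trans (sum_le_sum_of_subset ?_)
    intro i hi
    rw [mem_filter]
    exact ⟨(mem_sdiff.mp (mem_sdiff.mp (hq3 hi)).1).1, by simp [hi, (d3 i hi).1, (d3 i hi).2]⟩
  · refine le_trans (by omega : t ≤ ∑ i ∈ ((s \ q1) \ q2) \ q3, a i) (sum_le_sum_of_subset ?_)
    intro i hi
    rw [mem_sdiff, mem_sdiff, mem_sdiff] at hi
    rw [mem_filter]
    exact ⟨hi.1.1.1, by simp [hi.1.1.2, hi.1.2, hi.2]⟩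

lemma side_card_pos {G : SimpleGraph V} (hG : G.Connected) {x y : V} (h : G.Adj x y) :
    1 ≤ (side G y x).card := card_pos.mpr ⟨y, mem_side.mpr (onSide_self hG h.symm.ne)⟩

/-- `T` has a vertex where the branches can be grouped into four groups of size at least `d`. -/
def FourSplit (G : SimpleGraph V) (d : ℕ) : Prop :=
  ∃ x, ∃ P : V → Fin 4, Separated G x P ∧ ∀ j, d ≤ sizes x P j

lemma fourSplit_of_br {G : SimpleGraph V} (hG : G.IsTree) (c : V) (d : ℕ)
    (h : 4 * d + 3 * br G c ≤ Fintype.card V - 1) : FourSplit G d := by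
  have hs := sum_branches hG c
  obtain ⟨q, Q, hQ, hq⟩ := greedy_four (nb G c) (fun y => (side G y c).card) (br G c) d
    (fun y hy => le_br (mem_nb.mp hy)) (by rw [hs]; exact h)
  obtain ⟨P, hP, hsz⟩ := exists_separated' hG c q Q (fun j y => by rw [hQ, mem_nb])
  exact ⟨c, P, hP, fun j => by rw [hsz j]; exact hq j⟩

lemma fourSplit_of_degree {G : SimpleGraph V} (hG : G.IsTree) (c : V) (d : ℕ)
    (h : 4 * d + 3 ≤ (nb G c).card) : FourSplit G d := by
  obtain ⟨q, Q, hQ, hq⟩ := greedy_four (nb G c) (fun _ => 1) 1 d (fun y _ => le_refl _) (by simpa using h)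
  obtain ⟨P, hP, hsz⟩ := exists_separated' hG c q Q (fun j y => by rw [hQ, mem_nb])
  refine ⟨c, P, hP, fun j => ?_⟩
  rw [hsz j]
  refine (hq j).trans (sum_le_sum fun y hy => ?_)
  exact side_card_pos hG.connected (mem_nb.mp ((hQ j y).mp hy).1)

/-- two-splitting with exact size of the first class -/
lemma twoSplit_of_cen [Nonempty V] {G : SimpleGraph V} (hG : G.IsTree) (hV : 2 ≤ Fintype.card V) :
    ∃ x, ∃ P : V → Fin 2, Separated G x P ∧ sizes x P 0 = cen G ∧
      sizes x P 1 = Fintype.card V - 1 - cen G := by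
  obtain ⟨c, hc⟩ := exists_cen G
  have hn : ∃ y, G.Adj c y := by
    obtain ⟨w, hw⟩ := Fintype.exists_ne_of_one_lt_card (by omega : 1 < Fintype.card V) c
    obtain ⟨y, hy, _⟩ := exists_branch hG.connected (x := c) (w := w) hw
    exact ⟨y, hy⟩
  obtain ⟨y1, hy1, hy1e⟩ := exists_br hn
  have hs := sum_branches hG c
  have hy1' : y1 ∈ nb G c := mem_nb.mpr hy1
  obtain ⟨P, hP, hsz⟩ := exists_separated' hG c (fun y => if y = y1 then (0 : Fin 2) else 1)
    ![{y1}, (nb G c).erase y1] (by
      intro j y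
      fin_cases j
      · by_cases hy : y = y1
        · subst hy; simp [hy1]
        · simp [hy]
      · by_cases hy : y = y1
        · subst hy; simp
        · simp [hy])
  refine ⟨c, P, hP, ?_, ?_⟩
  · rw [hsz 0]
    change ∑ y ∈ {y1}, (side G y c).card = cen G
    rw [sum_singleton, hy1e, hc]
  · rw [hsz 1]
    change ∑ y ∈ (nb G c).erase y1, (side G y c).card = _
    have h3 := add_sum_erase (nb G c) (fun y => (side G y c).card) hy1'
    rw [hs, hy1e, hc] at h3
    omega

/-- three-splitting with exact size of the first class -/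
lemma threeSplit_of_cen [Nonempty V] {G : SimpleGraph V} (hG : G.IsTree) (s : ℕ) (hs1 : 1 ≤ s)
    (hs0 : 2 * s + 2 * cen G ≤ Fintype.card V - 1) :
    ∃ x, ∃ P : V → Fin 3, Separated G x P ∧ sizes x P 0 = cen G ∧
      s ≤ sizes x P 1 ∧ s ≤ sizes x P 2 ∧ ∑ j, sizes x P j = Fintype.card V - 1 := by
  obtain ⟨c, hc⟩ := exists_cen G
  have hn : ∃ y, G.Adj c y := by
    obtain ⟨w, hw⟩ := Fintype.exists_ne_of_one_lt_card (by omega : 1 < Fintype.card V) c
    obtain ⟨y, hy, _⟩ := exists_branch hG.connected (x := c) (w := w) hw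
    exact ⟨y, hy⟩
  obtain ⟨y1, hy1, hy1e⟩ := exists_br hn
  have hs := sum_branches hG c
  have hy1' : y1 ∈ nb G c := mem_nb.mpr hy1
  have h3 := add_sum_erase (nb G c) (fun y => (side G y c).card) hy1'
  rw [hs, hy1e, hc] at h3
  obtain ⟨Q, hQ, hQ1, hQ2⟩ := greedy ((nb G c).erase y1) (fun y => (side G y c).card) (cen G) s
    (fun y hy => by rw [← hc]; exact le_br (mem_nb.mp (mem_of_mem_erase hy))) (by omega)
  have h4 : ∑ y ∈ ((nb G c).erase y1) \ Q, (side G y c).card + ∑ y ∈ Q, (side G y c).card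
      = ∑ y ∈ (nb G c).erase y1, (side G y c).card := sum_sdiff hQ
  have hy1Q : y1 ∉ Q := fun h => (mem_erase.mp (hQ h)).1 rfl
  obtain ⟨P, hP, hsz⟩ := exists_separated' hG c
    (fun y => if y = y1 then (0 : Fin 3) else if y ∈ Q then 1 else 2)
    ![{y1}, Q, ((nb G c).erase y1) \ Q] (by
      intro j y
      by_cases hy : y = y1
      · subst hy
        fin_cases j
        · simp [hy1]
        · simp [hy1Q]
        · simp
      · by_cases hyQ : y ∈ Q
        · have hadj : G.Adj c y := mem_nb.mp (mem_of_mem_erase (hQ hyQ))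
          fin_cases j
          · simp [hy, hyQ]
          · simp [hy, hyQ, hadj]
          · simp [hy, hyQ]
        · fin_cases j
          · simp [hy, hyQ]
          · simp [hy, hyQ]
          · simp [hy, hyQ])
  have f0 : sizes c P 0 = cen G := by
    rw [hsz 0]
    change ∑ y ∈ {y1}, (side G y c).card = cen G
    rw [sum_singleton, hy1e, hc]
  have f1 : sizes c P 1 = ∑ y ∈ Q, (side G y c).card := hsz 1
  have f2 : sizes c P 2 = ∑ y ∈ ((nb G c).erase y1) \ Q, (side G y c).card := hsz 2
  refine ⟨c, P, hP, f0, ?_, ?_, ?_⟩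
  · rw [f1]; exact hQ1
  · rw [f2]; omega
  · rw [Fin.sum_univ_three, f0, f1, f2]; omega

end Pool.Agent.MP_b12932_pr
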