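import Pool.Agent.Lib.MP_b12932_pr.PA

/-!
# Concentration of the centroid branch statistic along preferential attachment
-/

set_option autoImplicit false

open Finset

namespace Pool.Agent.MP_b12932_pr

open SimpleGraph Classical

variable {k : ℕ} {T : SimpleGraph (Fin k)}

noncomputable def pick {K : Type} (p : K → Prop) (c : K) : K := if h : ∃ z, p z then h.choose else c

/-- the seed branch (at the seed vertex `c`) containing a vertex; `c` if there is none. -/
noncomputable def seedCol (T : SimpleGraph (Fin k)) (c : Fin k) (j : ℕ)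
    (G : SimpleGraph (Fin (k + j))) (w : Fin (k + j)) : Fin k :=
  pick (fun z => T.Adj c z ∧ OnSide G (Fin.castAdd j z) (Fin.castAdd j c) w) c

lemma seedCol_attach (c : Fin k) {j : ℕ} {G : SimpleGraph (Fin (k + j))} (hG : G.Connected)
    (v w : Fin (k + j)) : seedCol T c (j + 1) (attach G v) w.castSucc = seedCol T c j G w := by
  unfold seedCol
  congr 1
  funext z
  refine propext (and_congr_right fun _ => ?_)
  exact onSide_attach hG (a := Fin.castAdd j z) (b := Fin.castAdd j c) (w := w)

lemma seedCol_attach_last (c : Fin k) {j : ℕ} {G : SimpleGraph (Fin (k + j))} (hG : G.Connected)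
    (v : Fin (k + j)) : seedCol T c (j + 1) (attach G v) (Fin.last (k + j)) = seedCol T c j G v := by
  unfold seedCol
  congr 1
  funext z
  refine propext (and_congr_right fun _ => ?_)
  exact onSide_attach_last hG (a := Fin.castAdd j z) (b := Fin.castAdd j c)

lemma seedCol_eq_iff {j : ℕ} {G : SimpleGraph (Fin (k + j))} (hG : G.IsTree) (hgr : Grown T j G)
    {c z : Fin k} (hz : T.Adj c z) (w : Fin (k + j)) :
    seedCol T c j G w = z ↔ OnSide G (Fin.castAdd j z) (Fin.castAdd j c) w := by
  unfold seedCol pick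
  constructor
  · intro h
    split_ifs at h with h1
    · have := h1.choose_spec.2
      rwa [h] at this
    · exact absurd h hz.ne
  · intro h
    have h1 : ∃ z, T.Adj c z ∧ OnSide G (Fin.castAdd j z) (Fin.castAdd j c) w := ⟨z, hz, h⟩
    rw [dif_pos h1]
    have h2 := h1.choose_spec
    have := branch_unique hG ((hgr.adj c _).mpr h2.1) ((hgr.adj c z).mpr hz) h2.2 h
    exact Fin.castAdd_injective k j this

lemma seedCol_eq_c {j : ℕ} {G : SimpleGraph (Fin (k + j))} {c : Fin k} {w : Fin (k + j)}
    (h : ∀ z, T.Adj c z → ¬ OnSide G (Fin.castAdd j z) (Fin.castAdd j c) w) :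
    seedCol T c j G w = c := by
  unfold seedCol pick
  rw [dif_neg]
  rintro ⟨z, h1, h2⟩
  exact h z h1 h2

/-- The normalised centroid branch statistic. -/
noncomputable def zstat {n : ℕ} (G : SimpleGraph (Fin n)) : ℝ :=
  (2 * (cen G : ℝ) - 1) / (2 * ((n : ℝ) - 1))

lemma prop_seedCol {j : ℕ} {G : SimpleGraph (Fin (k + j))} (hG : G.IsTree) (hgr : Grown T j G)
    {c z : Fin k} (hz : T.Adj c z) :
    prop G (seedCol T c j G) z =
      (2 * ((side G (Fin.castAdd j z) (Fin.castAdd j c)).card : ℝ) - 1) /
        (2 * (((k + j : ℕ) : ℝ) - 1)) := by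
  unfold prop
  have h1 : cls (seedCol T c j G) z = side G (Fin.castAdd j z) (Fin.castAdd j c) := by
    ext w
    rw [mem_cls, mem_side, seedCol_eq_iff hG hgr hz]
  rw [h1]
  have h2 := degSum_side hG ((hgr.adj c z).mpr hz).symm
  have h3 : ((degSum G (side G (Fin.castAdd j z) (Fin.castAdd j c)) + 1 : ℕ) : ℝ) =
      ((2 * (side G (Fin.castAdd j z) (Fin.castAdd j c)).card : ℕ) : ℝ) := by rw [h2]
  push_cast at h3
  congr 1
  linarith

lemma prop_seedCol_c (hT : T.IsTree) (c : Fin k) :
    prop T (seedCol T c 0 T) c = ((nb T c).card : ℝ) / (2 * ((k : ℝ) - 1)) := by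
  unfold prop
  have h1 : cls (seedCol T c 0 T : Fin k → Fin k) c = {c} := by
    ext w
    rw [mem_cls, mem_singleton]
    constructor
    · intro hw
      by_contra hne
      obtain ⟨y, hy, hs⟩ := exists_branch hT.connected (x := c) (w := w) hne
      have := (seedCol_eq_iff hT Grown.zero hy w).mpr hs
      rw [hw] at this
      exact hy.ne this
    · rintro rfl
      apply seedCol_eq_c
      intro z _
      exact not_onSide_other
  rw [h1]
  congr 2
  unfold degSum
  rw [sum_singleton, ← card_neighborFinset_eq_degree]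
  congr 1
  ext y
  rw [mem_neighborFinset, mem_nb]

lemma exists_nb (hT : T.IsTree) (hk : 2 ≤ k) (c : Fin k) : ∃ y, T.Adj c y := by
  obtain ⟨w, hw⟩ := Fintype.exists_ne_of_one_lt_card (by rw [Fintype.card_fin]; omega) c
  obtain ⟨y, hy, _⟩ := exists_branch hT.connected (x := c) (w := w) hw
  exact ⟨y, hy⟩

lemma det_bound (hT : T.IsTree) (hk : 2 ≤ k) {c : Fin k} (hc : br T c = cen T)
    (hd : (nb T c).card + 1 ≤ 2 * cen T) {j : ℕ} {G : SimpleGraph (Fin (k + j))} (hgr : Grown T j G)
    {t : ℝ} (ht : 0 ≤ t) (hpot : pot G (seedCol T c j G) (prop T (seedCol T c 0 T)) ≤ t ^ 2) :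
    |zstat G - zstat T| ≤ t := by
  have hG := hgr.isTree hT
  have : Nonempty (Fin k) := ⟨c⟩
  have : Nonempty (Fin (k + j)) := ⟨Fin.castAdd j c⟩
  have hk' : (2 : ℝ) ≤ k := by exact_mod_cast hk
  have hn' : (2 : ℝ) ≤ ((k + j : ℕ) : ℝ) := by exact_mod_cast (by omega : 2 ≤ k + j)
  have habs : ∀ a, |prop G (seedCol T c j G) a - prop T (seedCol T c 0 T) a| ≤ t := by
    intro a
    apply abs_le_of_sq_le_sq _ ht
    refine le_trans ?_ hpot
    unfold pot
    exact single_le_sum (f := fun a => (prop G (seedCol T c j G) a - prop T (seedCol T c 0 T) a) ^ 2)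
      (fun a _ => sq_nonneg _) (mem_univ a)
  obtain ⟨y1, hy1, hy1e⟩ := exists_br (exists_nb hT hk c)
  rw [hc] at hy1e
  have hnpos : (0 : ℝ) < 2 * (((k + j : ℕ) : ℝ) - 1) := by linarith
  have hkpos : (0 : ℝ) < 2 * ((k : ℝ) - 1) := by linarith
  rw [abs_le]
  constructor
  · -- lower bound
    have h1 := (abs_le.mp (habs y1)).1
    rw [prop_seedCol hG hgr hy1] at h1
    have h0 : prop T (seedCol T c 0 T) y1 = zstat T := by
      have := prop_seedCol hT Grown.zero hy1
      change prop T (seedCol T c 0 T) y1 = (2 * ((side T y1 c).card : ℝ) - 1) / (2 * ((k : ℝ) - 1)) at this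
      rw [this, hy1e]
      rfl
    rw [h0] at h1
    have hadj : G.Adj (Fin.castAdd j c) (Fin.castAdd j y1) := (hgr.adj c y1).mpr hy1
    set a := (side G (Fin.castAdd j y1) (Fin.castAdd j c)).card with ha
    set b := (side G (Fin.castAdd j c) (Fin.castAdd j y1)).card with hb
    have hab : a + b = k + j := by
      have := side_card_add hG hadj.symm
      rwa [Fintype.card_fin] at this
    have hmin : min a b ≤ cen G := min_side_le_cen hG hadj.symm
    have hmu : zstat T ≤ 1 / 2 := by
      unfold zstat
      rw [div_le_iff₀ hkpos]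
      have := two_mul_cen_le hT
      rw [Fintype.card_fin] at this
      have : (2 * cen T : ℝ) ≤ k := by exact_mod_cast this
      linarith
    have habR : (a : ℝ) + b = ((k + j : ℕ) : ℝ) := by exact_mod_cast hab
    have hb2 : (2 * (b : ℝ) - 1) / (2 * (((k + j : ℕ) : ℝ) - 1)) =
        1 - (2 * (a : ℝ) - 1) / (2 * (((k + j : ℕ) : ℝ) - 1)) := by
      rw [eq_sub_iff_add_eq, ← add_div, div_eq_one_iff_eq hnpos.ne']
      linarith
    rcases le_total a b with hle | hle
    · rw [min_eq_left hle] at hmin
      have hm : (a : ℝ) ≤ cen G := by exact_mod_cast hmin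
      have : (2 * (a : ℝ) - 1) / (2 * (((k + j : ℕ) : ℝ) - 1)) ≤ zstat G := by
        unfold zstat
        apply div_le_div_of_nonneg_right _ hnpos.le
        linarith
      linarith
    · rw [min_eq_right hle] at hmin
      have hm : (b : ℝ) ≤ cen G := by exact_mod_cast hmin
      have h2 : (2 * (b : ℝ) - 1) / (2 * (((k + j : ℕ) : ℝ) - 1)) ≤ zstat G := by
        unfold zstat
        apply div_le_div_of_nonneg_right _ hnpos.le
        linarith
      have h3 := (abs_le.mp (habs y1)).2
      rw [prop_seedCol hG hgr hy1, h0, ← ha] at h3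
      linarith
  · -- upper bound
    obtain ⟨y, hy, hye⟩ := exists_br (G := G) (x := Fin.castAdd j c)
      ⟨Fin.castAdd j y1, (hgr.adj c y1).mpr hy1⟩
    have h1 : cen G ≤ (side G y (Fin.castAdd j c)).card := by
      rw [hye]; exact cen_le G _
    have h1' : (cen G : ℝ) ≤ (side G y (Fin.castAdd j c)).card := by exact_mod_cast h1
    have h2 : zstat G ≤ (2 * ((side G y (Fin.castAdd j c)).card : ℝ) - 1) /
        (2 * (((k + j : ℕ) : ℝ) - 1)) := by
      unfold zstat
      apply div_le_div_of_nonneg_right _ hnpos.le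
      linarith
    by_cases hyz : ∃ z, T.Adj c z ∧ Fin.castAdd j z = y
    · obtain ⟨z, hz, rfl⟩ := hyz
      rw [← prop_seedCol hG hgr hz] at h2
      have h3 := (abs_le.mp (habs z)).2
      have h4 : prop T (seedCol T c 0 T) z ≤ zstat T := by
        have := prop_seedCol hT Grown.zero hz
        change prop T (seedCol T c 0 T) z = (2 * ((side T z c).card : ℝ) - 1) / (2 * ((k : ℝ) - 1)) at this
        rw [this]
        unfold zstat
        apply div_le_div_of_nonneg_right _ hkpos.le
        have : (side T z c).card ≤ cen T := by rw [← hc]; exact le_br hz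
        have : ((side T z c).card : ℝ) ≤ cen T := by exact_mod_cast this
        linarith
      linarith
    · have hsub : side G y (Fin.castAdd j c) ⊆ cls (seedCol T c j G) c := by
        intro w hw
        rw [mem_side] at hw
        rw [mem_cls]
        refine seedCol_eq_c fun z hz hs => ?_
        exact hyz ⟨z, hz, branch_unique hG ((hgr.adj c z).mpr hz) hy hs hw⟩
      have h3 : degSum G (side G y (Fin.castAdd j c)) ≤
          degSum G (cls (seedCol T c j G) c) := by
        unfold degSum
        exact sum_le_sum_of_subset hsub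
      have h4 := degSum_side hG hy.symm
      have h5 : (2 * ((side G y (Fin.castAdd j c)).card : ℝ) - 1) ≤
          (degSum G (cls (seedCol T c j G) c) : ℝ) := by
        have : ((degSum G (side G y (Fin.castAdd j c)) + 1 : ℕ) : ℝ) =
          ((2 * (side G y (Fin.castAdd j c)).card : ℕ) : ℝ) := by rw [h4]
        push_cast at this
        have h3' : (degSum G (side G y (Fin.castAdd j c)) : ℝ) ≤
          (degSum G (cls (seedCol T c j G) c) : ℝ) := by exact_mod_cast h3
        linarith
      have h6 : zstat G ≤ prop G (seedCol T c j G) c := by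
        refine h2.trans ?_
        unfold prop
        exact div_le_div_of_nonneg_right h5 hnpos.le
      have h7 := (abs_le.mp (habs c)).2
      have h8 : prop T (seedCol T c 0 T) c ≤ zstat T := by
        rw [prop_seedCol_c hT c]
        unfold zstat
        apply div_le_div_of_nonneg_right _ hkpos.le
        have : ((nb T c).card : ℝ) + 1 ≤ 2 * cen T := by exact_mod_cast hd
        linarith
      linarith

/-- concentration of the normalised centroid branch statistic -/
theorem conc (hT : T.IsTree) (hk : 2 ≤ k) {c : Fin k} (hc : br T c = cen T)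
    (hd : (nb T c).card + 1 ≤ 2 * cen T) {t : ℝ} (ht : 0 < t) (j : ℕ) :
    paExp T j (fun G => if |zstat G - zstat T| ≤ t then 0 else 1) ≤ 1 / (((k : ℝ) - 1) * t ^ 2) := by
  have h1 := paExp_pot_le hT hk (seedCol T c) (fun j G v hG =>
    ⟨fun w => seedCol_attach c (hG.isTree hT).connected v w,
      seedCol_attach_last c (hG.isTree hT).connected v⟩) j
  have hk' : (2 : ℝ) ≤ k := by exact_mod_cast hk
  have hn' : (2 : ℝ) ≤ ((k + j : ℕ) : ℝ) := by exact_mod_cast (by omega : 2 ≤ k + j)
  have ht2 : 0 < t ^ 2 := by positivity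
  have h2 : paExp T j (fun G => if |zstat G - zstat T| ≤ t then 0 else 1) ≤
      paExp T j (fun G => pot G (seedCol T c j G) (prop T (seedCol T c 0 T)) * (1 / t ^ 2)) := by
    apply paExp_mono (by omega)
    intro G hG
    split_ifs with h
    · apply mul_nonneg _ (by positivity)
      unfold pot
      exact sum_nonneg fun a _ => sq_nonneg _
    · by_contra hcon
      apply h
      apply det_bound hT hk hc hd hG ht.le
      rw [not_le, mul_one_div, div_lt_one ht2] at hcon
      exact hcon.le
  refine h2.trans ?_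
  have h3 : paExp T j (fun G => pot G (seedCol T c j G) (prop T (seedCol T c 0 T)) * (1 / t ^ 2)) =
      paExp T j (fun G => pot G (seedCol T c j G) (prop T (seedCol T c 0 T))) * (1 / t ^ 2) := by
    unfold paExp
    rw [sum_mul]
    refine sum_congr rfl fun G _ => ?_
    ring
  rw [h3]
  have h4 : 0 ≤ 1 / (((k + j : ℕ) : ℝ) - 1) := by
    apply div_nonneg zero_le_one; linarith
  calc _ ≤ (1 / ((k : ℝ) - 1)) * (1 / t ^ 2) := by
        apply mul_le_mul_of_nonneg_right _ (by positivity)
        linarith
    _ = _ := by rw [one_div_mul_one_div]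

end Pool.Agent.MP_b12932_pr
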