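import Mathlib

/-!
# Counting rooted forests and Cayley's formula

`IsForest R f` : the map `f : V → V` fixes every element of `R` and every element of `V` is moved
into `R` by iterating `f`.  The number of such maps is `|R| * |V| ^ (|V| - |R| - 1)`.
-/

set_option autoImplicit false

open Finset

namespace Pool.Agent.MP_b12932_pr

/-- `f` is a rooted forest on `V` with set of roots `R` (given as a parent map). -/
def IsForest {V : Type} (R : Finset V) (f : V → V) : Prop :=
  (∀ r ∈ R, f r = r) ∧ ∀ v, ∃ n : ℕ, f^[n] v ∈ R

lemma sum_powerset_weighted {W : Type} [Fintype W] [DecidableEq W] (x y : ℕ) :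
    ∑ S : Finset W, S.card * x ^ S.card * y ^ (Fintype.card W - S.card)
      = Fintype.card W * x * (x + y) ^ (Fintype.card W - 1) := by
  classical
  have h1 : ∑ S : Finset W, S.card * x ^ S.card * y ^ (Fintype.card W - S.card)
      = ∑ S ∈ (univ : Finset W).powerset,
          (fun m => m * x ^ m * y ^ (Fintype.card W - m)) S.card := by
    rw [powerset_univ]
  rw [h1, sum_powerset_apply_card (fun m => m * x ^ m * y ^ (Fintype.card W - m)), card_univ]
  rcases Nat.eq_zero_or_pos (Fintype.card W) with h0 | hpos
  · simp [h0]
  · obtain ⟨w, hw⟩ : ∃ w, Fintype.card W = w + 1 := ⟨Fintype.card W - 1, by omega⟩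
    rw [hw, sum_range_succ']
    simp only [Nat.add_sub_cancel]
    rw [add_pow, mul_sum]
    simp only [smul_eq_mul]
    rw [show (w+1).choose 0 * (0 * x ^ 0 * y ^ (w + 1 - 0)) = 0 by ring, add_zero]
    refine sum_congr rfl fun m hm => ?_
    have hm' : m < w + 1 := mem_range.mp hm
    have e : (w + 1).choose (m + 1) * (m + 1) = (w + 1) * w.choose m := by
      rw [Nat.add_one_mul_choose_eq]
    have e2 : w + 1 - (m + 1) = w - m := by omega
    rw [e2]
    calc (w + 1).choose (m + 1) * ((m + 1) * x ^ (m + 1) * y ^ (w - m))
        = ((w + 1).choose (m + 1) * (m + 1)) * (x ^ (m + 1) * y ^ (w - m)) := by ring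
      _ = (w + 1) * x * (x ^ m * y ^ (w - m) * (w.choose m)) := by rw [e]; ring

section bij

variable {V : Type} [DecidableEq V] (R : Finset V)

/-- vertices outside `R` which are mapped into `R`. -/
noncomputable def firstLevel [Fintype V] (f : V → V) : Finset {v : V // v ∉ R} :=
  univ.filter (fun w => f w.1 ∈ R)

/-- restriction of a forest to the non-roots; the first level becomes the set of roots. -/
def restr (f : V → V) : {v : V // v ∉ R} → {v : V // v ∉ R} :=
  fun w => if h : f w.1 ∈ R then w else ⟨f w.1, h⟩

/-- glue -/
noncomputable def glue (S : Finset {v : V // v ∉ R}) (a : S → R) (g : {v : V // v ∉ R} → {v : V // v ∉ R}) :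
    V → V :=
  fun v => if h : v ∈ R then v else if h' : (⟨v, h⟩ : {v : V // v ∉ R}) ∈ S then (a ⟨_, h'⟩ : R).1
    else (g ⟨v, h⟩).1

lemma restr_isForest [Fintype V] (f : V → V) (hf : IsForest R f) : IsForest (firstLevel R f) (restr R f) := by
  refine ⟨?_, ?_⟩
  · intro s hs
    have : f s.1 ∈ R := (mem_filter.mp hs).2
    simp [restr, this]
  · have key : ∀ m : ℕ, ∀ w : {v : V // v ∉ R}, f^[m] w.1 ∈ R →
        ∃ n, (restr R f)^[n] w ∈ firstLevel R f := by
      intro m
      induction m with
      | zero => intro w hw; exact absurd hw w.2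
      | succ m ih =>
        intro w hw
        rw [Function.iterate_succ_apply] at hw
        by_cases h : f w.1 ∈ R
        · exact ⟨0, by simpa [firstLevel] using h⟩
        · obtain ⟨n, hn⟩ := ih ⟨f w.1, h⟩ hw
          refine ⟨n + 1, ?_⟩
          rw [Function.iterate_succ_apply]
          have : restr R f w = ⟨f w.1, h⟩ := by simp [restr, h]
          rw [this]; exact hn
    intro w
    obtain ⟨m, hm⟩ := hf.2 w.1
    exact key m w hm

lemma glue_isForest (S : Finset {v : V // v ∉ R}) (a : S → R)
    (g : {v : V // v ∉ R} → {v : V // v ∉ R}) (hg : IsForest S g) : IsForest R (glue R S a g) := by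
  refine ⟨?_, ?_⟩
  · intro r hr
    simp [glue, hr]
  · have key : ∀ m : ℕ, ∀ w : {v : V // v ∉ R}, g^[m] w ∈ S →
        ∃ n, (glue R S a g)^[n] w.1 ∈ R := by
      intro m
      induction m with
      | zero =>
        intro w hw
        refine ⟨1, ?_⟩
        have hw' : (⟨w.1, w.2⟩ : {v : V // v ∉ R}) ∈ S := by simpa using hw
        have : glue R S a g w.1 = (a ⟨⟨w.1, w.2⟩, hw'⟩ : R).1 := by
          simp only [glue, dif_neg w.2, dif_pos hw']
        rw [Function.iterate_one, this]
        exact (a _).2
      | succ m ih =>
        intro w hw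
        by_cases hS : w ∈ S
        · refine ⟨1, ?_⟩
          have hw' : (⟨w.1, w.2⟩ : {v : V // v ∉ R}) ∈ S := by simpa using hS
          have : glue R S a g w.1 = (a ⟨⟨w.1, w.2⟩, hw'⟩ : R).1 := by
            simp only [glue, dif_neg w.2, dif_pos hw']
          rw [Function.iterate_one, this]
          exact (a _).2
        · rw [Function.iterate_succ_apply] at hw
          obtain ⟨n, hn⟩ := ih (g w) hw
          refine ⟨n + 1, ?_⟩
          rw [Function.iterate_succ_apply]
          have hw' : (⟨w.1, w.2⟩ : {v : V // v ∉ R}) ∉ S := by simpa using hS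
          have : glue R S a g w.1 = (g w).1 := by
            simp only [glue, dif_neg w.2, dif_neg hw']
          rw [this]; exact hn
    intro v
    by_cases hv : v ∈ R
    · exact ⟨0, hv⟩
    · obtain ⟨m, hm⟩ := hg.2 ⟨v, hv⟩
      exact key m ⟨v, hv⟩ hm

/-- forests with given first level -/
noncomputable def fiberEquiv [Fintype V] (S : Finset {v : V // v ∉ R}) :
    {x : {f : V → V // IsForest R f} // firstLevel R x.1 = S} ≃
      (S → R) × {g : {v : V // v ∉ R} → {v : V // v ∉ R} // IsForest S g} where
  toFun x := (fun s => ⟨x.1.1 s.1.1, by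
      have h : s.1 ∈ firstLevel R x.1.1 := by rw [x.2]; exact s.2
      exact (mem_filter.mp h).2⟩,
    ⟨restr R x.1.1, by
      have := restr_isForest R x.1.1 x.1.2
      rw [x.2] at this; exact this⟩)
  invFun y := ⟨⟨glue R S y.1 y.2.1, glue_isForest R S y.1 y.2.1 y.2.2⟩, by
      ext w
      simp only [firstLevel, mem_filter, mem_univ, true_and]
      constructor
      · intro h
        by_contra hS
        have hw' : (⟨w.1, w.2⟩ : {v : V // v ∉ R}) ∉ S := by simpa using hS
        have : glue R S y.1 y.2.1 w.1 = (y.2.1 w).1 := by
          simp only [glue, dif_neg w.2, dif_neg hw']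
        rw [this] at h
        exact (y.2.1 w).2 h
      · intro hS
        have hw' : (⟨w.1, w.2⟩ : {v : V // v ∉ R}) ∈ S := by simpa using hS
        have : glue R S y.1 y.2.1 w.1 = (y.1 ⟨⟨w.1, w.2⟩, hw'⟩ : R).1 := by
          simp only [glue, dif_neg w.2, dif_pos hw']
        rw [this]; exact (y.1 _).2⟩
  left_inv x := by
    apply Subtype.ext
    apply Subtype.ext
    funext v
    by_cases hv : v ∈ R
    · simp [glue, hv, x.1.2.1 v hv]
    · by_cases hS : (⟨v, hv⟩ : {v : V // v ∉ R}) ∈ S
      · simp only [glue, dif_neg hv, dif_pos hS]
      · simp only [glue, dif_neg hv, dif_neg hS]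
        have h : x.1.1 v ∉ R := by
          intro hc
          apply hS
          rw [← x.2]
          simpa [firstLevel] using hc
        simp [restr, h]
  right_inv y := by
    obtain ⟨a, g, hg⟩ := y
    refine Prod.ext ?_ ?_
    · funext s
      apply Subtype.ext
      have h1 : (s.1).1 ∉ R := s.1.2
      have h2 : (⟨s.1.1, h1⟩ : {v : V // v ∉ R}) ∈ S := s.2
      simp only [glue, dif_neg h1, dif_pos h2]
    · apply Subtype.ext
      funext w
      by_cases hS : w ∈ S
      · have hw' : (⟨w.1, w.2⟩ : {v : V // v ∉ R}) ∈ S := by simpa using hS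
        have e : glue R S a g w.1 = (a ⟨⟨w.1, w.2⟩, hw'⟩ : R).1 := by
          simp only [glue, dif_neg w.2, dif_pos hw']
        have : glue R S a g w.1 ∈ R := by rw [e]; exact (a _).2
        simp only [restr, dif_pos this]
        exact (hg.1 w hS).symm
      · have hw' : (⟨w.1, w.2⟩ : {v : V // v ∉ R}) ∉ S := by simpa using hS
        have e : glue R S a g w.1 = (g w).1 := by
          simp only [glue, dif_neg w.2, dif_neg hw']
        have h' : glue R S a g w.1 ∉ R := by rw [e]; exact (g w).2
        simp only [restr, dif_neg h']
        apply Subtype.ext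
        exact e

end bij

/-- The number of rooted forests on `V` with root set `R`. -/
noncomputable def forestCount {V : Type} (R : Finset V) : ℕ :=
  Nat.card {f : V → V // IsForest R f}

theorem forestCount_formula : ∀ (n : ℕ) (V : Type) [Fintype V], Fintype.card V = n →
    ∀ R : Finset V, n * forestCount R = R.card * n ^ (n - R.card) := by
  classical
  intro n
  induction n using Nat.strong_induction_on with
  | _ n ih =>
    intro V _ hV R
    rcases R.eq_empty_or_nonempty with rfl | hR
    · rcases Nat.eq_zero_or_pos n with h0 | hpos
      · simp [h0]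
      · have : forestCount (∅ : Finset V) = 0 := by
          unfold forestCount
          rw [Nat.card_eq_zero]
          left
          refine ⟨fun f => ?_⟩
          have hne : Nonempty V := by
            rw [← Fintype.card_pos_iff]; omega
          obtain ⟨v⟩ := hne
          obtain ⟨m, hm⟩ := f.2.2 v
          simp at hm
        simp [this]
    · by_cases hu : R = univ
      · have : forestCount R = 1 := by
          unfold forestCount
          rw [Nat.card_eq_one_iff_unique]
          refine ⟨⟨fun f g => ?_⟩, ⟨id, fun r _ => rfl, fun v => ⟨0, by simp [hu]⟩⟩⟩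
          apply Subtype.ext
          funext v
          rw [f.2.1 v (by simp [hu]), g.2.1 v (by simp [hu])]
        rw [this]
        have : R.card = n := by rw [hu, card_univ, hV]
        simp [this]
      · -- main case
        have hcW : Fintype.card {v : V // v ∉ R} = n - R.card := by
          rw [Fintype.card_subtype_compl, hV]; simp
        have hRn : R.card < n := by
          rw [← hV, ← card_univ]; exact card_lt_card (ssubset_univ_iff.mpr hu)
        have hRpos : 0 < R.card := hR.card_pos
        set w := n - R.card with hw
        have hwn : w < n := by omega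
        have hwpos : 0 < w := by omega
        have hsum : forestCount R = ∑ S : Finset {v : V // v ∉ R},
            R.card ^ S.card * forestCount S := by
          unfold forestCount
          rw [← Nat.card_congr (Equiv.sigmaFiberEquiv
            (fun x : {f : V → V // IsForest R f} => firstLevel R x.1)), Nat.card_sigma]
          refine sum_congr rfl fun S _ => ?_
          rw [Nat.card_congr (fiberEquiv R S), Nat.card_prod, Nat.card_fun,
            Nat.card_eq_fintype_card, Nat.card_eq_fintype_card, Fintype.card_coe, Fintype.card_coe]
        have h2 : w * forestCount R = w * (R.card * n ^ (w - 1)) := by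
          rw [hsum, mul_sum]
          have : ∀ S : Finset {v : V // v ∉ R}, w * (R.card ^ S.card * forestCount S)
              = S.card * R.card ^ S.card * w ^ (Fintype.card {v : V // v ∉ R} - S.card) := by
            intro S
            have := ih w hwn {v : V // v ∉ R} hcW S
            rw [hcW]
            calc w * (R.card ^ S.card * forestCount S) = R.card ^ S.card * (w * forestCount S) := by ring
              _ = _ := by rw [this]; ring
          rw [sum_congr rfl (fun S _ => this S), sum_powerset_weighted, hcW]
          have : R.card + w = n := by omega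
          rw [this]; ring
        have h3 : forestCount R = R.card * n ^ (w - 1) := Nat.eq_of_mul_eq_mul_left hwpos h2
        rw [h3]
        obtain ⟨w', hw'⟩ : ∃ w', w = w' + 1 := ⟨w - 1, by omega⟩
        rw [hw']; simp only [Nat.add_sub_cancel]; ring

/-- number of parent maps with a single root. -/
theorem forestCount_singleton {V : Type} [Fintype V] (r : V) :
    forestCount ({r} : Finset V) = Fintype.card V ^ (Fintype.card V - 2) := by
  classical
  have h := forestCount_formula (Fintype.card V) V rfl {r}
  have hpos : 0 < Fintype.card V := Fintype.card_pos_iff.mpr ⟨r⟩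
  rw [card_singleton, one_mul] at h
  rcases Nat.lt_or_ge 1 (Fintype.card V) with h1 | h1
  · obtain ⟨m, hm⟩ : ∃ m, Fintype.card V = m + 2 := ⟨Fintype.card V - 2, by omega⟩
    rw [hm] at h ⊢
    have : m + 2 - 1 = (m + 2 - 2) + 1 := by omega
    rw [this, pow_succ, mul_comm] at h
    exact Nat.eq_of_mul_eq_mul_right (by omega) h
  · have h1' : Fintype.card V = 1 := by omega
    rw [h1'] at h ⊢
    simpa using h

end Pool.Agent.MP_b12932_pr
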