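import Pool.Agent.Lib.MP_b12932_pr.TV

/-!
# The seed distance of two independent uniform random trees
-/

set_option autoImplicit false

open Finset Filter Topology

namespace Pool.Agent.MP_b12932_pr

open SimpleGraph Classical

variable {k : ℕ}

lemma mem_trees {G : SimpleGraph (Fin k)} : G ∈ trees k ↔ G.IsTree := by simp [trees]

lemma card_trees_eq (hk : 1 ≤ k) : ((trees k).card : ℝ) = (k : ℝ) ^ (k - 2) := by
  have hne : Nonempty (Fin k) := ⟨⟨0, hk⟩⟩
  have h := card_trees (V := Fin k)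
  rw [Fintype.card_fin, Nat.card_eq_fintype_card, Fintype.card_subtype] at h
  unfold trees
  rw [h]
  push_cast
  rfl

lemma sum_trees_ite (hk : 1 ≤ k) (Q : SimpleGraph (Fin k) → Prop) :
    ∑ T ∈ trees k, (if Q T then (1 : ℝ) else 0) = treeProb k Q * ((trees k).card : ℝ) := by
  have hk0 : (0 : ℝ) < k := by exact_mod_cast hk
  rw [treeProb_eq, card_trees_eq hk, div_mul_cancel₀ _ (by positivity), ← sum_filter]
  rw [sum_const, nsmul_eq_mul, mul_one]
  congr 2
  ext T
  simp [trees]

/-- trees without a four-splitting satisfy the assumptions of the concentration theorem -/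
lemma typical {T : SimpleGraph (Fin k)} (hT : T.IsTree) (hk : 100 ≤ k) (h : ¬ FourSplit T (k / 20)) :
    ∃ c, br T c = cen T ∧ (nb T c).card + 1 ≤ 2 * cen T := by
  have hne : Nonempty (Fin k) := ⟨⟨0, by omega⟩⟩
  obtain ⟨c, hc⟩ := exists_cen T
  refine ⟨c, hc, ?_⟩
  by_contra hcon
  by_cases h1 : 4 * (k / 20) + 3 * br T c ≤ k - 1
  · exact h (fourSplit_of_br hT c _ (by rw [Fintype.card_fin]; exact h1))
  · rw [hc] at h1
    apply h
    apply fourSplit_of_degree hT c
    omega

/-- lower bound for the seed distance of two typical trees -/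
lemma seedDist_ge {S T : SimpleGraph (Fin k)} (hS : S.IsTree) (hT : T.IsTree) (hk : 100 ≤ k)
    (hS4 : ¬ FourSplit S (k / 20)) (hT4 : ¬ FourSplit T (k / 20)) {t : ℝ} (ht : 0 < t)
    (hST : 2 * t < |zstat S - zstat T|) :
    1 - 2 / (((k : ℝ) - 1) * t ^ 2) ≤ seedDist S T := by
  obtain ⟨c, hc, hd⟩ := typical hS hk hS4
  obtain ⟨c', hc', hd'⟩ := typical hT hk hT4
  apply ge_of_tendsto' (tendsto_paTV hS hT (by omega))
  intro j
  have h1 := conc hS (by omega) hc hd ht j
  have h2 := conc hT (by omega) hc' hd' ht j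
  set f : SimpleGraph (Fin (k + j)) → ℝ := fun G => if |zstat G - zstat S| ≤ t then 1 else 0 with hf
  have h3 := paTV_ge hS hT (by omega) j f (by
    intro G
    simp only [hf]
    split_ifs <;> norm_num) (by
    intro G H e
    simp only [hf]
    rw [zstat_iso (by omega) e])
  have h4 : paExp S j f = 1 - paExp S j (fun G => if |zstat G - zstat S| ≤ t then 0 else 1) := by
    rw [eq_sub_iff_add_eq]
    refine Eq.trans ?_ (paExp_one hS (by omega) j)
    unfold paExp
    rw [← sum_add_distrib]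
    refine sum_congr rfl fun G _ => ?_
    simp only [hf]
    split_ifs <;> ring
  have h5 : paExp T j f ≤ paExp T j (fun G => if |zstat G - zstat T| ≤ t then 0 else 1) := by
    apply paExp_mono (by omega)
    intro G _
    simp only [hf]
    by_cases ha : |zstat G - zstat S| ≤ t
    · by_cases hb : |zstat G - zstat T| ≤ t
      · exfalso
        have : |zstat S - zstat T| ≤ 2 * t := by
          rw [abs_le] at ha hb ⊢
          constructor <;> linarith
        linarith
      · rw [if_pos ha, if_neg hb]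
    · rw [if_neg ha]
      split_ifs <;> norm_num
  have h6 : 2 / (((k : ℝ) - 1) * t ^ 2) = 1 / (((k : ℝ) - 1) * t ^ 2) + 1 / (((k : ℝ) - 1) * t ^ 2) := by
    ring
  rw [h6]
  linarith

/-- `T` is typical and the statistics of `S` and `T` are close -/
def Win (t : ℝ) (S T : SimpleGraph (Fin k)) : Prop :=
  ¬ FourSplit T (k / 20) ∧ |zstat S - zstat T| ≤ 2 * t

/-- the window estimate in terms of `zstat` -/
lemma window (hk : 100 ≤ k) (S : SimpleGraph (Fin k)) {t : ℝ} (ht : 0 < t) :
    treeProb k (Win t S) ≤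
      200000 * Real.sqrt (4 * t + 1 / k) := by
  have hk' : (100 : ℝ) ≤ k := by exact_mod_cast hk
  set r := ⌊2 * t * ((k : ℝ) - 1)⌋₊ with hr
  have hr0 : 0 ≤ 2 * t * ((k : ℝ) - 1) := by
    apply mul_nonneg (by linarith) (by linarith)
  have h1 := prob_window k (cen S - r) (2 * r) hk
  refine (treeProb_mono ?_).trans (h1.trans ?_)
  · rintro T hT ⟨h4, hz⟩
    refine ⟨h4, ?_⟩
    have h5 : |(cen S : ℝ) - cen T| ≤ 2 * t * ((k : ℝ) - 1) := by
      have e : (cen S : ℝ) - cen T = (zstat S - zstat T) * ((k : ℝ) - 1) := by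
        unfold zstat
        have : ((k : ℝ) - 1) ≠ 0 := by linarith
        field_simp
        ring
      rw [e, abs_mul, abs_of_nonneg (by linarith : (0 : ℝ) ≤ (k : ℝ) - 1)]
      exact mul_le_mul_of_nonneg_right hz (by linarith)
    rw [abs_le] at h5
    have h6 : cen T ≤ cen S + r := by
      by_contra hcon
      have h7 : cen S + r + 1 ≤ cen T := by omega
      have h8 : (cen S : ℝ) + r + 1 ≤ cen T := by exact_mod_cast h7
      have h9 := Nat.lt_floor_add_one (2 * t * ((k : ℝ) - 1))
      rw [← hr] at h9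
      linarith [h5.1]
    have h6' : cen S ≤ cen T + r := by
      by_contra hcon
      have h7 : cen T + r + 1 ≤ cen S := by omega
      have h8 : (cen T : ℝ) + r + 1 ≤ cen S := by exact_mod_cast h7
      have h9 := Nat.lt_floor_add_one (2 * t * ((k : ℝ) - 1))
      rw [← hr] at h9
      linarith [h5.2]
    omega
  · rw [mul_div_assoc, ← Real.sqrt_div (by positivity)]
    apply mul_le_mul_of_nonneg_left _ (by norm_num)
    apply Real.sqrt_le_sqrt
    rw [div_le_iff₀ (by linarith)]
    have h2 : (r : ℝ) ≤ 2 * t * ((k : ℝ) - 1) := Nat.floor_le hr0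
    push_cast
    have h3 : (4 * t + 1 / k) * (k : ℝ) = 4 * t * k + 1 := by field_simp
    rw [h3]
    nlinarith

/-- lower bound for the mean seed distance -/
lemma expSeedDist_ge (hk : 100 ≤ k) {t : ℝ} (ht : 0 < t) :
    1 - 2 / (((k : ℝ) - 1) * t ^ 2) - 2 * ((16 * 40 ^ 6 : ℝ) / Real.sqrt k)
      - 200000 * Real.sqrt (4 * t + 1 / k) ≤ expSeedDist k := by
  have hk' : (100 : ℝ) ≤ k := by exact_mod_cast hk
  set N : ℝ := ((trees k).card : ℝ) with hN
  have hN0 : 0 < N := by
    rw [hN, card_trees_eq (by omega)]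
    positivity
  set η : ℝ := 2 / (((k : ℝ) - 1) * t ^ 2) with hη
  have hη0 : 0 ≤ η := by
    apply div_nonneg (by norm_num)
    apply mul_nonneg (by linarith) (by positivity)
  set p4 : ℝ := treeProb k (fun T => FourSplit T (k / 20)) with hp4
  have hp4le : p4 ≤ (16 * 40 ^ 6 : ℝ) / Real.sqrt k := prob_four k (by omega)
  set W : ℝ := 200000 * Real.sqrt (4 * t + 1 / k) with hW
  -- pointwise bound
  obtain ⟨c0, hc0⟩ : ∃ c0 : ℝ, c0 = 1 - η := ⟨_, rfl⟩
  have hpt : ∀ S ∈ trees k, ∀ T ∈ trees k, c0 - (if FourSplit S (k / 20) then 1 else 0)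
      - (if FourSplit T (k / 20) then 1 else 0)
      - (if Win t S T then 1 else 0) ≤ seedDist S T := by
    intro S hS T hT
    rw [mem_trees] at hS hT
    have h0 := seedDist_nonneg hS hT (by omega)
    by_cases hS4 : FourSplit S (k / 20)
    · rw [if_pos hS4]
      have a1 : (0 : ℝ) ≤ (if FourSplit T (k / 20) then 1 else 0) := by split_ifs <;> norm_num
      have a2 : (0 : ℝ) ≤ (if Win t S T then 1 else 0) := by
        split_ifs <;> norm_num
      linarith
    · by_cases hT4 : FourSplit T (k / 20)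
      · rw [if_neg hS4, if_pos hT4]
        have a2 : (0 : ℝ) ≤ (if Win t S T then 1 else 0) := by
          split_ifs <;> norm_num
        linarith
      · rw [if_neg hS4, if_neg hT4]
        by_cases hz : |zstat S - zstat T| ≤ 2 * t
        · rw [if_pos ⟨hT4, hz⟩]; linarith
        · rw [if_neg (fun h => hz h.2)]
          have := seedDist_ge hS hT hk hS4 hT4 ht (not_le.mp hz)
          linarith
  have hsum : N * (N * c0) - N * (p4 * N) - N * (p4 * N) - N * (W * N) ≤
      ∑ S ∈ trees k, ∑ T ∈ trees k, seedDist S T := by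
    have h1 : ∑ S ∈ trees k, ∑ T ∈ trees k, (c0 - (if FourSplit S (k / 20) then 1 else 0)
      - (if FourSplit T (k / 20) then 1 else 0)
      - (if Win t S T then (1 : ℝ) else 0)) ≤
        ∑ S ∈ trees k, ∑ T ∈ trees k, seedDist S T :=
      sum_le_sum fun S hS => sum_le_sum fun T hT => hpt S hS T hT
    refine le_trans ?_ h1
    simp only [sum_sub_distrib]
    have e1 : ∑ S ∈ trees k, ∑ T ∈ trees k, c0 = N * (N * c0) := by
      rw [sum_const, sum_const, nsmul_eq_mul, nsmul_eq_mul]
    have e2 : ∑ S ∈ trees k, ∑ T ∈ trees k, (if FourSplit S (k / 20) then (1 : ℝ) else 0)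
        = N * (p4 * N) := by
      rw [sum_comm]
      rw [sum_congr rfl (fun T _ => sum_trees_ite (by omega) (fun S => FourSplit S (k / 20))),
        sum_const, nsmul_eq_mul]
    have e3 : ∑ S ∈ trees k, ∑ T ∈ trees k, (if FourSplit T (k / 20) then (1 : ℝ) else 0)
        = N * (p4 * N) := by
      rw [sum_congr rfl (fun T _ => sum_trees_ite (by omega) (fun S => FourSplit S (k / 20))),
        sum_const, nsmul_eq_mul]
    have e4 : ∑ S ∈ trees k, ∑ T ∈ trees k,
        (if Win t S T then (1 : ℝ) else 0)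
        ≤ N * (W * N) := by
      calc _ ≤ ∑ S ∈ trees k, W * N := by
            refine sum_le_sum fun S _ => ?_
            rw [sum_trees_ite (by omega) (Win t S)]
            exact mul_le_mul_of_nonneg_right (window hk S ht) hN0.le
        _ = _ := by rw [sum_const, nsmul_eq_mul]
    linarith
  unfold expSeedDist
  rw [le_div_iff₀ (by positivity)]
  refine le_trans ?_ hsum
  rw [hc0]
  have h2 : (1 - η - 2 * ((16 * 40 ^ 6 : ℝ) / Real.sqrt k) - W) * N ^ 2 ≤
      (1 - η - 2 * p4 - W) * N ^ 2 := by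
    apply mul_le_mul_of_nonneg_right _ (by positivity)
    linarith
  linarith

lemma expSeedDist_le (hk : 2 ≤ k) : expSeedDist k ≤ 1 := by
  unfold expSeedDist
  have hk0 : (0 : ℝ) < k := by exact_mod_cast (by omega : 0 < k)
  have hN0 : (0 : ℝ) < ((trees k).card : ℝ) := by
    rw [card_trees_eq (by omega)]
    positivity
  rw [div_le_one (by positivity)]
  calc ∑ S ∈ trees k, ∑ T ∈ trees k, seedDist S T ≤ ∑ S ∈ trees k, ∑ T ∈ trees k, (1 : ℝ) :=
        sum_le_sum fun S hS => sum_le_sum fun T hT =>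
          seedDist_le_one (mem_trees.mp hS) (mem_trees.mp hT) hk
    _ = _ := by simp [sq]

lemma expSeedDist_nonneg (hk : 2 ≤ k) : 0 ≤ expSeedDist k := by
  unfold expSeedDist
  apply div_nonneg _ (by positivity)
  exact sum_nonneg fun S hS => sum_nonneg fun T hT =>
    seedDist_nonneg (mem_trees.mp hS) (mem_trees.mp hT) hk

/-- an explicit rate of convergence -/
theorem expSeedDist_rate (hk : 2 ≤ k) :
    1 - 2 * 10 ^ 11 * (k : ℝ) ^ (-(1 / 5) : ℝ) ≤ expSeedDist k := by
  have hk0 : (0 : ℝ) < k := by exact_mod_cast (by omega : 0 < k)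
  have hk1 : (1 : ℝ) ≤ k := by exact_mod_cast (by omega : 1 ≤ k)
  set s : ℝ := (k : ℝ) ^ (-(1 / 5) : ℝ) with hs
  have hs0 : 0 < s := Real.rpow_pos_of_pos hk0 _
  have hs1 : s ≤ 1 := Real.rpow_le_one_of_one_le_of_nonpos hk1 (by norm_num)
  have hs5 : (k : ℝ) * s ^ 5 = 1 := by
    rw [hs, ← Real.rpow_natCast ((k : ℝ) ^ (-(1 / 5) : ℝ)) 5, ← Real.rpow_mul hk0.le]
    have : (-(1 / 5) : ℝ) * ((5 : ℕ) : ℝ) = -1 := by norm_num
    rw [this, Real.rpow_neg_one, mul_inv_cancel₀ hk0.ne']
  have hinv : 1 / (k : ℝ) = s ^ 5 := by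
    rw [div_eq_iff hk0.ne', mul_comm]; exact hs5.symm
  have hs52 : s ^ 5 ≤ s ^ 2 := pow_le_pow_of_le_one hs0.le hs1 (by norm_num)
  have hs51 : s ^ 5 ≤ s := by
    calc s ^ 5 ≤ s ^ 1 := pow_le_pow_of_le_one hs0.le hs1 (by norm_num)
      _ = s := pow_one s
  by_cases hk100 : 100 ≤ k
  · have hk' : (100 : ℝ) ≤ k := by exact_mod_cast hk100
    have h := expSeedDist_ge hk100 (t := s ^ 2) (by positivity)
    have h1 : 2 / (((k : ℝ) - 1) * (s ^ 2) ^ 2) ≤ 4 * s := by
      have hk1' : (0 : ℝ) < (k : ℝ) - 1 := by linarith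
      rw [div_le_iff₀ (by positivity)]
      have e : 4 * s * (((k : ℝ) - 1) * (s ^ 2) ^ 2) = 4 * (k * s ^ 5) - 4 * s ^ 5 := by ring
      rw [e, hs5, ← hinv]
      have : 1 / (k : ℝ) ≤ 1 / 2 := by
        apply one_div_le_one_div_of_le <;> linarith
      linarith
    have h2 : (16 * 40 ^ 6 : ℝ) / Real.sqrt k ≤ 16 * 40 ^ 6 * s := by
      rw [div_eq_mul_inv]
      apply mul_le_mul_of_nonneg_left _ (by norm_num)
      rw [← Real.sqrt_inv, ← one_div, hinv]
      rw [show s = Real.sqrt (s ^ 2) from (Real.sqrt_sq hs0.le).symm]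
      apply Real.sqrt_le_sqrt
      rw [Real.sqrt_sq hs0.le]
      exact hs52
    have h3 : Real.sqrt (4 * s ^ 2 + 1 / k) ≤ 3 * s := by
      rw [show 3 * s = Real.sqrt ((3 * s) ^ 2) from (Real.sqrt_sq (by positivity)).symm]
      apply Real.sqrt_le_sqrt
      rw [hinv]
      nlinarith
    have h4 : (40 : ℝ) ^ 6 = 4096000000 := by norm_num
    rw [h4] at h h2
    linarith
  · have h := expSeedDist_nonneg hk
    have hk2 : (k : ℝ) ≤ 100 := by exact_mod_cast (by omega : k ≤ 100)
    have h1 : 1 / 100 ≤ 1 / (k : ℝ) := one_div_le_one_div_of_le hk0 hk2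
    rw [hinv] at h1
    have h2 : 1 / 100 ≤ s := h1.trans hs51
    linarith

/-- `lim E δ(T_k, R_k) = 1`. -/
theorem tendsto_expSeedDist : Tendsto expSeedDist atTop (𝓝 1) := by
  rw [tendsto_order]
  constructor
  · intro a ha
    set ε : ℝ := 1 - a with hε
    have hε0 : 0 < ε := by linarith
    set t : ℝ := (ε / 800000) ^ 2 / 8 with ht
    have ht0 : 0 < t := by positivity
    have e1 : Tendsto (fun k : ℕ => 2 / (((k : ℝ) - 1) * t ^ 2)) atTop (𝓝 0) := by
      apply Tendsto.const_div_atTop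
      apply Tendsto.atTop_mul_const (by positivity)
      exact tendsto_atTop_add_const_right _ _ tendsto_natCast_atTop_atTop
    have e2 : Tendsto (fun k : ℕ => 2 * ((16 * 40 ^ 6 : ℝ) / Real.sqrt k)) atTop (𝓝 0) := by
      have : Tendsto (fun k : ℕ => ((16 * 40 ^ 6 : ℝ) / Real.sqrt k)) atTop (𝓝 0) := by
        apply Tendsto.const_div_atTop
        exact Real.tendsto_sqrt_atTop.comp tendsto_natCast_atTop_atTop
      simpa using this.const_mul 2
    have e3 : Tendsto (fun k : ℕ => 1 / (k : ℝ)) atTop (𝓝 0) :=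
      tendsto_const_nhds.div_atTop tendsto_natCast_atTop_atTop
    filter_upwards [eventually_ge_atTop 100, (tendsto_order.mp e1).2 (ε / 4) (by positivity),
      (tendsto_order.mp e2).2 (ε / 4) (by positivity),
      (tendsto_order.mp e3).2 (4 * t) (by positivity)] with k hk h1 h2 h3
    refine lt_of_lt_of_le ?_ (expSeedDist_ge hk ht0)
    have h4 : Real.sqrt (4 * t + 1 / k) ≤ ε / 800000 := by
      rw [show ε / 800000 = Real.sqrt ((ε / 800000) ^ 2) from (Real.sqrt_sq (by positivity)).symm]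
      apply Real.sqrt_le_sqrt
      have : 8 * t = (ε / 800000) ^ 2 := by rw [ht]; ring
      linarith
    linarith
  · intro a ha
    filter_upwards [eventually_ge_atTop 2] with k hk
    exact lt_of_le_of_lt (expSeedDist_le hk) ha

end Pool.Agent.MP_b12932_pr
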