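import Pool.Agent.Lib.MP_b12932_pr.Attach

/-!
# The preferential attachment tree: law, expectations, concentration of branch weights
-/

set_option autoImplicit false

open Finset

namespace Pool.Agent.MP_b12932_pr

open SimpleGraph Classical

/-- expectation -/
noncomputable def paExp {k : ℕ} (T : SimpleGraph (Fin k)) (j : ℕ)
    (f : SimpleGraph (Fin (k + j)) → ℝ) : ℝ := ∑ G, paLaw T j G * f G

variable {k : ℕ} {T : SimpleGraph (Fin k)}

lemma paExp_zero (f : SimpleGraph (Fin k) → ℝ) : paExp T 0 f = f T := by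
  unfold paExp
  refine (sum_eq_single (T : SimpleGraph (Fin (k + 0))) ?_ ?_).trans ?_
  · intro b _ hb
    unfold paLaw
    rw [if_neg hb, zero_mul]
  · intro h; exact absurd (mem_univ _) h
  · unfold paLaw
    rw [if_pos rfl, one_mul]

lemma paExp_succ (j : ℕ) (f : SimpleGraph (Fin (k + (j + 1))) → ℝ) :
    paExp T (j + 1) f = paExp T j (fun G => ∑ v, ((G.degree v : ℝ) / (2 * (((k + j : ℕ) : ℝ) - 1))) *
      f (attach G v)) := by
  unfold paExp
  simp only [paLaw]
  simp only [sum_mul]
  rw [sum_comm]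
  refine sum_congr rfl fun G _ => ?_
  rw [sum_comm, mul_sum]
  refine sum_congr rfl fun v _ => ?_
  refine (sum_eq_single (attach G v) ?_ ?_).trans ?_
  · intro b _ hb
    rw [if_neg (Ne.symm hb), zero_mul]
  · intro h; exact absurd (mem_univ _) h
  · rw [if_pos rfl, mul_assoc]

lemma paLaw_nonneg (hk : 1 ≤ k) (j : ℕ) (G : SimpleGraph (Fin (k + j))) : 0 ≤ paLaw T j G := by
  induction j with
  | zero => unfold paLaw; split_ifs <;> norm_num
  | succ j ih =>
    unfold paLaw
    refine sum_nonneg fun G _ => sum_nonneg fun v _ => ?_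
    split_ifs
    · refine mul_nonneg (ih G) (div_nonneg (Nat.cast_nonneg _) ?_)
      have : (1 : ℝ) ≤ ((k + j : ℕ) : ℝ) := by exact_mod_cast (by omega : 1 ≤ k + j)
      linarith
    · exact le_refl _

lemma paLaw_support (j : ℕ) (G : SimpleGraph (Fin (k + j))) (h : paLaw T j G ≠ 0) : Grown T j G := by
  induction j with
  | zero =>
    unfold paLaw at h
    by_cases hG : G = T
    · subst hG; exact Grown.zero
    · rw [if_neg hG] at h; exact absurd rfl h
  | succ j ih =>
    unfold paLaw at h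
    obtain ⟨H, _, hH⟩ := exists_ne_zero_of_sum_ne_zero h
    obtain ⟨v, _, hv⟩ := exists_ne_zero_of_sum_ne_zero hH
    by_cases hG : attach H v = G
    · subst hG
      rw [if_pos rfl] at hv
      exact Grown.succ j H v (ih H (left_ne_zero_of_mul hv))
    · rw [if_neg hG] at hv; exact absurd rfl hv

lemma paExp_mono (hk : 1 ≤ k) (j : ℕ) {f g : SimpleGraph (Fin (k + j)) → ℝ}
    (h : ∀ G, Grown T j G → f G ≤ g G) : paExp T j f ≤ paExp T j g := by
  unfold paExp
  refine sum_le_sum fun G _ => ?_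
  by_cases hG : paLaw T j G = 0
  · rw [hG, zero_mul, zero_mul]
  · exact mul_le_mul_of_nonneg_left (h G (paLaw_support j G hG)) (paLaw_nonneg hk j G)

lemma paExp_congr (hk : 1 ≤ k) (j : ℕ) {f g : SimpleGraph (Fin (k + j)) → ℝ}
    (h : ∀ G, Grown T j G → f G = g G) : paExp T j f = paExp T j g :=
  le_antisymm (paExp_mono hk j fun G hG => (h G hG).le) (paExp_mono hk j fun G hG => (h G hG).ge)

lemma sum_degree_div {n : ℕ} {G : SimpleGraph (Fin n)} (hG : G.IsTree) (hn : 2 ≤ n) :
    ∑ v, (G.degree v : ℝ) / (2 * ((n : ℝ) - 1)) = 1 := by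
  have h := degSum_univ hG
  unfold degSum at h
  rw [Fintype.card_fin] at h
  have h2 : ∑ v, (G.degree v : ℝ) = 2 * ((n : ℝ) - 1) := by
    have : ((∑ w, G.degree w + 2 : ℕ) : ℝ) = ((2 * n : ℕ) : ℝ) := by rw [h]
    push_cast at this
    linarith
  rw [← sum_div, h2, div_self]
  have : (2 : ℝ) ≤ n := by exact_mod_cast hn
  linarith

lemma paExp_one (hT : T.IsTree) (hk : 2 ≤ k) (j : ℕ) : paExp T j (fun _ => 1) = 1 := by
  induction j with
  | zero => exact paExp_zero (fun _ => 1)
  | succ j ih =>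
    rw [paExp_succ]
    refine Eq.trans (paExp_congr (by omega) j fun G hG => ?_) ih
    simp only [mul_one]
    exact sum_degree_div (hG.isTree hT) (by omega)

lemma paExp_add (j : ℕ) (f : SimpleGraph (Fin (k + j)) → ℝ) (c : ℝ) (hT : T.IsTree) (hk : 2 ≤ k) :
    paExp T j (fun G => f G + c) = paExp T j f + c := by
  have h1 := paExp_one hT hk j
  unfold paExp at *
  simp only [mul_add, sum_add_distrib, mul_one] at *
  rw [← sum_mul, h1, one_mul]

section Potential

variable {J : Type} [Fintype J]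

/-- the class `a` of a colouring -/
noncomputable def cls {n : ℕ} {J : Type} (f : Fin n → J) (a : J) : Finset (Fin n) :=
  univ.filter (fun w => f w = a)

omit [Fintype J] in
@[simp] lemma mem_cls {n : ℕ} (f : Fin n → J) (a : J) (w : Fin n) : w ∈ cls f a ↔ f w = a := by
  simp [cls]

/-- proportion of the degrees carried by the class `a` of a colouring -/
noncomputable def prop {n : ℕ} (G : SimpleGraph (Fin n)) (f : Fin n → J) (a : J) : ℝ :=
  (degSum G (cls f a) : ℝ) / (2 * ((n : ℝ) - 1))

omit [Fintype J] in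
lemma prop_nonneg {n : ℕ} (G : SimpleGraph (Fin n)) (hn : 1 ≤ n) (f : Fin n → J) (a : J) :
    0 ≤ prop G f a := by
  unfold prop
  have : (1 : ℝ) ≤ n := by exact_mod_cast hn
  refine div_nonneg (Nat.cast_nonneg _) (by linarith)

omit [Fintype J] in
lemma degSum_filter_cast {n : ℕ} (G : SimpleGraph (Fin n)) (f : Fin n → J) (a : J) :
    (degSum G (cls f a) : ℝ) = ∑ v, if f v = a then (G.degree v : ℝ) else 0 := by
  unfold degSum cls
  rw [sum_filter]
  push_cast
  refine sum_congr rfl fun v _ => ?_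
  split_ifs <;> simp

lemma sum_prop {n : ℕ} {G : SimpleGraph (Fin n)} (hG : G.IsTree) (hn : 2 ≤ n) (f : Fin n → J) :
    ∑ a, prop G f a = 1 := by
  have h1 : ∑ a, prop G f a = (∑ a, ∑ v, if f v = a then (G.degree v : ℝ) else 0) /
      (2 * ((n : ℝ) - 1)) := by
    rw [sum_div]
    refine sum_congr rfl fun a _ => ?_
    unfold prop
    rw [degSum_filter_cast]
  have h2 : ∑ a, ∑ v, (if f v = a then (G.degree v : ℝ) else 0) = ∑ v, (G.degree v : ℝ) := by
    rw [sum_comm]
    refine sum_congr rfl fun v _ => ?_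
    rw [sum_ite_eq univ (f v)]
    simp
  rw [h1, h2, sum_div]
  exact sum_degree_div hG hn

/-- the potential -/
noncomputable def pot {n : ℕ} (G : SimpleGraph (Fin n)) (f : Fin n → J) (y : J → ℝ) : ℝ :=
  ∑ a, (prop G f a - y a) ^ 2

/-- one step of the preferential attachment process -/
lemma pot_step {n : ℕ} {G : SimpleGraph (Fin n)} (hG : G.IsTree) (hn : 2 ≤ n) (f : Fin n → J)
    (f' : Fin n → Fin (n + 1) → J) (hf : ∀ v w, f' v w.castSucc = f w)
    (hl : ∀ v, f' v (Fin.last n) = f v) (y : J → ℝ) :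
    ∑ v, ((G.degree v : ℝ) / (2 * ((n : ℝ) - 1))) * pot (attach G v) (f' v) y ≤
      pot G f y + 1 / (n : ℝ) ^ 2 := by
  have hn' : (2 : ℝ) ≤ n := by exact_mod_cast hn
  set D : ℝ := 2 * ((n : ℝ) - 1) with hD
  have hD0 : 0 < D := by linarith
  have hn0 : (0 : ℝ) < n := by linarith
  have hkey : ∀ a, ∑ v, ((G.degree v : ℝ) / D) * (prop (attach G v) (f' v) a - y a) ^ 2 =
      (prop G f a - y a) ^ 2 + (1 / (n : ℝ) ^ 2) * (prop G f a - prop G f a ^ 2) := by
    intro a
    set W : ℝ := (degSum G (cls f a) : ℝ) with hW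
    have h1 : ∀ v, prop (attach G v) (f' v) a =
        W / (2 * n) + (if f v = a then 1 / (n : ℝ) else 0) := by
      intro v
      unfold prop
      have e0 : degSum (attach G v) (cls (f' v) a) = degSum G (cls f a) + if f v = a then 2 else 0 :=
        degSum_attach f (f' v) (hf v) (hl v) a
      rw [e0]
      push_cast
      rw [← hW]
      have e : 2 * ((n : ℝ) + 1 - 1) = 2 * n := by ring
      rw [e]
      split_ifs
      · field_simp
      · field_simp
        ring
    have h2 : ∑ v, (G.degree v : ℝ) / D = 1 := sum_degree_div hG hn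
    have h3 : ∑ v, (if f v = a then (G.degree v : ℝ) else 0) = W := by
      rw [hW, degSum_filter_cast]
    have h4 : prop G f a = W / D := rfl
    have h5 : ∀ v, ((G.degree v : ℝ) / D) * (prop (attach G v) (f' v) a - y a) ^ 2 =
        ((G.degree v : ℝ) / D) * (W / (2 * n) - y a) ^ 2 +
        (if f v = a then (G.degree v : ℝ) else 0) *
          ((2 * (W / (2 * n) - y a) * (1 / n) + (1 / n) ^ 2) / D) := by
      intro v
      rw [h1 v]
      split_ifs <;> ring
    rw [sum_congr rfl (fun v _ => h5 v), sum_add_distrib, ← sum_mul, ← sum_mul, h2, h3, h4]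
    have e2 : (n : ℝ) = (D + 2) / 2 := by rw [hD]; ring
    rw [e2]
    field_simp
    ring
  unfold pot
  simp only [mul_sum]
  rw [sum_comm]
  rw [sum_congr rfl (fun a _ => hkey a), sum_add_distrib, ← mul_sum]
  have h6 : ∑ a, (prop G f a - prop G f a ^ 2) ≤ 1 := by
    rw [← sum_prop hG hn f]
    refine sum_le_sum fun a _ => ?_
    have := sq_nonneg (prop G f a)
    linarith
  have h7 : 0 ≤ 1 / (n : ℝ) ^ 2 := by positivity
  have := mul_le_mul_of_nonneg_left h6 h7
  linarith

/-- the second moment bound -/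
lemma paExp_pot_le (hT : T.IsTree) (hk : 2 ≤ k)
    (col : (j : ℕ) → SimpleGraph (Fin (k + j)) → Fin (k + j) → J)
    (hcol : ∀ (j : ℕ) (G : SimpleGraph (Fin (k + j))) (v : Fin (k + j)), Grown T j G →
      (∀ w : Fin (k + j), col (j + 1) (attach G v) w.castSucc = col j G w) ∧
      col (j + 1) (attach G v) (Fin.last (k + j)) = col j G v) (j : ℕ) :
    paExp T j (fun G => pot G (col j G) (prop T (col 0 T))) ≤
      1 / ((k : ℝ) - 1) - 1 / (((k + j : ℕ) : ℝ) - 1) := by
  have hk' : (2 : ℝ) ≤ k := by exact_mod_cast hk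
  induction j with
  | zero =>
    rw [paExp_zero (f := fun G => pot G (col 0 G) (prop T (col 0 T)))]
    simp [pot]
  | succ j ih =>
    rw [paExp_succ]
    have h1 : paExp T j (fun G => ∑ v, ((G.degree v : ℝ) / (2 * (((k + j : ℕ) : ℝ) - 1))) *
        pot (attach G v) (col (j + 1) (attach G v)) (prop T (col 0 T))) ≤
        paExp T j (fun G => pot G (col j G) (prop T (col 0 T)) + 1 / ((k + j : ℕ) : ℝ) ^ 2) := by
      apply paExp_mono (by omega)
      intro G hG
      exact pot_step (hG.isTree hT) (by omega) (col j G) (fun v => col (j + 1) (attach G v))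
        (fun v w => (hcol j G v hG).1 w) (fun v => (hcol j G v hG).2) _
    refine h1.trans ?_
    rw [paExp_add j _ _ hT hk]
    have hn : (2 : ℝ) ≤ ((k + j : ℕ) : ℝ) := by exact_mod_cast (by omega : 2 ≤ k + j)
    have e1 : (((k + (j + 1) : ℕ) : ℝ) - 1) = ((k + j : ℕ) : ℝ) := by push_cast; ring
    rw [e1]
    set N : ℝ := ((k + j : ℕ) : ℝ) with hN
    have h2 : 1 / N ^ 2 ≤ 1 / (N - 1) - 1 / N := by
      rw [div_sub_div _ _ (by linarith) (by linarith), div_le_div_iff₀ (by positivity) (by nlinarith)]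
      nlinarith
    linarith

end Potential

end Pool.Agent.MP_b12932_pr
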