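import Pool.Agent.Lib.MP_b12932_pr.Cayley

/-!
# First moment bounds for separated colourings of random labelled trees
-/

set_option autoImplicit false

open Finset

namespace Pool.Agent.MP_b12932_pr

open SimpleGraph Classical Nat

/-- The number of colourings with prescribed class sizes is at most the multinomial coefficient. -/
lemma count_fibers_le {J : Type} [Fintype J] : ∀ (N : ℕ) (g : J → ℕ),
    (univ.filter (fun P : Fin N → J => ∀ j, (univ.filter (fun i => P i = j)).card = g j)).card
      * ∏ j, (g j)! ≤ N ! := by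
  intro N
  induction N with
  | zero =>
    intro g
    by_cases hg : ∀ j, g j = 0
    · have : ∏ j, (g j)! = 1 := prod_eq_one fun j _ => by rw [hg j, factorial_zero]
      rw [this, mul_one]
      refine (card_le_univ _).trans ?_
      simp
    · have : (univ.filter (fun P : Fin 0 → J => ∀ j, (univ.filter (fun i => P i = j)).card = g j)).card = 0 := by
        rw [Finset.card_eq_zero, filter_eq_empty_iff]
        intro P _ h
        apply hg
        intro j
        rw [← h j]
        simp
      rw [this]; simp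
  | succ N ih =>
    intro g
    by_cases hsum : ∑ j, g j = N + 1
    · have h1 : (univ.filter (fun P : Fin (N+1) → J =>
            ∀ j, (univ.filter (fun i => P i = j)).card = g j)).card
          = ∑ j0 : J, (univ.filter (fun P : Fin N → J =>
            ∀ j, (univ.filter (fun i => (Fin.cons j0 P : Fin (N+1) → J) i = j)).card = g j)).card := by
        rw [card_filter]
        simp_rw [card_filter]
        rw [← Fintype.sum_prod_type']
        exact (Equiv.sum_comp (Fin.consEquiv (fun _ : Fin (N+1) => J)) (fun P =>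
          if ∀ j, (∑ i, if P i = j then 1 else 0) = g j then 1 else 0)).symm
      rw [h1, sum_mul]
      have h2 : ∀ j0 : J, (univ.filter (fun P : Fin N → J =>
            ∀ j, (univ.filter (fun i => (Fin.cons j0 P : Fin (N+1) → J) i = j)).card = g j)).card
            * ∏ j, (g j)! ≤ g j0 * N ! := by
        intro j0
        rcases Nat.eq_zero_or_pos (g j0) with h0 | hpos
        · have : (univ.filter (fun P : Fin N → J =>
            ∀ j, (univ.filter (fun i => (Fin.cons j0 P : Fin (N+1) → J) i = j)).card = g j)).card = 0 := by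
            rw [Finset.card_eq_zero, filter_eq_empty_iff]
            intro P _ h
            have := h j0
            rw [h0, Finset.card_eq_zero, filter_eq_empty_iff] at this
            exact this (mem_univ 0) (by simp)
          rw [this]; simp
        · obtain ⟨g', hg'⟩ : ∃ g', g j0 = g' + 1 := ⟨g j0 - 1, by omega⟩
          have hsub : (univ.filter (fun P : Fin N → J =>
              ∀ j, (univ.filter (fun i => (Fin.cons j0 P : Fin (N+1) → J) i = j)).card = g j))
              ⊆ (univ.filter (fun P : Fin N → J =>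
                ∀ j, (univ.filter (fun i => P i = j)).card = (Function.update g j0 g') j)) := by
            intro P hP
            rw [mem_filter] at hP ⊢
            refine ⟨mem_univ _, fun j => ?_⟩
            have h3 := hP.2 j
            rw [Fin.card_filter_univ_succ] at h3
            simp only [Fin.cons_zero, Fin.cons_succ] at h3
            by_cases hj : j = j0
            · subst hj
              rw [Function.update_self]
              simp only [if_true] at h3
              omega
            · rw [Function.update_of_ne hj]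
              rw [if_neg (Ne.symm hj)] at h3
              exact h3
          have hprod : ∏ j, (g j)! = (g' + 1) * ∏ j, (Function.update g j0 g' j)! := by
            rw [← mul_prod_erase univ (fun j => (g j)!) (mem_univ j0),
              ← mul_prod_erase univ (fun j => (Function.update g j0 g' j)!) (mem_univ j0)]
            have : ∏ x ∈ univ.erase j0, (Function.update g j0 g' x)! = ∏ x ∈ univ.erase j0, (g x)! := by
              refine prod_congr rfl fun x hx => ?_
              rw [Function.update_of_ne (ne_of_mem_erase hx)]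
            rw [this, Function.update_self, hg', factorial_succ]
            ring
          calc _ ≤ (univ.filter (fun P : Fin N → J =>
                ∀ j, (univ.filter (fun i => P i = j)).card = (Function.update g j0 g') j)).card
                * ∏ j, (g j)! := Nat.mul_le_mul_right _ (card_le_card hsub)
            _ = (g' + 1) * ((univ.filter (fun P : Fin N → J =>
                ∀ j, (univ.filter (fun i => P i = j)).card = (Function.update g j0 g') j)).card
                * ∏ j, (Function.update g j0 g' j)!) := by rw [hprod]; ring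
            _ ≤ (g' + 1) * N ! := Nat.mul_le_mul_left _ (ih _)
            _ = g j0 * N ! := by rw [hg']
      calc _ ≤ ∑ j0 : J, g j0 * N ! := sum_le_sum fun j0 _ => h2 j0
        _ = (N + 1)! := by rw [← sum_mul, hsum, factorial_succ]
    · have : (univ.filter (fun P : Fin (N+1) → J =>
          ∀ j, (univ.filter (fun i => P i = j)).card = g j)).card = 0 := by
        rw [Finset.card_eq_zero, filter_eq_empty_iff]
        intro P _ h
        apply hsum
        rw [← sum_congr rfl (fun j _ => h j)]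
        rw [← card_eq_sum_card_fiberwise (fun x _ => mem_univ (P x))]
        simp
      rw [this]; simp

/-- class sizes of a colouring of the vertices different from `x`. -/
noncomputable def sizes {V J : Type} [Fintype V] (x : V) (P : V → J) (j : J) : ℕ :=
  (univ.filter (fun v => v ≠ x ∧ P v = j)).card

lemma count_colourings_le {V J : Type} [Fintype V] [Fintype J] (x : V) (j0 : J) (g : J → ℕ) (N : ℕ)
    (hN : Fintype.card V = N + 1) :
    (univ.filter (fun P : V → J => P x = j0 ∧ sizes x P = g)).card * ∏ j, (g j)! ≤ N ! := by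
  have hcard : Fintype.card {v : V // v ≠ x} = N := by
    rw [Fintype.card_subtype_compl, hN]; simp
  let e : {v : V // v ≠ x} ≃ Fin N := Fintype.equivFinOfCardEq hcard
  refine le_trans (Nat.mul_le_mul_right _ ?_) (count_fibers_le N g)
  apply card_le_card_of_injOn (fun P => fun i => P (e.symm i).1)
  · intro P hP
    rw [mem_coe, mem_filter] at hP ⊢
    refine ⟨mem_univ _, fun j => ?_⟩
    have h1 := congrFun hP.2.2 j
    rw [← h1]
    unfold sizes
    apply card_bij (fun i _ => (e.symm i).1)
    · intro i hi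
      rw [mem_filter] at hi ⊢
      exact ⟨mem_univ _, (e.symm i).2, hi.2⟩
    · intro i _ i' _ h
      exact e.symm.injective (Subtype.ext h)
    · intro v hv
      rw [mem_filter] at hv
      refine ⟨e ⟨v, hv.2.1⟩, ?_, by simp⟩
      rw [mem_filter]
      exact ⟨mem_univ _, by simpa using hv.2.2⟩
  · intro P hP P' hP' h
    rw [mem_coe, mem_filter] at hP hP'
    funext v
    by_cases hv : v = x
    · rw [hv, hP.2.1, hP'.2.1]
    · have := congrFun h (e ⟨v, hv⟩)
      simpa using this

/-- normalised number of trees hanging from a root with `g` other vertices -/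
noncomputable def tau (g : ℕ) : ℝ := ((g + 1 : ℕ) : ℝ) ^ (g - 1) / (g ! : ℝ)

lemma tau_nonneg (g : ℕ) : 0 ≤ tau g := by unfold tau; positivity

lemma card_exists_separated_le {V J : Type} [Fintype V] [Fintype J] [Nonempty J] (x : V) (g : J → ℕ)
    (N : ℕ) (hN : Fintype.card V = N + 1) (A : Finset (SimpleGraph V))
    (hA : ∀ T ∈ A, T.IsTree ∧ ∃ P : V → J, Separated T x P ∧ sizes x P = g) :
    (A.card : ℝ) ≤ (N ! : ℝ) * ∏ j, tau (g j) := by
  obtain ⟨j0⟩ := ‹Nonempty J›
  set PP := univ.filter (fun P : V → J => P x = j0 ∧ sizes x P = g) with hPP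
  let B : (V → J) → Finset (SimpleGraph V) := fun P =>
    univ.filter (fun T : SimpleGraph V => T.IsTree ∧ Separated T x P)
  have hsub : A ⊆ PP.biUnion B := by
    intro T hT
    obtain ⟨hT, P, hP, hs⟩ := hA T hT
    rw [mem_biUnion]
    refine ⟨fun v => if v = x then j0 else P v, ?_, ?_⟩
    · rw [hPP, mem_filter]
      refine ⟨mem_univ _, by simp, ?_⟩
      rw [← hs]
      funext j
      unfold sizes
      congr 1
      ext v
      simp only [mem_filter, mem_univ, true_and]
      constructor
      · rintro ⟨h1, h2⟩; rw [if_neg h1] at h2; exact ⟨h1, h2⟩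
      · rintro ⟨h1, h2⟩; rw [if_neg h1]; exact ⟨h1, h2⟩
    · rw [mem_filter]
      refine ⟨mem_univ _, hT, ?_⟩
      intro a b hab ha hb
      simp only [if_neg ha, if_neg hb]
      exact hP a b hab ha hb
  have h1 : ∀ P ∈ PP, (B P).card ≤ ∏ j, (g j + 1) ^ (g j - 1) := by
    intro P hP
    rw [hPP, mem_filter] at hP
    have h2 := card_separated_le x P
    rw [Nat.card_eq_fintype_card, Fintype.card_subtype] at h2
    refine h2.trans (le_of_eq ?_)
    refine prod_congr rfl fun j _ => ?_
    have := congrFun hP.2.2 j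
    unfold sizes at this
    rw [this]
  have h2 : A.card ≤ PP.card * ∏ j, (g j + 1) ^ (g j - 1) := by
    refine (card_le_card hsub).trans (card_biUnion_le.trans ?_)
    refine (sum_le_sum h1).trans ?_
    rw [sum_const, smul_eq_mul]
  have h3 := count_colourings_le x j0 g N hN
  rw [← hPP] at h3
  have h4 : ((PP.card : ℕ) : ℝ) ≤ (N ! : ℝ) / ∏ j, ((g j)! : ℝ) := by
    rw [le_div_iff₀ (by positivity)]
    exact_mod_cast h3
  calc (A.card : ℝ)
      ≤ ((PP.card * ∏ j, (g j + 1) ^ (g j - 1) : ℕ) : ℝ) := by exact_mod_cast h2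
    _ = (PP.card : ℝ) * ∏ j, ((g j + 1 : ℕ) : ℝ) ^ (g j - 1) := by push_cast; ring
    _ ≤ ((N ! : ℝ) / ∏ j, ((g j)! : ℝ)) * ∏ j, ((g j + 1 : ℕ) : ℝ) ^ (g j - 1) := by
        apply mul_le_mul_of_nonneg_right h4 (by positivity)
    _ = (N ! : ℝ) * ∏ j, tau (g j) := by
        unfold tau
        rw [prod_div_distrib]
        ring

/-- the weight `g ^ (-3/2)` -/
noncomputable def r32 (g : ℕ) : ℝ := 1 / ((g : ℝ) * Real.sqrt g)

lemma r32_nonneg (g : ℕ) : 0 ≤ r32 g := by unfold r32; positivity

lemma tau_le (g : ℕ) (hg : 1 ≤ g) : tau g ≤ 2 * Real.exp g * r32 g := by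
  have hg0 : (0 : ℝ) < g := by exact_mod_cast hg
  have h1 : ((g + 1 : ℕ) : ℝ) ^ (g - 1) ≤ Real.exp 1 * (g : ℝ) ^ (g - 1) := by
    have e1 : ((g + 1 : ℕ) : ℝ) = (1 + 1 / g) * g := by
      push_cast; field_simp
    rw [e1, mul_pow]
    apply mul_le_mul_of_nonneg_right _ (by positivity)
    have h2 : (1 + 1 / (g : ℝ)) ≤ Real.exp (1 / g) := by
      have := Real.add_one_le_exp (1 / (g : ℝ)); linarith
    calc (1 + 1 / (g : ℝ)) ^ (g - 1) ≤ (Real.exp (1 / g)) ^ (g - 1) :=
          pow_le_pow_left₀ (by positivity) h2 _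
      _ = Real.exp ((g - 1 : ℕ) * (1 / g)) := by rw [← Real.exp_nat_mul]
      _ ≤ Real.exp 1 := by
          apply Real.exp_le_exp.mpr
          rw [mul_one_div, div_le_one hg0]
          have : g - 1 ≤ g := Nat.sub_le _ _
          exact_mod_cast this
  have h3 := Stirling.le_factorial_stirling g
  have h4 : (g : ℝ) ^ g = (g : ℝ) ^ (g - 1) * g := by
    rw [← pow_succ]; congr 1; omega
  have h5 : Real.exp 1 ≤ 2 * Real.sqrt (2 * Real.pi) := by
    have h6 : Real.exp 1 < 2.7182818286 := Real.exp_one_lt_d9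
    have h7 : (2 : ℝ) ≤ Real.sqrt (2 * Real.pi) := by
      apply Real.le_sqrt_of_sq_le
      have := Real.pi_gt_three
      linarith
    linarith
  unfold tau
  rw [div_le_iff₀ (by positivity)]
  have h8 : Real.sqrt (2 * Real.pi * g) = Real.sqrt (2 * Real.pi) * Real.sqrt g := by
    rw [Real.sqrt_mul (by positivity)]
  have h9 : (0 : ℝ) < Real.sqrt g := Real.sqrt_pos.mpr hg0
  calc ((g + 1 : ℕ) : ℝ) ^ (g - 1) ≤ Real.exp 1 * (g : ℝ) ^ (g - 1) := h1
    _ ≤ 2 * Real.sqrt (2 * Real.pi) * (g : ℝ) ^ (g - 1) :=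
        mul_le_mul_of_nonneg_right h5 (by positivity)
    _ = 2 * Real.exp g * r32 g * (Real.sqrt (2 * Real.pi * g) * (g / Real.exp 1) ^ g) := by
        rw [div_pow, h4, h8, ← Real.exp_nat_mul]
        unfold r32
        simp only [mul_one]
        have : Real.exp (g : ℝ) ≠ 0 := Real.exp_ne_zero _
        field_simp
    _ ≤ 2 * Real.exp g * r32 g * (g ! : ℝ) := by
        apply mul_le_mul_of_nonneg_left h3
        have := r32_nonneg g
        positivity

lemma factorial_le (k : ℕ) (hk : 1 ≤ k) :
    (k ! : ℝ) ≤ Real.exp 1 * Real.sqrt k * (k / Real.exp 1) ^ k := by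
  obtain ⟨m, rfl⟩ : ∃ m, k = m + 1 := ⟨k - 1, by omega⟩
  have h1 := Stirling.stirlingSeq'_antitone (Nat.zero_le m)
  simp only [Function.comp_apply, Nat.succ_eq_add_one, zero_add] at h1
  rw [Stirling.stirlingSeq_one] at h1
  unfold Stirling.stirlingSeq at h1
  have hpos : (0 : ℝ) < Real.sqrt (2 * ((m + 1 : ℕ) : ℝ)) * (((m + 1 : ℕ) : ℝ) / Real.exp 1) ^ (m + 1) := by
    positivity
  rw [div_le_iff₀ hpos] at h1
  refine h1.trans (le_of_eq ?_)
  rw [Real.sqrt_mul (by norm_num)]
  have : Real.sqrt 2 ≠ 0 := by positivity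
  field_simp

/-- main normalised estimate -/
lemma split_ratio_le {J : Type} [Fintype J] (k : ℕ) (hk : 2 ≤ k) (g : J → ℕ) (hg : ∀ j, 1 ≤ g j)
    (hsum : ∑ j, g j = k - 1) :
    (k ! : ℝ) * ∏ j, tau (g j) ≤
      2 ^ (Fintype.card J) * ((k : ℝ) ^ 2 * Real.sqrt k) * (∏ j, r32 (g j)) * (k : ℝ) ^ (k - 2) := by
  have hk0 : (0 : ℝ) < k := by exact_mod_cast (by omega : 0 < k)
  have h1 : ∏ j, tau (g j) ≤ ∏ j, (2 * Real.exp (g j) * r32 (g j)) :=
    prod_le_prod (fun j _ => tau_nonneg _) (fun j _ => tau_le _ (hg j))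
  have h2 : ∏ j, (2 * Real.exp (g j) * r32 (g j))
      = 2 ^ (Fintype.card J) * Real.exp ((k : ℝ) - 1) * ∏ j, r32 (g j) := by
    rw [prod_mul_distrib, prod_mul_distrib, prod_const, Finset.card_univ, ← Real.exp_sum]
    congr 3
    rw [← Nat.cast_sum, hsum, Nat.cast_sub (by omega)]
    simp
  have h3 := factorial_le k (by omega)
  have h4 : (k : ℝ) ^ k = (k : ℝ) ^ (k - 2) * (k : ℝ) ^ 2 := by
    rw [← pow_add]; congr 1; omega
  have hr : 0 ≤ ∏ j, r32 (g j) := prod_nonneg fun j _ => r32_nonneg _
  calc (k ! : ℝ) * ∏ j, tau (g j)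
      ≤ (Real.exp 1 * Real.sqrt k * (k / Real.exp 1) ^ k) *
        (2 ^ (Fintype.card J) * Real.exp ((k : ℝ) - 1) * ∏ j, r32 (g j)) := by
        rw [h2] at h1
        exact mul_le_mul h3 h1 (prod_nonneg fun j _ => tau_nonneg _) (by positivity)
    _ = _ := by
        rw [div_pow, h4, ← Real.exp_nat_mul, Real.exp_sub]
        simp only [mul_one]
        have : Real.exp (k : ℝ) ≠ 0 := Real.exp_ne_zero _
        have : Real.exp 1 ≠ 0 := Real.exp_ne_zero _
        field_simp

/-- The proportion of labelled trees on `k` vertices having a given property. -/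
noncomputable def treeProb (k : ℕ) (Q : SimpleGraph (Fin k) → Prop) : ℝ :=
  (Nat.card {T : SimpleGraph (Fin k) // T.IsTree ∧ Q T} : ℝ) / (k : ℝ) ^ (k - 2)

lemma treeProb_eq (k : ℕ) (Q : SimpleGraph (Fin k) → Prop)
    [DecidablePred (fun T : SimpleGraph (Fin k) => T.IsTree ∧ Q T)] :
    treeProb k Q = ((univ.filter (fun T : SimpleGraph (Fin k) => T.IsTree ∧ Q T)).card : ℝ)
      / (k : ℝ) ^ (k - 2) := by
  unfold treeProb
  rw [Nat.card_eq_fintype_card, Fintype.card_subtype]

/-- First moment bound. -/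
theorem card_split_le {J : Type} [Fintype J] [Nonempty J] (k : ℕ) (hk : 2 ≤ k) (Γ : Finset (J → ℕ))
    (hΓ : ∀ g ∈ Γ, (∀ j, 1 ≤ g j) ∧ ∑ j, g j = k - 1) (A : Finset (SimpleGraph (Fin k)))
    (hA : ∀ T ∈ A, T.IsTree ∧ ∃ x, ∃ P : Fin k → J, Separated T x P ∧ sizes x P ∈ Γ) :
    (A.card : ℝ) ≤
      (2 ^ (Fintype.card J) * ((k : ℝ) ^ 2 * Real.sqrt k) * ∑ g ∈ Γ, ∏ j, r32 (g j))
        * (k : ℝ) ^ (k - 2) := by
  have hk0 : (0 : ℝ) < k := by exact_mod_cast (by omega : 0 < k)
  let B : Fin k → (J → ℕ) → Finset (SimpleGraph (Fin k)) := fun x g =>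
    univ.filter (fun T : SimpleGraph (Fin k) => T.IsTree ∧ ∃ P : Fin k → J, Separated T x P ∧ sizes x P = g)
  have hsub : A ⊆ (univ : Finset (Fin k)).biUnion (fun x => Γ.biUnion (fun g => B x g)) := by
    intro T hT
    obtain ⟨hT, x, P, hP, hs⟩ := hA T hT
    rw [mem_biUnion]
    refine ⟨x, mem_univ _, ?_⟩
    rw [mem_biUnion]
    refine ⟨sizes x P, hs, ?_⟩
    rw [mem_filter]
    exact ⟨mem_univ _, hT, P, hP, rfl⟩
  have h0 : A.card ≤ ∑ x : Fin k, ∑ g ∈ Γ, (B x g).card :=
    (card_le_card hsub).trans (card_biUnion_le.trans (sum_le_sum fun x _ => card_biUnion_le))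
  have h1 : (A.card : ℝ) ≤ ∑ x : Fin k, ∑ g ∈ Γ, ((B x g).card : ℝ) := by
    exact_mod_cast h0
  refine le_trans h1 ?_
  have h2 : ∀ x : Fin k, ∀ g ∈ Γ, ((B x g).card : ℝ) ≤ ((k-1)! : ℝ) * ∏ j, tau (g j) := by
    intro x g _
    apply card_exists_separated_le x g (k-1) (by rw [Fintype.card_fin]; omega)
    intro T hT
    exact (mem_filter.mp hT).2
  calc ∑ x : Fin k, ∑ g ∈ Γ, ((B x g).card : ℝ)
      ≤ ∑ x : Fin k, ∑ g ∈ Γ, ((k-1)! : ℝ) * ∏ j, tau (g j) :=
        sum_le_sum fun x _ => sum_le_sum fun g hg => h2 x g hg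
    _ = ∑ g ∈ Γ, (k ! : ℝ) * ∏ j, tau (g j) := by
        rw [sum_const, Finset.card_univ, Fintype.card_fin, nsmul_eq_mul, mul_sum]
        refine sum_congr rfl fun g _ => ?_
        have : (k ! : ℝ) = k * ((k-1)! : ℝ) := by
          rw [← Nat.mul_factorial_pred (by omega : k ≠ 0)]; push_cast; ring
        rw [this]; ring
    _ ≤ ∑ g ∈ Γ, 2 ^ (Fintype.card J) * ((k : ℝ) ^ 2 * Real.sqrt k) * (∏ j, r32 (g j)) * (k : ℝ) ^ (k - 2) :=
        sum_le_sum fun g hg => split_ratio_le k hk g (hΓ g hg).1 (hΓ g hg).2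
    _ = _ := by rw [mul_sum, sum_mul]

/-- First moment bound, as a probability. -/
theorem treeProb_split_le {J : Type} [Fintype J] [Nonempty J] (k : ℕ) (hk : 2 ≤ k) (Γ : Finset (J → ℕ))
    (hΓ : ∀ g ∈ Γ, (∀ j, 1 ≤ g j) ∧ ∑ j, g j = k - 1) :
    treeProb k (fun T => ∃ x, ∃ P : Fin k → J, Separated T x P ∧ sizes x P ∈ Γ) ≤
      2 ^ (Fintype.card J) * ((k : ℝ) ^ 2 * Real.sqrt k) * ∑ g ∈ Γ, ∏ j, r32 (g j) := by
  have hk0 : (0 : ℝ) < k := by exact_mod_cast (by omega : 0 < k)
  rw [treeProb_eq, div_le_iff₀ (by positivity)]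
  apply card_split_le k hk Γ hΓ
  intro T hT
  exact (mem_filter.mp hT).2

end Pool.Agent.MP_b12932_pr
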