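import Pool.Agent.Lib.MP_b12932_pr.Conc

/-!
# Total variation distance between unlabelled preferential attachment trees
-/

set_option autoImplicit false

open Finset Filter Topology

namespace Pool.Agent.MP_b12932_pr

open SimpleGraph Classical

variable {k : ℕ}

/-! ### Isomorphisms and attachment -/

/-- an isomorphism extends to the trees with one attached leaf. -/
noncomputable def attachEquiv {n : ℕ} (e : Fin n ≃ Fin n) : Fin (n + 1) ≃ Fin (n + 1) :=
  (finSuccEquivLast.trans (Equiv.optionCongr e)).trans finSuccEquivLast.symm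

@[simp] lemma attachEquiv_castSucc {n : ℕ} (e : Fin n ≃ Fin n) (a : Fin n) :
    attachEquiv e a.castSucc = (e a).castSucc := by simp [attachEquiv]

@[simp] lemma attachEquiv_last {n : ℕ} (e : Fin n ≃ Fin n) :
    attachEquiv e (Fin.last n) = Fin.last n := by simp [attachEquiv]

lemma attach_iso {n : ℕ} {G H : SimpleGraph (Fin n)} (e : G ≃g H) (v : Fin n) :
    Nonempty (attach G v ≃g attach H (e v)) := by
  refine ⟨⟨attachEquiv e.toEquiv, ?_⟩⟩
  intro a b
  induction a using Fin.lastCases with
  | last =>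
    induction b using Fin.lastCases with
    | last => simp only [SimpleGraph.irrefl]
    | cast b =>
      simp only [attachEquiv_castSucc, attachEquiv_last]
      rw [attach_adj_last', attach_adj_last']
      exact e.injective.eq_iff
  | cast a =>
    induction b using Fin.lastCases with
    | last =>
      simp only [attachEquiv_castSucc, attachEquiv_last]
      rw [attach_adj_last, attach_adj_last]
      exact e.injective.eq_iff
    | cast b =>
      simp only [attachEquiv_castSucc]
      rw [attach_adj_castSucc, attach_adj_castSucc]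
      exact e.map_adj_iff

lemma degree_iso {V W : Type} [Fintype V] [Fintype W] {G : SimpleGraph V} {H : SimpleGraph W}
    (e : G ≃g H) (v : V) : H.degree (e v) = G.degree v := by
  rw [degree_eq_sum, degree_eq_sum, ← e.toEquiv.sum_comp]
  refine sum_congr rfl fun x _ => ?_
  have : H.Adj (e v) (e.toEquiv x) ↔ G.Adj v x := e.map_adj_iff
  simp only [this]

lemma dist_iso_le {V W : Type} {G : SimpleGraph V} {H : SimpleGraph W}
    (e : G ≃g H) {a b : V} (h : G.Reachable a b) : H.dist (e a) (e b) ≤ G.dist a b := by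
  obtain ⟨p, hp⟩ := h.exists_walk_length_eq_dist
  have := dist_le (p.map e.toHom)
  rw [Walk.length_map, hp] at this
  exact this

lemma dist_iso {V W : Type} {G : SimpleGraph V} {H : SimpleGraph W}
    (e : G ≃g H) (a b : V) : H.dist (e a) (e b) = G.dist a b := by
  by_cases h : G.Reachable a b
  · apply le_antisymm (dist_iso_le e h)
    have h2 : H.Reachable (e a) (e b) := h.map e.toHom
    have := dist_iso_le e.symm h2
    rwa [e.symm_apply_apply, e.symm_apply_apply] at this
  · have h2 : ¬ H.Reachable (e a) (e b) := by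
      intro h2
      apply h
      have := h2.map e.symm.toHom
      have e1 : e.symm.toHom (e a) = a := e.symm_apply_apply a
      have e2 : e.symm.toHom (e b) = b := e.symm_apply_apply b
      rwa [e1, e2] at this
    rw [dist_eq_zero_of_not_reachable h, dist_eq_zero_of_not_reachable h2]

lemma cen_le_of_iso {V W : Type} [Fintype V] [Fintype W] [Nonempty V] {G : SimpleGraph V}
    {H : SimpleGraph W} (e : G ≃g H) : cen H ≤ cen G := by
  obtain ⟨c, hc⟩ := exists_cen G
  refine (cen_le H (e c)).trans ?_
  rw [← hc]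
  apply br_le
  intro y hy
  obtain ⟨z, rfl⟩ := e.surjective y
  have hz : G.Adj c z := e.map_adj_iff.mp hy
  have hcard : (side H (e z) (e c)).card = (side G z c).card := by
    symm
    apply card_bij (fun w _ => e w)
    · intro w hw
      rw [mem_side] at hw ⊢
      unfold OnSide at hw ⊢
      rwa [dist_iso e, dist_iso e]
    · intro a _ b _ hab
      exact e.injective hab
    · intro w hw
      obtain ⟨x, rfl⟩ := e.surjective w
      refine ⟨x, ?_, rfl⟩
      rw [mem_side] at hw ⊢
      unfold OnSide at hw ⊢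
      rwa [dist_iso e, dist_iso e] at hw
  rw [hcard]
  exact le_br hz

lemma cen_iso {V W : Type} [Fintype V] [Fintype W] [Nonempty V] {G : SimpleGraph V}
    {H : SimpleGraph W} (e : G ≃g H) : cen G = cen H := by
  have : Nonempty W := e.toEquiv.nonempty_congr.mp ‹_›
  exact le_antisymm (cen_le_of_iso e.symm) (cen_le_of_iso e)

lemma zstat_iso {n : ℕ} (hn : 1 ≤ n) {G H : SimpleGraph (Fin n)} (e : G ≃g H) :
    zstat G = zstat H := by
  have : Nonempty (Fin n) := ⟨⟨0, hn⟩⟩
  unfold zstat
  rw [cen_iso e]

/-! ### Expectations of isomorphism invariant functions -/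

lemma paExp_eq_paIso (T : SimpleGraph (Fin k)) (j : ℕ) (f : SimpleGraph (Fin (k + j)) → ℝ)
    (F : Unlabelled (k + j) → ℝ) (hF : ∀ G, f G = F (Quotient.mk _ G)) :
    paExp T j f = ∑ q, paIso T j q * F q := by
  unfold paExp paIso
  simp only [sum_mul]
  rw [sum_comm]
  refine sum_congr rfl fun G _ => ?_
  rw [sum_eq_single (Quotient.mk (isoSetoid (k + j)) G)]
  · rw [if_pos rfl, hF G]
  · intro b _ hb
    rw [if_neg (Ne.symm hb), zero_mul]
  · intro h; exact absurd (mem_univ _) h

/-- transition kernel -/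
noncomputable def ker {n : ℕ} (G : SimpleGraph (Fin n)) (q : Unlabelled (n + 1)) : ℝ :=
  ∑ v, ((G.degree v : ℝ) / (2 * ((n : ℝ) - 1))) *
    (if Quotient.mk (isoSetoid (n + 1)) (attach G v) = q then 1 else 0)

lemma ker_iso {n : ℕ} {G H : SimpleGraph (Fin n)} (e : G ≃g H) (q : Unlabelled (n + 1)) :
    ker G q = ker H q := by
  symm
  unfold ker
  rw [← e.toEquiv.sum_comp]
  refine sum_congr rfl fun v _ => ?_
  have h1 : H.degree (e.toEquiv v) = G.degree v := degree_iso e v
  have h2 : Quotient.mk (isoSetoid (n + 1)) (attach H (e.toEquiv v)) =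
      Quotient.mk (isoSetoid (n + 1)) (attach G v) := by
    apply Quotient.sound
    exact ⟨(attach_iso e v).some.symm⟩
  rw [h1, h2]

lemma sum_ker {n : ℕ} {G : SimpleGraph (Fin n)} (hG : G.IsTree) (hn : 2 ≤ n) :
    ∑ q, ker G q = 1 := by
  unfold ker
  rw [sum_comm]
  refine Eq.trans (sum_congr rfl fun v _ => ?_) (sum_degree_div hG hn)
  rw [← mul_sum, sum_ite_eq]
  simp

lemma ker_nonneg {n : ℕ} (hn : 1 ≤ n) (G : SimpleGraph (Fin n)) (q : Unlabelled (n + 1)) :
    0 ≤ ker G q := by
  unfold ker
  have : (1 : ℝ) ≤ n := by exact_mod_cast hn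
  refine sum_nonneg fun v _ => mul_nonneg (div_nonneg (Nat.cast_nonneg _) (by linarith)) ?_
  split_ifs <;> norm_num

/-- kernel on unlabelled graphs -/
noncomputable def kerQ {n : ℕ} (p : Unlabelled n) (q : Unlabelled (n + 1)) : ℝ := ker p.out q

lemma kerQ_mk {n : ℕ} (G : SimpleGraph (Fin n)) (q : Unlabelled (n + 1)) :
    kerQ (Quotient.mk (isoSetoid n) G) q = ker G q := by
  unfold kerQ
  obtain ⟨e⟩ := Quotient.mk_out (s := isoSetoid n) G
  exact ker_iso e q

lemma paIso_succ (T : SimpleGraph (Fin k)) (j : ℕ) (q : Unlabelled (k + (j + 1))) :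
    paIso T (j + 1) q = ∑ p, paIso T j p * kerQ p q := by
  have h1 : paIso T (j + 1) q = paExp T (j + 1)
      (fun G => if Quotient.mk (isoSetoid (k + (j + 1))) G = q then 1 else 0) := by
    unfold paIso paExp
    refine sum_congr rfl fun G _ => ?_
    beta_reduce
    by_cases h : Quotient.mk (isoSetoid (k + (j + 1))) G = q
    · rw [if_pos h, if_pos h, mul_one]
    · rw [if_neg h, if_neg h, mul_zero]
  rw [h1, paExp_succ]
  exact paExp_eq_paIso T j _ (fun p => kerQ p q) (fun G => (kerQ_mk G q).symm)

/-- an unlabelled graph is a tree if its representatives are. -/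
lemma paIso_ne_zero {T : SimpleGraph (Fin k)} (hT : T.IsTree) (j : ℕ) (p : Unlabelled (k + j))
    (h : paIso T j p ≠ 0) : p.out.IsTree := by
  unfold paIso at h
  obtain ⟨G, _, hG⟩ := exists_ne_zero_of_sum_ne_zero h
  split_ifs at hG with h1
  · have h2 : G.IsTree := (paLaw_support j G hG).isTree hT
    subst h1
    obtain ⟨e⟩ := Quotient.mk_out (s := isoSetoid (k + j)) G
    exact e.isTree_iff.mpr h2
  · exact absurd rfl hG

lemma paTV_nonneg (S T : SimpleGraph (Fin k)) (j : ℕ) : 0 ≤ paTV S T j := by
  unfold paTV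
  have : 0 ≤ ∑ q : Unlabelled (k + j), |paIso S j q - paIso T j q| :=
    sum_nonneg fun _ _ => abs_nonneg _
  linarith

lemma paTV_succ_le {S T : SimpleGraph (Fin k)} (hS : S.IsTree) (hT : T.IsTree) (hk : 2 ≤ k)
    (j : ℕ) : paTV S T (j + 1) ≤ paTV S T j := by
  unfold paTV
  apply mul_le_mul_of_nonneg_left _ (by norm_num)
  have h1 : ∀ q : Unlabelled (k + (j + 1)), |paIso S (j + 1) q - paIso T (j + 1) q| ≤
      ∑ p : Unlabelled (k + j), |paIso S j p - paIso T j p| * kerQ p q := by
    intro q
    rw [paIso_succ, paIso_succ, ← sum_sub_distrib]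
    refine (abs_sum_le_sum_abs _ _).trans (sum_le_sum fun p _ => ?_)
    rw [← sub_mul, abs_mul]
    apply mul_le_mul_of_nonneg_left _ (abs_nonneg _)
    exact (abs_of_nonneg (ker_nonneg (n := k + j) (by omega) _ _)).le
  refine (sum_le_sum fun q _ => h1 q).trans ?_
  rw [sum_comm]
  refine sum_le_sum fun p _ => ?_
  rw [← mul_sum]
  by_cases h : p.out.IsTree
  · have : ∑ q : Unlabelled (k + (j + 1)), kerQ p q = 1 := sum_ker (n := k + j) h (by omega)
    rw [this, mul_one]
  · have h2 : paIso S j p = 0 := by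
      by_contra hc; exact h (paIso_ne_zero hS j p hc)
    have h3 : paIso T j p = 0 := by
      by_contra hc; exact h (paIso_ne_zero hT j p hc)
    rw [h2, h3]
    simp

/-- the total variation distance converges, so the seed distance is a true limit -/
theorem tendsto_paTV {S T : SimpleGraph (Fin k)} (hS : S.IsTree) (hT : T.IsTree) (hk : 2 ≤ k) :
    Tendsto (paTV S T) atTop (𝓝 (seedDist S T)) := by
  have h1 : Antitone (paTV S T) := antitone_nat_of_succ_le (paTV_succ_le hS hT hk)
  have h2 : BddBelow (Set.range (paTV S T)) := ⟨0, by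
    rintro _ ⟨j, rfl⟩; exact paTV_nonneg S T j⟩
  have h3 := tendsto_atTop_ciInf h1 h2
  unfold seedDist
  rw [h3.limUnder_eq]
  exact h3

lemma sum_paIso {T : SimpleGraph (Fin k)} (hT : T.IsTree) (hk : 2 ≤ k) (j : ℕ) :
    ∑ q, paIso T j q = 1 := by
  have := paExp_eq_paIso T j (fun _ => 1) (fun _ => 1) (fun _ => rfl)
  rw [paExp_one hT hk j] at this
  simpa using this.symm

/-- lower bound of the total variation distance by invariant events -/
lemma paTV_ge {S T : SimpleGraph (Fin k)} (hS : S.IsTree) (hT : T.IsTree) (hk : 2 ≤ k) (j : ℕ)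
    (f : SimpleGraph (Fin (k + j)) → ℝ) (hf : ∀ G, 0 ≤ f G ∧ f G ≤ 1)
    (hinv : ∀ G H, (G ≃g H) → f G = f H) : paExp S j f - paExp T j f ≤ paTV S T j := by
  have hF : ∀ G, f G = (fun q : Unlabelled (k + j) => f q.out) (Quotient.mk _ G) := by
    intro G
    obtain ⟨e⟩ := Quotient.mk_out (s := isoSetoid (k + j)) G
    exact (hinv _ _ e).symm
  rw [paExp_eq_paIso S j f (fun q => f q.out) hF, paExp_eq_paIso T j f (fun q => f q.out) hF]
  have h1 : ∑ q : Unlabelled (k + j), (paIso S j q - paIso T j q) = 0 := by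
    rw [sum_sub_distrib, sum_paIso hS hk j, sum_paIso hT hk j, sub_self]
  calc ∑ q : Unlabelled (k + j), paIso S j q * f q.out - ∑ q : Unlabelled (k + j), paIso T j q * f q.out
      = ∑ q : Unlabelled (k + j), (paIso S j q - paIso T j q) * (f q.out - 1 / 2) := by
        have e : ∀ q : Unlabelled (k + j), (paIso S j q - paIso T j q) * (f q.out - 1 / 2) =
          (paIso S j q * f q.out - paIso T j q * f q.out) - (paIso S j q - paIso T j q) * (1 / 2) := by
          intro q; ring
        rw [sum_congr rfl (fun q _ => e q), sum_sub_distrib, ← sum_mul, h1, sum_sub_distrib]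
        ring
    _ ≤ ∑ q : Unlabelled (k + j), |paIso S j q - paIso T j q| * (1 / 2) := by
        refine sum_le_sum fun q _ => ?_
        refine (le_abs_self _).trans ?_
        rw [abs_mul]
        apply mul_le_mul_of_nonneg_left _ (abs_nonneg _)
        have := hf q.out
        rw [abs_le]
        constructor <;> linarith
    _ = _ := by
        unfold paTV
        rw [← sum_mul]
        ring

lemma paIso_nonneg {T : SimpleGraph (Fin k)} (hk : 1 ≤ k) (j : ℕ) (q : Unlabelled (k + j)) :
    0 ≤ paIso T j q := by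
  unfold paIso
  refine sum_nonneg fun G _ => ?_
  split_ifs
  · exact paLaw_nonneg hk j G
  · exact le_refl _

lemma paTV_le_one {S T : SimpleGraph (Fin k)} (hS : S.IsTree) (hT : T.IsTree) (hk : 2 ≤ k) (j : ℕ) :
    paTV S T j ≤ 1 := by
  unfold paTV
  have h : ∑ q : Unlabelled (k + j), |paIso S j q - paIso T j q| ≤
      ∑ q : Unlabelled (k + j), (paIso S j q + paIso T j q) := by
    refine sum_le_sum fun q _ => ?_
    have h1 := paIso_nonneg (T := S) (by omega) j q
    have h2 := paIso_nonneg (T := T) (by omega) j q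
    rw [abs_le]
    constructor <;> linarith
  rw [sum_add_distrib, sum_paIso hS hk j, sum_paIso hT hk j] at h
  linarith

lemma seedDist_le_one {S T : SimpleGraph (Fin k)} (hS : S.IsTree) (hT : T.IsTree) (hk : 2 ≤ k) :
    seedDist S T ≤ 1 :=
  le_of_tendsto' (tendsto_paTV hS hT hk) (paTV_le_one hS hT hk)

lemma seedDist_nonneg {S T : SimpleGraph (Fin k)} (hS : S.IsTree) (hT : T.IsTree) (hk : 2 ≤ k) :
    0 ≤ seedDist S T :=
  ge_of_tendsto' (tendsto_paTV hS hT hk) (paTV_nonneg S T)

end Pool.Agent.MP_b12932_pr
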