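import Pool.Agent.Lib.MP_b12932_pr.Forest

/-!
# Basic facts on trees: sides of an edge, degree sums
-/

set_option autoImplicit false

open Finset

namespace Pool.Agent.MP_b12932_pr

open SimpleGraph Classical

variable {V : Type} {G : SimpleGraph V}

/-- In a tree a vertex has at most one neighbour closer to a given vertex. -/
lemma closer_unique (hG : G.IsTree) {x w y y' : V} (hy : G.Adj x y) (hy' : G.Adj x y')
    (h : G.dist w y + 1 = G.dist w x) (h' : G.dist w y' + 1 = G.dist w x) : y = y' := by
  obtain ⟨p, hp, hpl⟩ := (hG.connected.exists_path_of_dist w y)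
  obtain ⟨p', hp', hpl'⟩ := (hG.connected.exists_path_of_dist w y')
  have hq : (p.concat hy.symm).IsPath := by
    apply Walk.isPath_of_length_eq_dist
    rw [Walk.length_concat, hpl, h]
  have hq' : (p'.concat hy'.symm).IsPath := by
    apply Walk.isPath_of_length_eq_dist
    rw [Walk.length_concat, hpl', h']
  have e : p.concat hy.symm = p'.concat hy'.symm :=
    (hG.existsUnique_path w x).unique hq hq'
  have := congrArg Walk.penultimate e
  simpa using this

/-- a vertex different from `w` has a neighbour closer to `w` -/
lemma exists_closer (hG : G.Connected) {x w : V} (hne : w ≠ x) :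
    ∃ y, G.Adj x y ∧ G.dist w y + 1 = G.dist w x := by
  obtain ⟨p, hp, hpl⟩ := (hG.exists_path_of_dist x w)
  cases p with
  | nil => exact absurd rfl hne
  | cons h q =>
    rename_i y
    refine ⟨y, h, ?_⟩
    rw [Walk.length_cons] at hpl
    have h1 : G.dist y w ≤ q.length := dist_le q
    have h2 : G.dist x w ≤ G.dist x y + G.dist y w := hG.dist_triangle
    rw [dist_eq_one_iff_adj.mpr h] at h2
    rw [dist_comm, dist_comm (u := w) (v := x)]
    omega

/-- `w` is on the side of `u` (with respect to the edge `uv`). -/
def OnSide (G : SimpleGraph V) (u v w : V) : Prop := G.dist w u < G.dist w v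

lemma onSide_self {u v : V} (hG : G.Connected) (h : u ≠ v) : OnSide G u v u := by
  unfold OnSide
  rw [dist_self]
  exact hG.pos_dist_of_ne h

lemma not_onSide_other {u v : V} : ¬ OnSide G u v v := by
  unfold OnSide; rw [dist_self]; exact Nat.not_lt_zero _

lemma onSide_iff (hG : G.IsTree) {u v : V} (h : G.Adj u v) (w : V) :
    OnSide G u v w ↔ G.dist w v = G.dist w u + 1 := by
  unfold OnSide
  have := hG.dist_eq_dist_add_one_of_adj w h
  omega

lemma not_onSide_iff (hG : G.IsTree) {u v : V} (h : G.Adj u v) (w : V) :
    ¬ OnSide G u v w ↔ OnSide G v u w := by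
  unfold OnSide
  have := hG.dist_eq_dist_add_one_of_adj w h
  omega

/-- the only edge leaving a side is the edge itself. -/
lemma side_boundary (hG : G.IsTree) {u v : V} (h : G.Adj u v) {w w' : V} (hw : OnSide G u v w)
    (hw' : ¬ OnSide G u v w') (hadj : G.Adj w w') : w = u ∧ w' = v := by
  rw [onSide_iff hG h] at hw
  rw [not_onSide_iff hG h, onSide_iff hG h.symm] at hw'
  have h1 := hG.dist_eq_dist_add_one_of_adj v hadj
  have h2 := hG.dist_eq_dist_add_one_of_adj u hadj
  rw [dist_comm (u := v) (v := w), dist_comm (u := v) (v := w')] at h1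
  rw [dist_comm (u := u) (v := w), dist_comm (u := u) (v := w')] at h2
  by_cases hwu : w = u
  · subst hwu
    refine ⟨rfl, ?_⟩
    rw [dist_self] at *
    have : G.dist w' v = 0 := by omega
    rcases dist_eq_zero_iff_eq_or_not_reachable.mp this with h | h
    · exact h
    · exact absurd (hG.connected w' v) h
  · exfalso
    obtain ⟨y, hy, hyd⟩ := exists_closer hG.connected (x := w) (w := u) (Ne.symm hwu)
    have hyv : G.dist v y + 1 = G.dist v w := by
      have t : G.dist v y ≤ G.dist v u + G.dist u y := hG.connected.dist_triangle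
      have t2 : G.dist v u = 1 := dist_eq_one_iff_adj.mpr h.symm
      have t3 : G.dist v w ≤ G.dist v y + G.dist y w := hG.connected.dist_triangle
      have t4 : G.dist y w = 1 := dist_eq_one_iff_adj.mpr hy.symm
      rw [dist_comm (u := u) (v := w)] at hyd
      rw [dist_comm (u := v) (v := w)] at *
      omega
    have hw'v : G.dist v w' + 1 = G.dist v w := by
      rw [dist_comm (u := v) (v := w'), dist_comm (u := v) (v := w)]
      omega
    have := closer_unique hG hy hadj hyv hw'v
    subst this
    rw [dist_comm (u := u) (v := w), dist_comm (u := u) (v := y)] at hyd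
    omega

/-- distance between vertices on different sides -/
lemma dist_across (hG : G.IsTree) {u v : V} (h : G.Adj u v) {w x : V} (hw : OnSide G u v w)
    (hx : ¬ OnSide G u v x) : G.dist w x = G.dist w u + 1 + G.dist v x := by
  apply le_antisymm
  · have t1 : G.dist w x ≤ G.dist w u + G.dist u x := hG.connected.dist_triangle
    have t2 : G.dist u x ≤ G.dist u v + G.dist v x := hG.connected.dist_triangle
    rw [dist_eq_one_iff_adj.mpr h] at t2
    omega
  · obtain ⟨p, hp, hpl⟩ := (hG.connected.exists_path_of_dist w x)
    rw [← hpl]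
    have key : ∀ (a b : V) (q : G.Walk a b), OnSide G u v a → ¬ OnSide G u v b →
        G.dist a u + 1 + G.dist v b ≤ q.length := by
      intro a b q
      induction q with
      | nil => intro h1 h2; exact absurd h1 h2
      | cons hadj q ih =>
        rename_i a c b
        intro h1 h2
        rw [Walk.length_cons]
        by_cases hc : OnSide G u v c
        · have := ih hc h2
          have t : G.dist a u ≤ G.dist a c + G.dist c u := hG.connected.dist_triangle
          rw [dist_eq_one_iff_adj.mpr hadj] at t
          omega
        · obtain ⟨rfl, rfl⟩ := side_boundary hG h h1 hc hadj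
          have := dist_le q
          rw [dist_self]
          omega
    exact key w x p hw hx

/-- If `x` is not on the side of `u`, then the side of `u` is contained in a branch at `x`. -/
lemma side_subset_branch (hG : G.IsTree) {u v : V} (h : G.Adj u v) {x : V}
    (hx : ¬ OnSide G u v x) : ∃ y, G.Adj x y ∧ ∀ w, OnSide G u v w → OnSide G y x w := by
  by_cases hxv : x = v
  · subst hxv
    exact ⟨u, h.symm, fun w hw => hw⟩
  · obtain ⟨y, hy, hyd⟩ := exists_closer hG.connected (x := x) (w := v) (Ne.symm hxv)
    refine ⟨y, hy, fun w hw => ?_⟩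
    have h1 := dist_across hG h hw hx
    unfold OnSide
    have t1 : G.dist w y ≤ G.dist w u + G.dist u y := hG.connected.dist_triangle
    have t2 : G.dist u y ≤ G.dist u v + G.dist v y := hG.connected.dist_triangle
    rw [dist_eq_one_iff_adj.mpr h] at t2
    omega

/-- branches at `x` cover everything but `x` -/
lemma exists_branch (hG : G.Connected) {x w : V} (hne : w ≠ x) :
    ∃ y, G.Adj x y ∧ OnSide G y x w := by
  obtain ⟨y, hy, hyd⟩ := exists_closer hG (x := x) (w := w) hne
  exact ⟨y, hy, by unfold OnSide; omega⟩

/-- branches at `x` are disjoint -/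
lemma branch_unique (hG : G.IsTree) {x w y y' : V} (hy : G.Adj x y) (hy' : G.Adj x y')
    (h : OnSide G y x w) (h' : OnSide G y' x w) : y = y' := by
  rw [onSide_iff hG hy.symm] at h
  rw [onSide_iff hG hy'.symm] at h'
  exact closer_unique hG hy hy' h.symm h'.symm

/-- different branches at `x` are not joined by an edge -/
lemma branch_sep (hG : G.IsTree) {x w w' y y' : V} (hy : G.Adj x y) (hy' : G.Adj x y')
    (h : OnSide G y x w) (h' : OnSide G y' x w') (hadj : G.Adj w w') : y = y' := by
  by_cases hw' : OnSide G y x w'
  · exact branch_unique hG hy hy' hw' h'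
  · obtain ⟨_, rfl⟩ := side_boundary hG hy.symm h hw' hadj
    exact absurd h' not_onSide_other

section Fin

variable [Fintype V]

/-- the set of vertices on the side of `u`. -/
noncomputable def side (G : SimpleGraph V) (u v : V) : Finset V := univ.filter (OnSide G u v)

@[simp] lemma mem_side {u v w : V} : w ∈ side G u v ↔ OnSide G u v w := by simp [side]

/-- the sum of degrees over a set of vertices -/
noncomputable def degSum (G : SimpleGraph V) (A : Finset V) : ℕ := ∑ w ∈ A, G.degree w

lemma degSum_side (hG : G.IsTree) {u v : V} (h : G.Adj u v) :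
    degSum G (side G u v) + 1 = 2 * (side G u v).card := by
  classical
  set A := side G u v with hA
  have hdeg : ∀ w, G.degree w = ∑ w', ((if G.Adj w w' ∧ G.dist v w' + 1 = G.dist v w then 1 else 0)
      + (if G.Adj w w' ∧ G.dist v w + 1 = G.dist v w' then 1 else 0)) := by
    intro w
    rw [← card_neighborFinset_eq_degree, card_eq_sum_ones, neighborFinset_eq_filter, sum_filter]
    refine sum_congr rfl fun w' _ => ?_
    by_cases hadj : G.Adj w w'
    · have := hG.dist_eq_dist_add_one_of_adj v hadj
      rcases this with h1 | h1
      · have h2 : ¬ (G.dist v w + 1 = G.dist v w') := by omega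
        rw [if_pos hadj, if_pos ⟨hadj, h1.symm⟩, if_neg (fun h => h2 h.2)]
      · have h2 : ¬ (G.dist v w' + 1 = G.dist v w) := by omega
        rw [if_pos hadj, if_neg (fun h => h2 h.2), if_pos ⟨hadj, h1.symm⟩]
    · simp [hadj]
  have hvA : v ∉ A := by simp [hA, not_onSide_other]
  have huA : u ∈ A := by simp [hA, onSide_self hG.connected h.ne]
  have h1 : ∑ w ∈ A, ∑ w', (if G.Adj w w' ∧ G.dist v w' + 1 = G.dist v w then 1 else 0) = A.card := by
    rw [card_eq_sum_ones]
    refine sum_congr rfl fun w hw => ?_
    have hne : v ≠ w := fun e => hvA (e ▸ hw)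
    obtain ⟨y, hy, hyd⟩ := exists_closer hG.connected (x := w) (w := v) hne
    rw [sum_eq_single y]
    · simp [hy, hyd]
    · intro b _ hb
      rw [if_neg]
      rintro ⟨h1, h2⟩
      exact hb (closer_unique hG h1 hy h2 hyd)
    · simp
  have h2 : ∑ w ∈ A, ∑ w', (if G.Adj w w' ∧ G.dist v w + 1 = G.dist v w' then 1 else 0)
      = (A.erase u).card := by
    rw [sum_comm, card_eq_sum_ones, ← sum_subset (subset_univ (A.erase u))]
    · refine sum_congr rfl fun w' hw' => ?_
      have hw'A : w' ∈ A := mem_of_mem_erase hw'
      have hne : v ≠ w' := fun e => hvA (e ▸ hw'A)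
      obtain ⟨y, hy, hyd⟩ := exists_closer hG.connected (x := w') (w := v) hne
      have hyA : y ∈ A := by
        by_contra hcon
        rw [hA, mem_side] at hcon hw'A
        obtain ⟨h3, h4⟩ := side_boundary hG h hw'A hcon hy
        exact (ne_of_mem_erase hw') h3
      rw [sum_eq_single_of_mem y hyA]
      · simp [hy.symm, hyd]
      · intro b _ hb
        rw [if_neg]
        rintro ⟨h1, h2⟩
        exact hb (closer_unique hG h1.symm hy h2 hyd)
    · intro w' _ hw'
      refine sum_eq_zero fun w hw => ?_
      rw [if_neg]
      rintro ⟨hadj, hd⟩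
      by_cases hw'A : w' ∈ A
      · have : w' = u := by
          by_contra hne
          exact hw' (mem_erase.mpr ⟨hne, hw'A⟩)
        subst this
        have hv : G.dist v w' = 1 := dist_eq_one_iff_adj.mpr h.symm
        have hw0 : G.dist v w = 0 := by omega
        rcases dist_eq_zero_iff_eq_or_not_reachable.mp hw0 with e | e
        · exact hvA (e ▸ hw)
        · exact e (hG.connected v w)
      · rw [hA, mem_side] at hw'A hw
        obtain ⟨h3, h4⟩ := side_boundary hG h hw hw'A hadj
        subst h4
        rw [SimpleGraph.dist_self] at hd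
        omega
  unfold degSum
  rw [sum_congr rfl (fun w _ => hdeg w)]
  simp only [sum_add_distrib]
  rw [h1, h2, card_erase_of_mem huA]
  have : 0 < A.card := card_pos.mpr ⟨u, huA⟩
  omega

lemma side_compl (hG : G.IsTree) {u v : V} (h : G.Adj u v) : (side G u v)ᶜ = side G v u := by
  ext w
  simp [not_onSide_iff hG h]

lemma side_card_add (hG : G.IsTree) {u v : V} (h : G.Adj u v) :
    (side G u v).card + (side G v u).card = Fintype.card V := by
  rw [← side_compl hG h, card_add_card_compl]

lemma degSum_univ (hG : G.IsTree) : degSum G univ + 2 = 2 * Fintype.card V := by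
  unfold degSum
  rw [sum_degrees_eq_twice_card_edges]
  have := hG.card_edgeFinset
  omega

end Fin

end Pool.Agent.MP_b12932_pr
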